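import Pool.Agent.Y226.ZP.Large

/-!
# Global assembly
-/

set_option autoImplicit false
set_option linter.unusedSectionVars false

open Polynomial UpperHalfPlane H294ZP

namespace Pool.Agent.Y226

section reverse

theorem eval_inv_reverse {K : Type*} [Field K] (f : K[X]) {a : K} (ha : a ≠ 0) :
    f.eval a = f.reverse.eval a⁻¹ * a ^ f.natDegree := by
  letI : Invertible a := invertibleOfNonzero ha
  have h := eval₂_reverse_mul_pow (RingHom.id K) a f
  rw [invOf_eq_inv] at h
  simp only [eval₂_id] at h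
  exact h.symm

theorem eval_zero_reverse {K : Type*} [Field K] (f : K[X]) : f.reverse.eval 0 = f.leadingCoeff := by
  rw [← coeff_zero_eq_eval_zero, coeff_zero_reverse]

theorem coprime_iff {f g : QA[X]} : IsCoprime f g ↔ ∀ a : QA, f.eval a ≠ 0 ∨ g.eval a ≠ 0 := by
  rw [isCoprime_iff_aeval_ne_zero_of_isAlgClosed QA QA]
  simp only [coe_aeval_eq_eval]

theorem coprime_reverse {f g : QA[X]} (h : IsCoprime f g) (hf : f ≠ 0) :
    IsCoprime f.reverse g.reverse := by
  rw [coprime_iff] at h ⊢
  intro a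
  by_cases ha : a = 0
  · left
    rw [ha, eval_zero_reverse]
    exact leadingCoeff_ne_zero.2 hf
  · rcases h a⁻¹ with h1 | h1
    · left
      intro h2
      apply h1
      rw [eval_inv_reverse f (inv_ne_zero ha), inv_inv, h2, zero_mul]
    · right
      intro h2
      apply h1
      rw [eval_inv_reverse g (inv_ne_zero ha), inv_inv, h2, zero_mul]

end reverse

/-- scaling by units -/
noncomputable def PData.scale {C : Type} [NormedField C] [IsUltrametricDist C] {p : ℕ}
    [hpf : Fact p.Prime] {n d : ℕ} (𝒟 : PData C p n d) (u : Fin n → C) (hu : ∀ i, u i ∈ Nr C p)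
    (hu1 : ∀ i, ‖u i‖ = 1) : PData C p n d where
  A := fun i => Polynomial.C (u i) * 𝒟.A i
  B := 𝒟.B
  hA := fun i => mul_mem (C_mem_PS (hu i)) (𝒟.hA i)
  hB := 𝒟.hB
  dA := fun i => (natDegree_C_mul_le _ _).trans (𝒟.dA i)
  dB := 𝒟.dB
  g1 := fun x hx i j hij => by
    simp only [eval_mul, eval_C, norm_mul, hu1, one_mul]
    simpa only [norm_mul] using 𝒟.g1 x hx i j hij
  g2 := fun x hx i => by
    simp only [eval_mul, eval_C, norm_mul, hu1, one_mul]
    exact 𝒟.g2 x hx i
  g3 := fun i => by
    obtain ⟨x, hx, h⟩ := 𝒟.g3 i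
    refine ⟨x, hx, ?_⟩
    simp only [eval_mul, eval_C, norm_mul, hu1, one_mul]
    simpa only [norm_mul] using h

/-- rational `p`-adic units -/
theorem rat_unit {C : Type} [NormedField C] [IsUltrametricDist C] [CharZero C] {p : ℕ}
    [hpf : Fact p.Prime] (hp1 : ‖(p : C)‖ < 1) {u : ℚ} (hu : padicValRat p u = 0) (hu0 : u ≠ 0) :
    (u : C) ∈ Nr C p ∧ ‖(u : C)‖ = 1 := by
  have h1 : ¬ (p : ℤ) ∣ u.num ∧ ¬ (p : ℤ) ∣ (u.den : ℤ) := by
    rw [padicValRat] at hu
    have hnum : u.num ≠ 0 := Rat.num_ne_zero.2 hu0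
    by_cases hd : (p : ℤ) ∣ (u.den : ℤ)
    · exfalso
      have hn : ¬ (p : ℤ) ∣ u.num := by
        intro hn
        have h2 : p ∣ Nat.gcd u.num.natAbs u.den :=
          Nat.dvd_gcd (Int.natCast_dvd.1 hn) (by exact_mod_cast hd)
        rw [u.reduced] at h2
        exact hpf.out.one_lt.ne' (Nat.dvd_one.1 h2)
      have h3 : padicValInt p u.num = 0 := padicValInt.eq_zero_of_not_dvd hn
      have h4 : 1 ≤ padicValNat p u.den := by
        apply one_le_padicValNat_of_dvd u.den_nz
        exact_mod_cast hd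
      omega
    · refine ⟨fun hn => ?_, hd⟩
      have h3 : padicValNat p u.den = 0 := by
        apply padicValNat.eq_zero_of_not_dvd
        intro h; exact hd (by exact_mod_cast h)
      have h4 : 1 ≤ padicValNat p u.num.natAbs :=
        one_le_padicValNat_of_dvd (Int.natAbs_ne_zero.2 hnum) (Int.natCast_dvd.1 hn)
      rw [padicValInt] at hu
      omega
  have hn := int_unit (C := C) hp1 h1.1
  have hd := int_unit (C := C) hp1 h1.2
  have e : (u : C) = (u.num : C) * ((u.den : ℤ) : C)⁻¹ := by
    conv_lhs => rw [← Rat.num_div_den u]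
    push_cast
    rw [div_eq_mul_inv]
  rw [e]
  refine ⟨mul_mem (intCast_mem _ _) (Nr_inv (intCast_mem _ _) hd), ?_⟩
  rw [norm_mul, norm_inv, hn, hd, inv_one, one_mul]

section poly

variable {n : ℕ} (α β : Fin n → QA[X]) (lam : Fin n → ℚ)

/-- the value at a complex number -/
noncomputable def ev (f : QA[X]) (t : ℂ) : ℂ := (f.map rA).eval t

theorem ev_rA (f : QA[X]) (t : QA) : ev f (rA t) = rA (f.eval t) := by
  unfold ev; rw [eval_map_apply]

/-- the polynomial expressing that two coordinates are related by the modular equation -/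
theorem pair_poly (hc : ∀ i, IsCoprime (α i) (β i))
    (hc' : ∀ i j, i ≠ j → IsCoprime (α i * β i) (α j * β j)) (hd : ∀ i, 0 < (β i).natDegree)
    (hlam : ∀ i, lam i ≠ 0) {i j : Fin n} (hij : i ≠ j) {N : ℕ} (hN : 0 < N) :
    ∃ g : QA[X], g ≠ 0 ∧ ∀ (t x y : ℂ), ev (β i) t * x = lam i * ev (α i) t →
      ev (β j) t * y = lam j * ev (α j) t → PsiE ιZ (mP N) (mD N) x y = 0 → ev g t = 0 := by
  obtain ⟨-, -, -, -, -, -, -, -, hone, -, -⟩ := modular_spec N hN
  set D := mD N with hD
  set P := mP N with hP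
  set E := ∑ l ∈ Finset.range (D + 1), (P l).natDegree with hE
  have hEl : ∀ l ∈ Finset.range (D + 1), (P l).natDegree < E + 1 := by
    intro l hl
    have := Finset.single_le_sum (f := fun l => (P l).natDegree) (fun _ _ => Nat.zero_le _) hl
    exact Nat.lt_succ_of_le this
  set g : QA[X] := ∑ l ∈ Finset.range (D + 1),
    (∑ m ∈ Finset.range (E + 1), C (iA ((P l).coeff m)) * ((C (lam i : QA) * α i) ^ m *
      β i ^ (E - m))) * ((C (lam j : QA) * α j) ^ l * β j ^ (D - l)) with hg
  refine ⟨g, ?_, ?_⟩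
  · -- evaluate at a root of `β j`
    obtain ⟨z, hz⟩ := IsAlgClosed.exists_root (β j) (by
      rw [degree_eq_natDegree (ne_zero_of_natDegree_gt (hd j))]
      exact_mod_cast (hd j).ne')
    have hz' : (β j).eval z = 0 := hz
    have hαj : (α j).eval z ≠ 0 := by
      rcases coprime_iff.1 (hc j) z with h | h
      · exact h
      · exact absurd hz' h
    have hβi : (β i).eval z ≠ 0 := by
      rcases coprime_iff.1 (hc' i j hij) z with h | h
      · rw [eval_mul] at h; exact right_ne_zero_of_mul h
      · rw [eval_mul, hz', mul_zero] at h; exact absurd rfl h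
    intro h0
    have h1 := congrArg (Polynomial.eval z) h0
    rw [eval_zero, hg, eval_finsetSum, Finset.sum_range_succ, Finset.sum_eq_zero, zero_add] at h1
    · rw [eval_mul, eval_finsetSum, Finset.sum_range_succ', Finset.sum_eq_zero] at h1
      · simp only [hone, coeff_one_zero, map_one, eval_mul, eval_pow, eval_C, pow_zero, one_mul,
          zero_add, Nat.sub_zero, Nat.sub_self, mul_one] at h1
        have hlj : (lam j : QA) ≠ 0 := by exact_mod_cast hlam j
        exact (mul_ne_zero (pow_ne_zero _ hβi) (pow_ne_zero _ (mul_ne_zero hlj hαj))) h1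
      · intro m _
        rw [hone, coeff_one, if_neg (Nat.succ_ne_zero m), map_zero, C_0, zero_mul, eval_zero]
    · intro l hl
      have hl' := Finset.mem_range.1 hl
      rw [eval_mul, eval_mul, eval_pow, eval_pow, hz', zero_pow (by omega), mul_zero, mul_zero]
  · intro t x y hx hy hΨ
    have key : ev g t = ev (β i) t ^ E * ev (β j) t ^ D * PsiE ιZ P D x y := by
      unfold PsiE
      rw [hg]
      unfold ev
      rw [Polynomial.map_sum, eval_finsetSum, Finset.mul_sum]
      refine Finset.sum_congr rfl fun l hl => ?_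
      have hl' := Nat.lt_succ_iff.1 (Finset.mem_range.1 hl)
      rw [eval₂_eq_sum_range' ιZ (hEl l hl), Polynomial.map_mul, Polynomial.map_sum, eval_mul,
        eval_finsetSum, Finset.sum_mul, Finset.sum_mul, Finset.mul_sum]
      refine Finset.sum_congr rfl fun m hm => ?_
      have hm' := Nat.lt_succ_iff.1 (Finset.mem_range.1 hm)
      simp only [Polynomial.map_mul, Polynomial.map_pow, Polynomial.map_C, eval_mul, eval_pow,
        eval_C, map_ratCast]
      have e1 : rA (iA ((P l).coeff m)) = ιZ ((P l).coeff m) := rfl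
      have hx' : (lam i : ℂ) * ((α i).map rA).eval t = ((β i).map rA).eval t * x := hx.symm
      have hy' : (lam j : ℂ) * ((α j).map rA).eval t = ((β j).map rA).eval t * y := hy.symm
      rw [e1, hx', hy', mul_pow, mul_pow]
      have e2 : ((β i).map rA).eval t ^ E = ((β i).map rA).eval t ^ m *
          ((β i).map rA).eval t ^ (E - m) := by rw [← pow_add, Nat.add_sub_cancel' hm']
      have e3 : ((β j).map rA).eval t ^ D = ((β j).map rA).eval t ^ l *
          ((β j).map rA).eval t ^ (D - l) := by rw [← pow_add, Nat.add_sub_cancel' hl']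
      rw [e2, e3]
      ring
    rw [key, hΨ, mul_zero]

/-- roots are algebraic -/
theorem root_algebraic {g : QA[X]} (hg : g ≠ 0) {t : ℂ} (ht : ev g t = 0) : ∃ s : QA, rA s = t := by
  have h1 : IsAlgebraic QA t := ⟨g, hg, by rw [aeval_def, eval₂_eq_eval_map]; exact ht⟩
  have h2 : IsAlgebraic ℚ t := h1.restrictScalars ℚ
  exact ⟨⟨t, mem_QA.2 h2⟩, rfl⟩

end poly

end Pool.Agent.Y226
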