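import Pool.Agent.Y226.ZP.Tate

/-!
# The modular equations and the Tate relation
-/

set_option autoImplicit false
set_option linter.unusedSectionVars false

open UpperHalfPlane H294ZP Polynomial

namespace Pool.Agent.Y226

/-- the value of the modular polynomial with coefficients `P` -/
noncomputable def PsiE {K : Type*} [CommRing K] (φ : ZZ →+* K) (P : ℕ → ZZ[X]) (D : ℕ)
    (x y : K) : K := ∑ i ∈ Finset.range (D + 1), (P i).eval₂ φ x * y ^ i

theorem map_PsiE {K L : Type*} [CommRing K] [CommRing L] (φ : ZZ →+* K) (f : K →+* L)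
    (P : ℕ → ZZ[X]) (D : ℕ) (x y : K) :
    f (PsiE φ P D x y) = PsiE (f.comp φ) P D (f x) (f y) := by
  unfold PsiE
  rw [map_sum]
  refine Finset.sum_congr rfl fun i _ => ?_
  rw [map_mul, map_pow, hom_eval₂]

/-- a family of representatives of the matrices of determinant `N`, and the modular equation -/
theorem modular_family (N : ℕ) (hN : 0 < N) : ∃ (ι : Type) (_ : Fintype ι)
    (α δ : ι → ℕ) (β : ι → ℤ) (h : ι → ℍ → ℍ) (P : ℕ → ZZ[X]),
    (∀ k, 0 < α k ∧ 0 < δ k ∧ α k * δ k = N) ∧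
    (∀ k τ, (h k τ : ℂ) * δ k = α k * τ + β k) ∧
    P (Fintype.card ι) = 1 ∧
    (∀ τ y, ∏ k, (y - jj (h k τ)) = PsiE ιZ P (Fintype.card ι) (jj τ) y) ∧
    (∀ (τ w : ℍ) (a b c d : ℤ), a * d - b * c = N → (w : ℂ) * (c * τ + d) = a * τ + b →
      PsiE ιZ P (Fintype.card ι) (jj τ) (jj w) = 0) := by
  classical
  have hC : TC := tc
  have hA : TA := ⟨ta1.1, ta1.2, ta2⟩
  have hB : TB := TBproof.tb hA hC
  obtain ⟨ι, _, _, α, δ, β, h, h1, h2, h3, h4⟩ := TF676.tf ta1.1 N hN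
  set D := Fintype.card ι with hD
  have hG : ∀ k, TDaux.Lx N (fun τ => jj (h k τ)) := by
    intro k
    obtain ⟨ha, hd, had⟩ := h1 k
    have := hC.2.2.2.2 hA.2.1 hA.2.2 (α k) (δ k) (β k) ha hd (h k) (h2 k)
    rw [had] at this
    exact ⟨⟨_, _, this.1⟩, this.2⟩
  let F : ℍ → ℂ[X] := fun τ => ∏ k, (X - C (jj (h k τ)))
  have hco := TDaux.coeff_prod hC hN (fun k τ => jj (h k τ)) hG Finset.univ
  have hinv : ∀ j, Inv (fun τ => (F τ).coeff j) := by
    intro j p q r s hps τ w hw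
    obtain ⟨σ, hσ⟩ := h3 p q r s hps τ w hw
    have : F w = F τ := by
      show ∏ k, (X - C (jj (h k w))) = ∏ k, (X - C (jj (h k τ)))
      rw [← Equiv.prod_comp σ (fun k => (X - C (jj (h k τ))))]
      exact Finset.prod_congr rfl fun k _ => by rw [hσ k]
    show (F w).coeff j = (F τ).coeff j
    rw [this]
  have hmon : ∀ τ, (F τ).Monic := fun τ => monic_prod_of_monic _ _ fun k _ => monic_X_sub_C _
  have hdeg : ∀ τ, (F τ).natDegree = D := by
    intro τ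
    show (∏ k, (X - C (jj (h k τ)))).natDegree = D
    rw [natDegree_prod_of_monic _ _ fun k _ => monic_X_sub_C _]
    simp [hD]
  have hP : ∀ j, ∃ P : ZZ[X], ∀ τ, (F τ).coeff j = P.eval₂ ιZ (jj τ) := by
    intro j
    obtain ⟨⟨m, A, hL⟩, hH⟩ := hco j
    obtain ⟨P, hP1, hP2, -⟩ := hB N hN m A _ (hinv j) hH hL
    have hlift : P ∈ lifts ιZ := by
      rw [lifts_iff_coeff_lifts]
      intro i
      exact ⟨⟨P.coeff i, hP1 i⟩, rfl⟩
    obtain ⟨q, hq⟩ := (mem_lifts P).1 hlift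
    refine ⟨q, fun τ => ?_⟩
    rw [eval₂_eq_eval_map, hq]
    exact hP2 τ
  choose P hP using hP
  set P' : ℕ → ZZ[X] := fun j => if j = D then 1 else P j with hP'
  have hP'' : ∀ j τ, (F τ).coeff j = (P' j).eval₂ ιZ (jj τ) := by
    intro j τ
    by_cases hj : j = D
    · rw [hP']
      simp only [if_pos hj, eval₂_one]
      rw [hj, ← hdeg τ]
      exact hmon τ
    · rw [hP']
      simp only [if_neg hj]
      exact hP j τ
  have hprod : ∀ τ y, ∏ k, (y - jj (h k τ)) = PsiE ιZ P' D (jj τ) y := by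
    intro τ y
    have e1 : ∏ k, (y - jj (h k τ)) = (F τ).eval y := by
      show _ = (∏ k, (X - C (jj (h k τ)))).eval y
      rw [eval_prod]
      simp
    rw [e1, eval_eq_sum_range, hdeg τ]
    unfold PsiE
    exact Finset.sum_congr rfl fun i _ => by rw [hP'']
  refine ⟨ι, inferInstance, α, δ, β, h, P', h1, h2, by simp [hP', hD], hprod, ?_⟩
  intro τ w a b c d hdet hw
  obtain ⟨k, hk⟩ := h4 a b c d hdet τ w hw
  rw [← hprod τ (jj w)]
  exact Finset.prod_eq_zero (Finset.mem_univ k) (by rw [hk, sub_self])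

/-- the chosen modular equation of level `N`: coefficients -/
noncomputable def mP (N : ℕ) : ℕ → ZZ[X] :=
  if h : 0 < N then (modular_family N h).choose_spec.choose_spec.choose_spec.choose_spec.choose_spec.choose_spec.choose else fun _ => 0

/-- the chosen modular equation of level `N`: degree -/
noncomputable def mD (N : ℕ) : ℕ :=
  if h : 0 < N then @Fintype.card (modular_family N h).choose (modular_family N h).choose_spec.choose else 0

theorem modular_spec (N : ℕ) (hN : 0 < N) : ∃ (ι : Type) (_ : Fintype ι)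
    (α δ : ι → ℕ) (β : ι → ℤ) (h : ι → ℍ → ℍ),
    (∀ k, 0 < α k ∧ 0 < δ k ∧ α k * δ k = N) ∧
    (∀ k τ, (h k τ : ℂ) * δ k = α k * τ + β k) ∧
    mP N (mD N) = 1 ∧
    (∀ τ y, ∏ k, (y - jj (h k τ)) = PsiE ιZ (mP N) (mD N) (jj τ) y) ∧
    (∀ (τ w : ℍ) (a b c d : ℤ), a * d - b * c = N → (w : ℂ) * (c * τ + d) = a * τ + b →
      PsiE ιZ (mP N) (mD N) (jj τ) (jj w) = 0) := by
  have h := (modular_family N hN).choose_spec.choose_spec.choose_spec.choose_spec.choose_spec.choose_spec.choose_spec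
  refine ⟨(modular_family N hN).choose, (modular_family N hN).choose_spec.choose,
    (modular_family N hN).choose_spec.choose_spec.choose,
    (modular_family N hN).choose_spec.choose_spec.choose_spec.choose,
    (modular_family N hN).choose_spec.choose_spec.choose_spec.choose_spec.choose,
    (modular_family N hN).choose_spec.choose_spec.choose_spec.choose_spec.choose_spec.choose, ?_⟩
  have e1 : mP N = (modular_family N hN).choose_spec.choose_spec.choose_spec.choose_spec.choose_spec.choose_spec.choose := by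
    unfold mP; rw [dif_pos hN]
  have e2 : mD N = @Fintype.card (modular_family N hN).choose (modular_family N hN).choose_spec.choose := by
    unfold mD; rw [dif_pos hN]
  rw [e1, e2]
  exact h

/-- the root of unity `exp (2 π i b / d)` as an algebraic integer -/
theorem isIntegral_exp (b : ℤ) {d : ℕ} (hd : 0 < d) :
    IsIntegral ℤ (Complex.exp (2 * Real.pi * Complex.I * b / d)) := by
  have hd0 : (d : ℂ) ≠ 0 := by exact_mod_cast hd.ne'
  refine IsIntegral.of_pow hd ?_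
  rw [← Complex.exp_nat_mul]
  have : (d : ℂ) * (2 * Real.pi * Complex.I * b / d) = b * (2 * Real.pi * Complex.I) := by
    field_simp
  rw [this, Complex.exp_int_mul_two_pi_mul_I]
  exact isIntegral_one

/-- `exp (2 π i b / d)` -/
noncomputable def eZ (b : ℤ) (d : ℕ) (hd : 0 < d) : ZZ := ⟨_, isIntegral_exp b hd⟩

theorem eZ_mul (b : ℤ) (d : ℕ) (hd : 0 < d) : eZ b d hd * eZ (-b) d hd = 1 := by
  apply Subtype.ext
  show Complex.exp (2 * Real.pi * Complex.I * b / d) *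
    Complex.exp (2 * Real.pi * Complex.I * ((-b : ℤ) : ℂ) / d) = 1
  rw [← Complex.exp_add]
  push_cast
  rw [show 2 * (Real.pi : ℂ) * Complex.I * b / d + 2 * Real.pi * Complex.I * -b / d = 0 by ring,
    Complex.exp_zero]

theorem qq_h {α δ : ℕ} {β : ℤ} (hα : 0 < α) (hδ : 0 < δ) {τ w : ℍ}
    (hw : (w : ℂ) * δ = α * τ + β) :
    qq 1 w = ιZ (eZ β δ hδ) * qq (α * δ) τ ^ (α ^ 2) := by
  have hδ0 : (δ : ℂ) ≠ 0 := by exact_mod_cast hδ.ne'
  have hα0 : (α : ℂ) ≠ 0 := by exact_mod_cast hα.ne'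
  show Complex.exp _ = Complex.exp (2 * Real.pi * Complex.I * β / δ) *
    (Complex.exp (2 * Real.pi * Complex.I * τ / (α * δ : ℕ))) ^ (α ^ 2)
  rw [← Complex.exp_nat_mul, ← Complex.exp_add]
  congr 1
  have : (w : ℂ) = (α * τ + β) / δ := by rw [eq_div_iff hδ0]; exact hw
  rw [this]
  push_cast
  field_simp
  ring

section padic

variable {C : Type} [NormedField C] [IsUltrametricDist C] [CompleteSpace C] [CharZero C]
  {ψ : ZZ →+* C} (hψ : ∀ z, ‖ψ z‖ ≤ 1)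

include hψ

theorem rep_jj {N : ℕ} (hN : 0 < N) {Q : C} (hQ0 : Q ≠ 0) (hQ : ‖Q‖ < 1) :
    Rep ψ N Q jj (JC ψ (Q ^ N)) := by
  have h := Rep.jfun hψ (N := N) (m := N) hN hQ0 hQ (u := 1) (u' := 1) (by simp) (g := id)
    (fun τ => by
      rw [map_one, one_mul]
      unfold qq
      rw [← Complex.exp_nat_mul]
      congr 1
      have : (N : ℂ) ≠ 0 := by exact_mod_cast hN.ne'
      simp only [id]
      push_cast
      field_simp)
  simpa using h

theorem rep_jh {N α δ : ℕ} {β : ℤ} (hα : 0 < α) (hδ : 0 < δ) (hαδ : α * δ = N) {h : ℍ → ℍ}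
    (hh : ∀ τ, (h τ : ℂ) * δ = α * τ + β) {Q : C} (hQ0 : Q ≠ 0) (hQ : ‖Q‖ < 1) :
    Rep ψ N Q (fun τ => jj (h τ)) (JC ψ (ψ (eZ β δ hδ) * Q ^ (α ^ 2))) := by
  refine Rep.jfun hψ (by positivity) hQ0 hQ (eZ_mul β δ hδ) fun τ => ?_
  rw [← hαδ]
  exact qq_h hα hδ (hh τ)

/-- the roots of the modular equation over `C` -/
theorem psi_roots {N : ℕ} (hN : 0 < N) {Q y : C} (hQ0 : Q ≠ 0) (hQ : ‖Q‖ < 1)
    (h : PsiE ψ (mP N) (mD N) (JC ψ (Q ^ N)) y = 0) :
    ∃ (α δ : ℕ) (β : ℤ) (_ : 0 < α) (hδ : 0 < δ), α * δ = N ∧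
      y = JC ψ (ψ (eZ β δ hδ) * Q ^ (α ^ 2)) := by
  obtain ⟨ι, _, α, δ, β, g, h1, h2, -, h4, -⟩ := modular_spec N hN
  -- equality of polynomials
  have hval : ∀ n : ℕ, PsiE ψ (mP N) (mD N) (JC ψ (Q ^ N)) (n : C) =
      ∏ k, ((n : C) - JC ψ (ψ (eZ (β k) (δ k) (h1 k).2.1) * Q ^ (α k ^ 2))) := by
    intro n
    have hn : Rep ψ N Q (fun _ => (n : ℂ)) (n : C) := by
      have := Rep.const (ψ := ψ) (N := N) (Q := Q) (n : ZZ)
      simpa using this
    have hn' : Rep ψ N Q (fun _ => ((-1 : ℂ))) (-1 : C) := by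
      have := Rep.const (ψ := ψ) (N := N) (Q := Q) (-1 : ZZ)
      simpa using this
    have e1 : Rep ψ N Q (fun τ => PsiE ιZ (mP N) (mD N) (jj τ) n)
        (PsiE ψ (mP N) (mD N) (JC ψ (Q ^ N)) n) :=
      Rep.sum _ fun i _ => ((rep_jj hψ hN hQ0 hQ).poly _).mul (hn.pow i)
    have e2 : Rep ψ N Q (fun τ => ∏ k, ((n : ℂ) + -1 * jj (g k τ)))
        (∏ k, ((n : C) + -1 * JC ψ (ψ (eZ (β k) (δ k) (h1 k).2.1) * Q ^ (α k ^ 2)))) :=
      Rep.prod _ fun k _ => hn.add (hn'.mul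
        (rep_jh hψ (h1 k).1 (h1 k).2.1 (h1 k).2.2 (h2 k) hQ0 hQ))
    have e3 : (fun τ => ∏ k, ((n : ℂ) + -1 * jj (g k τ))) =
        fun τ => PsiE ιZ (mP N) (mD N) (jj τ) n := by
      funext τ
      rw [← h4 τ n]
      exact Finset.prod_congr rfl fun k _ => by ring
    rw [e3] at e2
    rw [e1.unique hN hQ0 e2]
    exact Finset.prod_congr rfl fun k _ => by ring
  set p₁ : C[X] := ∑ i ∈ Finset.range (mD N + 1),
    Polynomial.C ((mP N i).eval₂ ψ (JC ψ (Q ^ N))) * X ^ i with hp₁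
  set p₂ : C[X] := ∏ k, (X - Polynomial.C
    (JC ψ (ψ (eZ (β k) (δ k) (h1 k).2.1) * Q ^ (α k ^ 2)))) with hp₂
  have hev₁ : ∀ z, p₁.eval z = PsiE ψ (mP N) (mD N) (JC ψ (Q ^ N)) z := by
    intro z
    rw [hp₁, eval_finsetSum]
    simp only [eval_mul, eval_C, eval_pow, eval_X]
    rfl
  have hev₂ : ∀ z, p₂.eval z = ∏ k, (z - JC ψ (ψ (eZ (β k) (δ k) (h1 k).2.1) * Q ^ (α k ^ 2))) := by
    intro z
    rw [hp₂, eval_prod]
    simp
  have heq : p₁ = p₂ := by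
    refine eq_of_infinite_eval_eq p₁ p₂ ?_
    refine Set.Infinite.mono ?_ (Set.infinite_range_of_injective (Nat.cast_injective (R := C)))
    rintro _ ⟨n, rfl⟩
    show p₁.eval _ = p₂.eval _
    rw [hev₁, hev₂, hval]
  rw [← hev₁, heq, hev₂] at h
  obtain ⟨k, -, hk⟩ := Finset.prod_eq_zero_iff.1 h
  exact ⟨α k, δ k, β k, (h1 k).1, (h1 k).2.1, (h1 k).2.2, sub_eq_zero.1 hk⟩

/-- conversely -/
theorem psi_of_param {N α δ : ℕ} (β : ℤ) (hα : 0 < α) (hδ : 0 < δ) (hαδ : α * δ = N)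
    {Q : C} (hQ0 : Q ≠ 0) (hQ : ‖Q‖ < 1) :
    PsiE ψ (mP N) (mD N) (JC ψ (Q ^ N)) (JC ψ (ψ (eZ β δ hδ) * Q ^ (α ^ 2))) = 0 := by
  have hN : 0 < N := by rw [← hαδ]; exact Nat.mul_pos hα hδ
  obtain ⟨ι, _, -, -, -, -, -, -, -, -, h5⟩ := modular_spec N hN
  have hδ0 : (δ : ℂ) ≠ 0 := by exact_mod_cast hδ.ne'
  have him : ∀ τ : ℍ, 0 < (((α : ℂ) * τ + β) / δ).im := by
    intro τ
    have : ((α : ℂ) * τ + β) / δ = ((α / δ : ℝ) : ℂ) * τ + ((β / δ : ℝ) : ℂ) := by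
      push_cast; field_simp
    rw [this, Complex.add_im, Complex.im_ofReal_mul, Complex.ofReal_im, add_zero]
    exact mul_pos (div_pos (by exact_mod_cast hα) (by exact_mod_cast hδ)) τ.im_pos
  let g : ℍ → ℍ := fun τ => ⟨((α : ℂ) * τ + β) / δ, him τ⟩
  have hg : ∀ τ, (g τ : ℂ) * δ = α * τ + β := fun τ => by
    show ((α : ℂ) * τ + β) / δ * δ = _
    field_simp
  have e1 : Rep ψ N Q (fun τ => PsiE ιZ (mP N) (mD N) (jj τ) (jj (g τ)))
      (PsiE ψ (mP N) (mD N) (JC ψ (Q ^ N)) (JC ψ (ψ (eZ β δ hδ) * Q ^ (α ^ 2)))) :=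
    Rep.sum _ fun i _ => ((rep_jj hψ hN hQ0 hQ).poly _).mul
      ((rep_jh hψ hα hδ hαδ hg hQ0 hQ).pow i)
  have e2 : (fun τ => PsiE ιZ (mP N) (mD N) (jj τ) (jj (g τ))) = fun _ => ιZ 0 := by
    funext τ
    rw [map_zero]
    refine h5 τ (g τ) α β 0 δ ?_ ?_
    · rw [← hαδ]; push_cast; ring
    · rw [Int.cast_zero, zero_mul, zero_add]
      have := hg τ
      exact_mod_cast this
  rw [e2] at e1
  have := e1.unique hN hQ0 (Rep.const 0)
  rw [this, map_zero]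

omit hψ [IsUltrametricDist C] [CompleteSpace C] [CharZero C] in
theorem eZ_prim (β : ℤ) {c : ℕ} (hc : 0 < c) (hcop : IsCoprime β (c : ℤ)) :
    IsPrimitiveRoot (eZ β c hc) c := by
  have h1 := Complex.isPrimitiveRoot_exp c hc.ne'
  have h2 := h1.zpow_of_gcd_eq_one β (Int.isCoprime_iff_gcd_eq_one.1 hcop)
  have h3 : Complex.exp (2 * Real.pi * Complex.I / c) ^ β = ιZ (eZ β c hc) := by
    rw [← Complex.exp_int_mul]
    show _ = Complex.exp (2 * Real.pi * Complex.I * β / c)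
    congr 1
    ring
  rw [h3] at h2
  exact IsPrimitiveRoot.of_map_of_injective (f := ιZ) h2 Subtype.val_injective

/-- the Tate relation -/
theorem tate_rel [IsAlgClosed C] {K₀ : Type} [Field K₀] {i₀ : ZZ →+* K₀} {ρ : K₀ →+* ℂ}
    {φ : K₀ →+* C} (hρ : ρ.comp i₀ = ιZ) (hφ : φ.comp i₀ = ψ)
    {τ w : ℍ} {a b c d : ℤ} (hdet : 0 < a * d - b * c) (hw : (w : ℂ) * (c * τ + d) = a * τ + b)
    {X Y : K₀} (hX : ρ X = jj τ) (hY : ρ Y = jj w) (hXn : 1 < ‖φ X‖) :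
    ∃ (A B g : ℕ) (ζ : C), 0 < A ∧ 0 < B ∧ A.Coprime B ∧ 0 < g ∧ IsPrimitiveRoot ζ g ∧
      qT ψ (φ Y) ^ B = ζ * qT ψ (φ X) ^ A ∧ 1 < ‖φ Y‖ ∧
      PsiE ιZ (mP (A * B * g ^ 2)) (mD (A * B * g ^ 2)) (jj τ) (jj w) = 0 := by
  obtain ⟨N, hN⟩ : ∃ N : ℕ, (N : ℤ) = a * d - b * c := ⟨(a * d - b * c).toNat, by omega⟩
  have hN0 : 0 < N := by
    have : (0 : ℤ) < N := by rw [hN]; exact hdet
    exact_mod_cast this
  have hi₀ : Function.Injective i₀ := by
    have : Function.Injective (ρ.comp i₀) := by rw [hρ]; exact Subtype.val_injective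
    exact Function.Injective.of_comp (f := ρ) this
  have hψi : Function.Injective ψ := by
    rw [← hφ]
    exact φ.injective.comp hi₀
  obtain ⟨-, -, -, -, -, -, -, -, -, -, h5⟩ := modular_spec N hN0
  have hrel := h5 τ w a b c d hN.symm hw
  have hrelC : PsiE ψ (mP N) (mD N) (φ X) (φ Y) = 0 := by
    have h1 : ρ (PsiE i₀ (mP N) (mD N) X Y) = 0 := by
      rw [map_PsiE, hρ, hX, hY, hrel]
    have h2 : PsiE i₀ (mP N) (mD N) X Y = 0 := by
      apply ρ.injective; rw [h1, map_zero]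
    have h3 := congrArg φ h2
    rwa [map_PsiE, hφ, map_zero] at h3
  have hq1 := qT_lt hψ hXn
  have hq0 := qT_ne hψ hXn
  obtain ⟨Q, hQ⟩ := IsAlgClosed.exists_pow_nat_eq (qT ψ (φ X)) hN0
  have hQ0 : Q ≠ 0 := by
    rintro rfl
    rw [zero_pow hN0.ne'] at hQ
    exact hq0 hQ.symm
  have hQ1 : ‖Q‖ < 1 := by
    by_contra hcon
    push Not at hcon
    have : 1 ≤ ‖Q ^ N‖ := by rw [norm_pow]; exact one_le_pow₀ hcon
    rw [hQ] at this
    exact absurd hq1 (not_lt.2 this)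
  have hJX : JC ψ (Q ^ N) = φ X := by rw [hQ]; exact JC_qT hψ hXn
  rw [← hJX] at hrelC
  obtain ⟨α, δ, β, hα, hδ, hαδ, hYe⟩ := psi_roots hψ hN0 hQ0 hQ1 hrelC
  -- reduce the matrix
  set h0 := Nat.gcd (Nat.gcd α δ) β.natAbs with hh0
  have hg0 : 0 < Nat.gcd α δ := Nat.gcd_pos_of_pos_left _ hα
  have hh0pos : 0 < h0 := Nat.gcd_pos_of_pos_left _ hg0
  obtain ⟨α', hα'⟩ : h0 ∣ α := (Nat.gcd_dvd_left _ _).trans (Nat.gcd_dvd_left _ _)
  obtain ⟨δ', hδ'⟩ : h0 ∣ δ := (Nat.gcd_dvd_left _ _).trans (Nat.gcd_dvd_right _ _)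
  obtain ⟨β', hβ'⟩ : (h0 : ℤ) ∣ β := Int.natCast_dvd.2 (Nat.gcd_dvd_right _ _)
  have hα'0 : 0 < α' := Nat.pos_of_ne_zero (by rintro rfl; simp at hα'; omega)
  have hδ'0 : 0 < δ' := Nat.pos_of_ne_zero (by rintro rfl; simp at hδ'; omega)
  set cc := Nat.gcd α' δ' with hcc
  have hcc0 : 0 < cc := Nat.gcd_pos_of_pos_left _ hα'0
  obtain ⟨A, hA⟩ : cc ∣ α' := Nat.gcd_dvd_left _ _
  obtain ⟨B, hB⟩ : cc ∣ δ' := Nat.gcd_dvd_right _ _
  have hA0 : 0 < A := Nat.pos_of_ne_zero (by rintro rfl; simp at hA; omega)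
  have hB0 : 0 < B := Nat.pos_of_ne_zero (by rintro rfl; simp at hB; omega)
  have hAB : A.Coprime B := by
    have h1 : cc * Nat.gcd A B = cc := by
      rw [← Nat.gcd_mul_left, ← hA, ← hB]
    have h2 : Nat.gcd A B = 1 := by
      have : cc * Nat.gcd A B = cc * 1 := by rw [h1, mul_one]
      exact Nat.eq_of_mul_eq_mul_left hcc0 this
    exact h2
  have hcop : IsCoprime β' (cc : ℤ) := by
    rw [Int.isCoprime_iff_nat_coprime, Int.natAbs_natCast]
    have h1 : h0 * Nat.gcd cc β'.natAbs = h0 := by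
      rw [← Nat.gcd_mul_left]
      have e1 : h0 * cc = Nat.gcd α δ := by rw [hcc, ← Nat.gcd_mul_left, ← hα', ← hδ']
      have e2 : h0 * β'.natAbs = β.natAbs := by
        rw [hβ', Int.natAbs_mul, Int.natAbs_natCast]
      rw [e1, e2]
    have h2 : Nat.gcd cc β'.natAbs = 1 := by
      have : h0 * Nat.gcd cc β'.natAbs = h0 * 1 := by rw [h1, mul_one]
      exact Nat.eq_of_mul_eq_mul_left hh0pos this
    exact (Nat.coprime_comm.1 h2)
  have heZ : eZ β δ hδ = eZ β' δ' hδ'0 := by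
    apply Subtype.ext
    show Complex.exp (2 * Real.pi * Complex.I * β / δ) =
      Complex.exp (2 * Real.pi * Complex.I * β' / δ')
    congr 1
    have e1 : (β : ℂ) = h0 * β' := by rw [hβ']; push_cast; ring
    have e2 : (δ : ℂ) = h0 * δ' := by rw [hδ']; push_cast; ring
    have e3 : (h0 : ℂ) ≠ 0 := by exact_mod_cast hh0pos.ne'
    have e4 : (δ' : ℂ) ≠ 0 := by exact_mod_cast hδ'0.ne'
    rw [e1, e2]
    field_simp
  have heZB : eZ β' δ' hδ'0 ^ B = eZ β' cc hcc0 := by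
    apply Subtype.ext
    show (Complex.exp (2 * Real.pi * Complex.I * β' / δ')) ^ B =
      Complex.exp (2 * Real.pi * Complex.I * β' / cc)
    rw [← Complex.exp_nat_mul]
    congr 1
    have e2 : (δ' : ℂ) = cc * B := by rw [hB]; push_cast; ring
    have e3 : (cc : ℂ) ≠ 0 := by exact_mod_cast hcc0.ne'
    have e4 : (B : ℂ) ≠ 0 := by exact_mod_cast hB0.ne'
    rw [e2]
    field_simp
  rw [heZ] at hYe
  -- the parameter of `Y`
  have huu : ψ (eZ β' δ' hδ'0) * ψ (eZ (-β') δ' hδ'0) = 1 := by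
    rw [← map_mul, eZ_mul, map_one]
  have hu0 : ψ (eZ β' δ' hδ'0) ≠ 0 := left_ne_zero_of_mul_eq_one huu
  have hα2 : α ^ 2 ≠ 0 := pow_ne_zero _ hα.ne'
  have hz0 : ψ (eZ β' δ' hδ'0) * Q ^ (α ^ 2) ≠ 0 := mul_ne_zero hu0 (pow_ne_zero _ hQ0)
  have hz1 : ‖ψ (eZ β' δ' hδ'0) * Q ^ (α ^ 2)‖ < 1 :=
    (nmul_le (hψ _) le_rfl).trans_lt (by rw [norm_pow]; exact pow_lt_one₀ (norm_nonneg _) hQ1 hα2)
  have hYn : 1 < ‖φ Y‖ := by rw [hYe]; exact JC_norm hψ hz1 hz0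
  have hqY : qT ψ (φ Y) = ψ (eZ β' δ' hδ'0) * Q ^ (α ^ 2) := by
    rw [hYe]; exact qT_JC hψ hz1 hz0
  refine ⟨A, B, cc, ψ (eZ β' cc hcc0), hA0, hB0, hAB, hcc0, ?_, ?_, hYn, ?_⟩
  · exact (eZ_prim β' hcc0 hcop).map_of_injective hψi
  · rw [hqY, mul_pow, ← map_pow, heZB, ← pow_mul, ← hQ, ← pow_mul]
    congr 2
    have : α ^ 2 * B = N * A := by
      rw [← hαδ, hα', hδ', hB, hA]; ring
    exact this
  · have hN' : α' * δ' = A * B * cc ^ 2 := by rw [hA, hB]; ring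
    have hQ'0 : Q ^ (h0 ^ 2) ≠ 0 := pow_ne_zero _ hQ0
    have hQ'1 : ‖Q ^ (h0 ^ 2)‖ < 1 := by
      rw [norm_pow]; exact pow_lt_one₀ (norm_nonneg _) hQ1 (pow_ne_zero _ hh0pos.ne')
    have h7 := psi_of_param hψ β' hα'0 hδ'0 hN' hQ'0 hQ'1
    have e1 : (Q ^ (h0 ^ 2)) ^ (A * B * cc ^ 2) = Q ^ N := by
      rw [← pow_mul, ← hN', ← hαδ]
      congr 1
      rw [hα', hδ']; ring
    have e2 : (Q ^ (h0 ^ 2)) ^ (α' ^ 2) = Q ^ (α ^ 2) := by
      rw [← pow_mul]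
      congr 1
      rw [hα']; ring
    rw [e1, e2, hJX, ← hYe] at h7
    have h8 : φ (PsiE i₀ (mP (A * B * cc ^ 2)) (mD (A * B * cc ^ 2)) X Y) = 0 := by
      rw [map_PsiE, hφ, h7]
    have h9 : PsiE i₀ (mP (A * B * cc ^ 2)) (mD (A * B * cc ^ 2)) X Y = 0 := by
      apply φ.injective; rw [h8, map_zero]
    have h10 := congrArg ρ h9
    rwa [map_PsiE, hρ, map_zero, hX, hY] at h10

end padic

end Pool.Agent.Y226
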