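import Pool.Agent.Y226.ZP.Wild

/-!
# Wild torsion in the presence of an exceptional coordinate
-/

set_option autoImplicit false
set_option linter.unusedSectionVars false

open Polynomial

namespace Pool.Agent.Y226

theorem add_key {M : Type*} [AddCommGroup M] {Λ Yi Yl qi ql η u w pp ζ : M}
    {a b c e f P q μ : ℤ}
    (hd : b • (qi + Λ + Yi) = 0) (hb : b • (Yi - μ • η) = 0) (hc : b • Yl = 0)
    (he : ql + Λ + Yl = 0) (ha : P • (f • η - u) = 0) (hf : P • u - w = 0)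
    (hg : q • w - pp = 0) (hh : Λ + e • pp = 0) (hrel : b • qi = ζ + a • ql)
    (hK : μ * b = f * (P * q) * e * c) (hcc : c = b - a) : ζ + c • Yl = 0 := by
  have hK' : (μ * b) • η = (f * (P * q) * e * c) • η := by rw [hK]
  subst hcc
  linear_combination (norm := module) hd - hb - hrel - a • he + hc - hK' -
    (q * e * (b - a)) • ha - (q * e * (b-a)) • hf - (e * (b - a)) • hg - (b-a) • hh

/-- multiplicative form, modulo a subgroup -/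
theorem mul_key {U : Type*} [CommGroup U] (G : Subgroup U) {Λ Yi Yl qi ql η u w pp ζ : U}
    {a b c e f P q μ : ℤ}
    (hd : (qi * Λ * Yi) ^ b ∈ G) (hb : (Yi * (η ^ μ)⁻¹) ^ b ∈ G) (hc : Yl ^ b ∈ G)
    (he : ql * Λ * Yl ∈ G) (ha : (η ^ f * u⁻¹) ^ P ∈ G) (hf : u ^ P * w⁻¹ ∈ G)
    (hg : w ^ q * pp⁻¹ ∈ G) (hh : Λ * pp ^ e ∈ G) (hrel : qi ^ b = ζ * ql ^ a)
    (hK : μ * b = f * (P * q) * e * c) (hcc : c = b - a) : ζ * Yl ^ c ∈ G := by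
  let φ : U → Additive (U ⧸ G) := fun x => Additive.ofMul (QuotientGroup.mk' G x)
  have hφ1 : ∀ x, x ∈ G ↔ φ x = 0 := fun x => (QuotientGroup.eq_one_iff x).symm
  have hφm : ∀ x y, φ (x * y) = φ x + φ y := fun x y => rfl
  have hφz : ∀ x (z : ℤ), φ (x ^ z) = z • φ x := fun x z => rfl
  have hφi : ∀ x, φ x⁻¹ = -φ x := fun x => rfl
  rw [hφ1] at hd hb hc he ha hf hg hh ⊢
  have hrel' := congrArg φ hrel
  simp only [hφm, hφz, hφi] at hd hb hc he ha hf hg hh hrel' ⊢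
  refine add_key (M := Additive (U ⧸ G)) (b := b) (η := φ η) (u := φ u) (w := φ w)
    hd ?_ hc he ?_ ?_ ?_ hh hrel' hK hcc
  · rw [sub_eq_add_neg]; exact hb
  · rw [sub_eq_add_neg]; exact ha
  · rw [sub_eq_add_neg]; exact hf
  · rw [sub_eq_add_neg]; exact hg

theorem cg1 {U : Type*} [CommGroup U] (a b c u : U) :
    (a * b * c⁻¹)⁻¹ * (a * u⁻¹) * b = c * u⁻¹ := by
  calc (a * b * c⁻¹)⁻¹ * (a * u⁻¹) * b = (a⁻¹ * a) * (b⁻¹ * b) * (c * u⁻¹) := by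
        rw [mul_inv, mul_inv, inv_inv]; ac_rfl
    _ = c * u⁻¹ := by simp

variable {C : Type} [NormedField C] [IsUltrametricDist C]
variable {p : ℕ} [hpf : Fact p.Prime]

/-- closeness gives membership -/
theorem GG_of_close {θ : ℝ} {h0 : 0 ≤ θ} {h1 : θ < 1} {x : Cˣ} {w : C} (hw : w ∈ Nr C p)
    (hw1 : ‖w‖ = 1) (h : ‖(x : C) - w‖ ≤ θ) : x ∈ GG C p θ h0 h1 := ⟨w, hw, hw1, h⟩

theorem eval_GG {f : C[X]} (hf : f ∈ PS (Nr C p)) {t t₀ : C} (ht₀ : t₀ ∈ Nr C p) {θ : ℝ}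
    {h0 : 0 ≤ θ} {h1 : θ < 1} (h : ‖t - t₀‖ ≤ θ) {x : Cˣ} (hx : (x : C) = f.eval t)
    (hu : ‖(x : C)‖ = 1) : x ∈ GG C p θ h0 h1 := by
  have ht : ‖t‖ ≤ 1 := by
    have : t = (t - t₀) + t₀ := by ring
    rw [this]
    exact nadd_le (h.trans h1.le) (Nr_le ht₀)
  have h2 := eval_sub_le (PS_Nr_le hf) ht (Nr_le ht₀) h
  refine GG_of_close (eval_mem hf ht₀) ?_ (by rw [hx]; exact h2)
  refine neq_one (y := (x : C)) ?_ hu
  rw [norm_sub_rev, hx]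
  exact h2.trans_lt h1

/-- if `‖x - w y‖ ≤ θ ‖y‖` then `x / y` is in `GG θ` -/
theorem GG_of_ratio {θ : ℝ} {h0 : 0 ≤ θ} {h1 : θ < 1} {x y : Cˣ} {w : C} (hw : w ∈ Nr C p)
    (hw1 : ‖w‖ = 1) (h : ‖(x : C) - w * y‖ ≤ θ * ‖(y : C)‖) : x * y⁻¹ ∈ GG C p θ h0 h1 := by
  refine GG_of_close hw hw1 ?_
  have e : ((x * y⁻¹ : Cˣ) : C) - w = ((x : C) - w * y) * (y : C)⁻¹ := by
    rw [Units.val_mul, Units.val_inv_eq_inv_val]
    field_simp
  rw [e, norm_mul, norm_inv]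
  have hy : 0 < ‖(y : C)‖ := norm_pos_iff.2 y.ne_zero
  rw [mul_inv_le_iff₀ hy]
  exact h

/-- the contact exponent of a polynomial, in `GG` -/
theorem contact_GG (hp1 : ‖(p : C)‖ < 1) {E : C[X]} (hE : E ∈ PS (Nr C p)) {D : ℕ}
    (hD : E.natDegree ≤ D) {x : C} (hx : ‖x‖ ≤ 1) (hEx : ‖E.eval x‖ = 1) {t t₀ : C}
    (ht₀ : t₀ ∈ Nr C p) {θ : ℝ} {h0 : 0 ≤ θ} {h1 : θ < 1} (h : ‖t - t₀‖ = θ)
    (hpos : 0 < θ) (hθ : ‖(p : C)‖ ≤ θ ^ (D + 1)) {G η : Cˣ} (hG : (G : C) = E.eval t)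
    (hη : (η : C) = t - t₀) :
    ∃ r ≤ D, G * (η ^ r)⁻¹ ∈ GG C p θ h0 h1 ∧ ‖(G : C)‖ = θ ^ r := by
  obtain ⟨r, hrD, w, hw, hw1, hle⟩ := contact hp1 hE hD hx hEx ht₀ (by rw [h]; exact h1)
  rw [h] at hle
  have hmax : max ‖(p : C)‖ (θ ^ (r + 1)) = θ ^ (r + 1) := by
    refine max_eq_right (hθ.trans ?_)
    exact pow_le_pow_of_le_one h0 h1.le (by omega)
  rw [hmax, ← hG, ← hη] at hle
  have hηn : ‖(η : C)‖ = θ := by rw [hη, h]
  have hwn : ‖w * (η : C) ^ r‖ = θ ^ r := by rw [norm_mul, hw1, one_mul, norm_pow, hηn]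
  refine ⟨r, hrD, ?_, ?_⟩
  · refine GG_of_ratio hw hw1 ?_
    rw [Units.val_pow_eq_pow_val, norm_pow, hηn, ← pow_succ']
    exact hle
  · rw [← hwn]
    refine neq_of_sub_lt (hle.trans_lt ?_)
    rw [hwn, pow_succ]
    have := pow_pos hpos r
    nlinarith

namespace PData

variable {n d : ℕ} (𝒟 : PData C p n d)

theorem wild_exc (hpD : 16 * (d + 1) ^ 4 < p) (hp0 : 0 < ‖(p : C)‖) (hp1 : ‖(p : C)‖ < 1)
    {t t₀ : C} (ht : ‖t‖ ≤ 1) (ht₀ : t₀ ∈ Nr C p) (h : ‖t - t₀‖ < 1) {Y : Fin n → Cˣ}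
    {i j k l : Fin n}
    (hj : 𝒟.Val t Y j) (hk : 𝒟.Val t Y k) (hl : 𝒟.Val t Y l) (hjk : j ≠ k)
    (hi : ¬ 𝒟.Good t i) {Ai Bi : Cˣ} (hAi : (Ai : C) = (𝒟.A i).eval t)
    (hBi : (Bi : C) = (𝒟.B i).eval t)
    {Λ : Cˣ} {e : ℕ} (he : 0 < e) {pu : Cˣ} (hpu : (pu : C) = p)
    (hΛ : Λ * pu ^ (e : ℤ) ∈ GG C p 0 le_rfl one_pos)
    {qi ql : Cˣ}
    (hqi : ‖((qi * Λ * (Ai * Bi⁻¹) : Cˣ) : C) - 1‖ ≤ ‖((Λ * (Ai * Bi⁻¹) : Cˣ) : C)‖⁻¹)
    (hql : ‖((ql * Λ * Y l : Cˣ) : C) - 1‖ ≤ ‖((Λ * Y l : Cˣ) : C)‖⁻¹)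
    (hxi : 1 < ‖((Λ * (Ai * Bi⁻¹) : Cˣ) : C)‖)
    {a b : ℕ} (hab : a.Coprime b) (hb0 : 0 < b) {ζ : Cˣ} {g : ℕ} (hg : 0 < g)
    (hζ : ζ ^ g = 1) (hrel : qi ^ b = ζ * ql ^ a)
    {ε₁ : Cˣ} {s : ℕ} (hε₁ : IsPrimitiveRoot (ε₁ : C) (p ^ (s + 1)))
    (hG₁ : Y k * (Y j)⁻¹ * ε₁ ∈ GG C p ‖(p : C)‖ (norm_nonneg _) hp1) : s ≤ 1 := by
  by_contra hs
  push Not at hs
  -- numerics
  have hd1 : (d + 1) ^ 2 ≤ (d + 1) ^ 4 := Nat.pow_le_pow_right (Nat.succ_pos d) (by norm_num)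
  have hd2 : 2 * d + 2 < p := by nlinarith
  have hp2 : p ≠ 2 := by
    rintro rfl
    have : 1 ≤ (d + 1) ^ 4 := Nat.one_le_pow _ _ (Nat.succ_pos d)
    omega
  have hp3 : 3 ≤ p := by have := hpf.out.two_le; omega
  set P := p ^ s with hPdef
  have hP1 : 1 ≤ P := Nat.one_le_pow _ _ hpf.out.pos
  have hPp : p ≤ P := by
    calc p = p ^ 1 := (pow_one p).symm
      _ ≤ p ^ s := Nat.pow_le_pow_right hpf.out.pos (by omega)
  set φ := P * (p - 1) with hφ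
  have hφP : 2 * P ≤ φ := by rw [mul_comm 2 P]; exact Nat.mul_le_mul_left _ (by omega)
  -- the distance
  have hge := 𝒟.dist_ge hp2 hp0 hp1 ht₀ h hj hk hε₁ hG₁
  have hρφ : ‖(ε₁ : C) - 1‖ ^ φ = ‖(p : C)‖ := ppow_root_norm hp2 hp1 hε₁
  have hρ0 : 0 < ‖(ε₁ : C) - 1‖ := root_pos hp2 hp1 hp0 hε₁
  have hρ1 : ‖(ε₁ : C) - 1‖ < 1 := ppow_root_lt hp1 hε₁.pow_eq_one
  set ρ := ‖(ε₁ : C) - 1‖ with hρ
  set θ := ‖t - t₀‖ with hθ
  have hθ0 : 0 < θ := hρ0.trans_le hge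
  have hpow_le : ∀ N : ℕ, N ≤ φ → ‖(p : C)‖ ≤ θ ^ N := by
    intro N hN
    calc ‖(p : C)‖ = ρ ^ φ := hρφ.symm
      _ ≤ ρ ^ N := pow_le_pow_of_le_one hρ0.le hρ1.le hN
      _ ≤ θ ^ N := pow_le_pow_left₀ hρ0.le hge N
  have hη0 : t - t₀ ≠ 0 := norm_pos_iff.1 hθ0
  set η : Cˣ := Units.mk0 (t - t₀) hη0 with hη
  have hηn : ‖(η : C)‖ = θ := rfl
  have hεne : (ε₁ : C) - 1 ≠ 0 := norm_pos_iff.1 hρ0
  set u : Cˣ := Units.mk0 ((ε₁ : C) - 1) hεne with hu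
  have hun : ‖(u : C)‖ = ρ := rfl
  -- Step 1 : contact for the pair polynomial
  have hstep1 : ∃ f : ℕ, f ≤ 2 * d ∧ η ^ f * u⁻¹ ∈ GG C p θ hθ0.le h ∧ θ ^ f = ρ := by
    obtain ⟨w₀, hw₀, hw₀1, hw₀l⟩ := hG₁
    set v := ee j k with hv
    have hv0 : v ≠ 0 := by
      intro h0
      have := congrFun h0 k
      simp [hv, ee, hjk.symm] at this
    obtain ⟨x, hx, hEx⟩ := 𝒟.exists_eval hv0 hw₀1
    have hY : ∀ i, v i ≠ 0 → 𝒟.Val t Y i := by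
      intro i' hi'
      by_cases h1 : i' = j
      · rw [h1]; exact hj
      by_cases h2 : i' = k
      · rw [h2]; exact hk
      exact absurd (by simp [hv, ee, h1, h2]) hi'
    have hNu : ‖(𝒟.Num (-v)).eval t‖ = 1 :=
      𝒟.num_unit fun i' hi' => (hY i' (by simpa using hi')).1
    have hNne : (𝒟.Num (-v)).eval t ≠ 0 := norm_pos_iff.1 (by rw [hNu]; exact one_pos)
    set F := Y k * (Y j)⁻¹ with hF
    have hEt : (𝒟.Num v - Polynomial.C w₀ * 𝒟.Num (-v)).eval t =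
        ((F : C) - w₀) * (𝒟.Num (-v)).eval t := by
      rw [eval_sub, eval_mul, eval_C, 𝒟.num_eq hY, ← sub_mul, hv, prod_ee]
    have hεn : ‖(ε₁ : C)‖ = 1 := neq_one hρ1 norm_one
    have hεi : ‖(ε₁ : C)⁻¹‖ = 1 := by rw [norm_inv, hεn, inv_one]
    have hε0 : (ε₁ : C) ≠ 0 := ε₁.ne_zero
    -- the difference `F - w₀`
    have hFw : ‖((F : C) - w₀) - (-w₀) * u‖ ≤ θ * ρ := by
      have e1 : ((F : C) - w₀) - (-w₀) * u =
          (((F * ε₁ : Cˣ) : C) - w₀) * (ε₁ : C)⁻¹ + w₀ * (ε₁ : C)⁻¹ * (((ε₁ : C) - 1) * ((ε₁ : C) - 1)) := by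
        have hu' : (u : C) = (ε₁ : C) - 1 := rfl
        have hFε : ((F * ε₁ : Cˣ) : C) = F * ε₁ := Units.val_mul F ε₁
        have hinv : (ε₁ : C) * (ε₁ : C)⁻¹ = 1 := mul_inv_cancel₀ hε0
        rw [hu', hFε]
        linear_combination (-(F : C) + w₀ - w₀ * ε₁ + w₀) * hinv
      rw [e1]
      refine nadd_le ?_ ?_
      · refine (nmul_le' hw₀l hεi.le).trans ?_
        calc ‖(p : C)‖ = ρ ^ φ := hρφ.symm
          _ ≤ ρ ^ 2 := pow_le_pow_of_le_one hρ0.le hρ1.le (by omega)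
          _ = ρ * ρ := sq ρ
          _ ≤ θ * ρ := by gcongr
      · rw [norm_mul, norm_mul, norm_mul, hw₀1, hεi, one_mul, one_mul]
        gcongr
    have hFn : ‖(F : C) - w₀‖ = ρ := by
      have h1 : ‖(-w₀) * (u : C)‖ = ρ := by rw [norm_mul, norm_neg, hw₀1, one_mul]; exact hun
      rw [← h1]
      refine neq_of_sub_lt (hFw.trans_lt ?_)
      rw [h1]
      nlinarith
    have hFne : (F : C) - w₀ ≠ 0 := norm_pos_iff.1 (by rw [hFn]; exact hρ0)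
    set Fu : Cˣ := Units.mk0 _ hFne
    set Nu : Cˣ := Units.mk0 _ hNne
    have hFG : Fu * u⁻¹ ∈ GG C p θ hθ0.le h :=
      GG_of_ratio (neg_mem hw₀) (by rw [norm_neg, hw₀1]) hFw
    have hNG : Nu ∈ GG C p θ hθ0.le h := eval_GG (𝒟.Num_mem _) ht₀ le_rfl rfl hNu
    have hdeg : (𝒟.Num v - Polynomial.C w₀ * 𝒟.Num (-v)).natDegree ≤ 2 * d := by
      have hs2 := sum_ee j k
      have h2d : d * ∑ i, (v i).natAbs ≤ 2 * d := by
        rw [mul_comm 2 d]; exact Nat.mul_le_mul_left _ hs2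
      refine (natDegree_sub_le _ _).trans (max_le ((𝒟.Num_natDegree v).trans h2d) ?_)
      refine (natDegree_C_mul_le _ _).trans ((𝒟.Num_natDegree _).trans ?_)
      simpa using h2d
    obtain ⟨f, hf, hfG, hfn⟩ := contact_GG hp1
      (sub_mem (𝒟.Num_mem v) (mul_mem (C_mem_PS hw₀) (𝒟.Num_mem _))) hdeg hx hEx ht₀
      (h0 := hθ0.le) (h1 := h) rfl hθ0 (hpow_le _ (by omega)) (G := Fu * Nu) (η := η)
      (by rw [hEt]; rfl) rfl
    refine ⟨f, hf, ?_, ?_⟩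
    · rw [← cg1 Fu Nu (η ^ f) u]
      exact mul_mem (mul_mem (inv_mem hfG) hFG) hNG
    · rw [← hfn, Units.val_mul, norm_mul, show ‖(Nu : C)‖ = 1 from hNu, mul_one]
      exact hFn
  obtain ⟨f, hf2d, hK1, hfρ⟩ := hstep1
  have hf0 : f ≠ 0 := by
    rintro rfl
    rw [pow_zero] at hfρ
    rw [← hfρ] at hρ1
    exact lt_irrefl _ hρ1
  -- Step 2 : contact for the exceptional coordinate
  have hstep2 : ∃ μ : ℤ, μ ≠ 0 ∧ μ.natAbs ≤ d ∧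
      Ai * Bi⁻¹ * (η ^ μ)⁻¹ ∈ GG C p θ hθ0.le h ∧ ‖((Ai * Bi⁻¹ : Cˣ) : C)‖ = θ ^ μ := by
    obtain ⟨x, hx, hlt⟩ := 𝒟.g3 j
    have hbad : ¬ 𝒟.Good x j := by
      rw [good_iff 𝒟 hx]; exact hlt.ne
    have hij : i ≠ j := by
      rintro rfl
      exact hi hj.1
    have hgi := 𝒟.good_of_ne hx hbad hij
    rcases 𝒟.g2 t ht i with h3 | h3
    · -- `A_i(t)` is a unit, `B_i(t)` is small
      obtain ⟨r, hr, hrG, hrn⟩ := contact_GG hp1 (𝒟.hB i) (𝒟.dB i) hx hgi.2 ht₀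
        (h0 := hθ0.le) (h1 := h) rfl hθ0 (hpow_le _ (by omega)) (η := η) hBi rfl
      have hBlt : ‖(Bi : C)‖ < 1 := by
        rw [hBi]
        exact lt_of_le_of_ne (𝒟.Bn i ht) fun h => hi ⟨h3, h⟩
      have hr0 : r ≠ 0 := by
        rintro rfl
        rw [hrn, pow_zero] at hBlt
        exact lt_irrefl _ hBlt
      have hAG : Ai ∈ GG C p θ hθ0.le h := eval_GG (𝒟.hA i) ht₀ le_rfl hAi (by rw [hAi]; exact h3)
      refine ⟨-(r : ℤ), by omega, by omega, ?_, ?_⟩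
      · have e2 : Ai * Bi⁻¹ * (η ^ (-(r : ℤ)))⁻¹ = Ai * (Bi * (η ^ r)⁻¹)⁻¹ := by
          rw [zpow_neg, zpow_natCast, inv_inv, mul_inv, inv_inv, mul_assoc]
        rw [e2]
        exact mul_mem hAG (inv_mem hrG)
      · rw [Units.val_mul, Units.val_inv_eq_inv_val, norm_mul, norm_inv, hrn, hAi, h3, one_mul,
          zpow_neg, zpow_natCast]
    · obtain ⟨r, hr, hrG, hrn⟩ := contact_GG hp1 (𝒟.hA i) (𝒟.dA i) hx hgi.1 ht₀
        (h0 := hθ0.le) (h1 := h) rfl hθ0 (hpow_le _ (by omega)) (η := η) hAi rfl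
      have hAlt : ‖(Ai : C)‖ < 1 := by
        rw [hAi]
        exact lt_of_le_of_ne (𝒟.An i ht) fun h => hi ⟨h, h3⟩
      have hr0 : r ≠ 0 := by
        rintro rfl
        rw [hrn, pow_zero] at hAlt
        exact lt_irrefl _ hAlt
      have hBG : Bi ∈ GG C p θ hθ0.le h := eval_GG (𝒟.hB i) ht₀ le_rfl hBi (by rw [hBi]; exact h3)
      refine ⟨(r : ℤ), by omega, by omega, ?_, ?_⟩
      · have e2 : Ai * Bi⁻¹ * (η ^ (r : ℤ))⁻¹ = (Ai * (η ^ r)⁻¹) * Bi⁻¹ := by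
          rw [zpow_natCast]; ac_rfl
        rw [e2]
        exact mul_mem hrG (inv_mem hBG)
      · rw [Units.val_mul, Units.val_inv_eq_inv_val, norm_mul, norm_inv, hrn, hBi, h3, inv_one,
          mul_one, zpow_natCast]
  obtain ⟨μ, hμ0, hμd, hK2, hμn⟩ := hstep2
  set Yi := Ai * Bi⁻¹ with hYi
  -- Step 3 : exponents
  have hYln : ‖((Y l : Cˣ) : C)‖ = 1 :=
    GG_norm (𝒟.val_GG ht₀ (h0 := hθ0.le) (h1 := h) le_rfl hl)
  have hΛn : ‖(Λ : C)‖ = ‖(p : C)‖⁻¹ ^ e := by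
    have h1 := GG_norm hΛ
    rw [Units.val_mul, norm_mul, Units.val_zpow_eq_zpow_val, norm_zpow, hpu, zpow_natCast] at h1
    rw [inv_pow]
    exact eq_inv_of_mul_eq_one_left h1
  have hϖθ : ‖(p : C)‖ = θ ^ (f * φ) := by rw [pow_mul, hfρ, hρφ]
  have hxln : ‖((Λ * Y l : Cˣ) : C)‖ = ‖(p : C)‖⁻¹ ^ e := by
    rw [Units.val_mul, norm_mul, hYln, mul_one, hΛn]
  have hqin : ‖(qi : C)‖ = ‖((Λ * Yi : Cˣ) : C)‖⁻¹ := by
    have h1 : ‖((qi * Λ * Yi : Cˣ) : C)‖ = 1 := neq_one (hqi.trans_lt (inv_lt_one_of_one_lt₀ hxi)) norm_one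
    rw [mul_assoc, Units.val_mul, norm_mul] at h1
    exact eq_inv_of_mul_eq_one_left h1
  have hpinv : ‖((Λ * Y l : Cˣ) : C)‖⁻¹ = ‖(p : C)‖ ^ e := by
    rw [hxln, inv_pow, inv_inv]
  have hpe : ‖(p : C)‖ ^ e ≤ ‖(p : C)‖ := pow_le_of_le_one (norm_nonneg _) hp1.le he.ne'
  have hqln : ‖(ql : C)‖ = ‖(p : C)‖ ^ e := by
    have h1 : ‖((ql * Λ * Y l : Cˣ) : C)‖ = 1 := by
      refine neq_one (hql.trans_lt ?_) norm_one
      rw [hpinv]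
      exact hpe.trans_lt hp1
    rw [mul_assoc, Units.val_mul, norm_mul] at h1
    rw [← hpinv]
    exact eq_inv_of_mul_eq_one_left h1
  have hζn : ‖(ζ : C)‖ = 1 := by
    have h1 : ‖(ζ : C)‖ ^ g = 1 := by
      rw [← norm_pow, ← Units.val_pow_eq_pow_val, hζ, Units.val_one, norm_one]
    exact (pow_eq_one_iff_of_nonneg (norm_nonneg _) hg.ne').1 h1
  set c : ℤ := (b : ℤ) - a with hc
  have hK3 : μ * b = (f : ℤ) * (P * ((p - 1 : ℕ) : ℤ)) * e * c := by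
    have h1 : ‖(qi : C)‖ ^ b = ‖(ql : C)‖ ^ a := by
      have := congrArg (fun x : Cˣ => ‖(x : C)‖) hrel
      simpa [hζn] using this
    rw [hqin, hqln, Units.val_mul, norm_mul, hΛn, hμn, hϖθ] at h1
    have hθne : θ ≠ 0 := hθ0.ne'
    have h2 : θ ^ (-(μ * b)) * θ ^ (((f * φ : ℕ) : ℤ) * e * b) = θ ^ (((f * φ : ℕ) : ℤ) * e * a) := by
      have e1 : ((θ ^ (f * φ))⁻¹ ^ e * θ ^ μ)⁻¹ ^ b = (θ ^ μ)⁻¹ ^ b * θ ^ (f * φ * e * b) := by
        rw [mul_inv, inv_pow, inv_inv, mul_pow, ← pow_mul, ← pow_mul, mul_comm, ← mul_assoc]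
      have e2 : (θ ^ μ)⁻¹ ^ b = θ ^ (-(μ * b)) := by
        rw [← zpow_neg, ← zpow_natCast, ← zpow_mul, neg_mul]
      have e3 : ((θ ^ (f * φ)) ^ e) ^ a = θ ^ (f * φ * e * a) := by
        rw [← pow_mul, ← pow_mul, ← mul_assoc]
      rw [e1, e2, e3, ← zpow_natCast, ← zpow_natCast] at h1
      push_cast at h1 ⊢
      exact h1
    rw [← zpow_add₀ hθne] at h2
    have h3 := zpow_right_injective₀ hθ0 h.ne h2
    rw [hφ] at h3
    push_cast at h3 ⊢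
    rw [hc]
    linear_combination -h3
  have hc0 : c ≠ 0 := by
    intro h0
    rw [h0, mul_zero] at hK3
    rcases mul_eq_zero.1 hK3 with h1 | h1
    · exact hμ0 h1
    · exact hb0.ne' (by exact_mod_cast h1)
  have hcb : IsCoprime c (b : ℤ) := by
    have h1 : IsCoprime (a : ℤ) (b : ℤ) := Nat.isCoprime_iff_coprime.2 hab
    obtain ⟨x, y, hxy⟩ := h1
    exact ⟨-x, x + y, by rw [hc]; linear_combination hxy⟩
  have hcμ : c ∣ μ := by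
    have h1 : c ∣ μ * b := ⟨(f : ℤ) * (P * ((p - 1 : ℕ) : ℤ)) * e, by rw [hK3]; ring⟩
    exact hcb.dvd_of_dvd_mul_right h1
  have hcd : c.natAbs ≤ d :=
    (Nat.le_of_dvd (Int.natAbs_pos.2 hμ0) (Int.natAbs_dvd_natAbs.2 hcμ)).trans hμd
  have hPb : P ∣ b := by
    have h1 : (P : ℤ) ∣ μ * b := ⟨(f : ℤ) * (((p - 1 : ℕ) : ℤ)) * e * c, by rw [hK3]; ring⟩
    have h2 : IsCoprime (P : ℤ) μ := by
      rw [hPdef]
      push_cast
      refine IsCoprime.pow_left ?_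
      rw [Int.isCoprime_iff_nat_coprime, Int.natAbs_natCast, Nat.Prime.coprime_iff_not_dvd hpf.out]
      intro h3
      have := Nat.le_of_dvd (Int.natAbs_pos.2 hμ0) h3
      omega
    exact_mod_cast h2.dvd_of_dvd_mul_left h1
  obtain ⟨b', hb'⟩ := hPb
  -- Step 4 : the group `GG τ`
  set τ := θ ^ P with hτ
  have hτ0 : 0 < τ := pow_pos hθ0 P
  have hτ1 : τ < 1 := pow_lt_one₀ hθ0.le h (by omega)
  have hτθ : τ ≤ θ := pow_le_of_le_one hθ0.le h.le (by omega)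
  have hpτ : ‖(p : C)‖ ≤ τ := hpow_le _ (by omega)
  have hpowP : ∀ x : Cˣ, x ∈ GG C p θ hθ0.le h → x ^ P ∈ GG C p τ hτ0.le hτ1 := by
    intro x hx
    refine GG_pow_pow hθ0 s le_rfl (fun i' hi' => hpow_le _ ?_) hx
    exact Nat.mul_le_mul_right _ (Nat.pow_le_pow_right hpf.out.pos hi'.le)
  have hpowb : ∀ x : Cˣ, x ∈ GG C p θ hθ0.le h → x ^ (b : ℤ) ∈ GG C p τ hτ0.le hτ1 := by
    intro x hx
    rw [zpow_natCast, hb', pow_mul]
    exact pow_mem (hpowP x hx) _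
  have hYlG : Y l ∈ GG C p θ hθ0.le h := 𝒟.val_GG ht₀ le_rfl hl
  have hfinal : ζ * Y l ^ c ∈ GG C p τ hτ0.le hτ1 := by
    set ω : C := (ε₁ : C) ^ P with hω
    have hωp : ω ^ p = 1 := by rw [hω, ← pow_mul, hPdef, ← pow_succ]; exact hε₁.pow_eq_one
    have hωne : ω ≠ 1 :=
      hε₁.pow_ne_one_of_pos_of_lt (pow_pos hpf.out.pos s).ne'
        (Nat.pow_lt_pow_right hpf.out.one_lt (Nat.lt_succ_self s))
    have hω0 : ω - 1 ≠ 0 := sub_ne_zero.2 hωne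
    have hωn : ‖ω - 1‖ = ρ ^ P := (ppow_root_norm_aux hp2 hp1 hε₁).symm
    set W : Cˣ := Units.mk0 (ω - 1) hω0 with hW
    refine mul_key (GG C p τ hτ0.le hτ1) (Λ := Λ) (Yi := Yi) (qi := qi) (ql := ql) (η := η)
      (u := u) (w := W) (pp := pu) (a := a) (b := b) (e := e) (f := f) (P := P)
      (q := ((p - 1 : ℕ) : ℤ)) (μ := μ) ?_ ?_ (hpowb _ hYlG) ?_ ?_ ?_ ?_ ?_ ?_ hK3 hc
    · apply hpowb
      refine GG_of_close (one_mem _) norm_one (hqi.trans ?_)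
      rw [Units.val_mul, norm_mul, hΛn, hμn, mul_inv, inv_pow, inv_inv, ← zpow_neg]
      have h1 : θ ^ (-μ) ≤ (θ ^ d)⁻¹ := by
        rw [← zpow_natCast, ← zpow_neg]
        exact zpow_le_zpow_right_of_le_one₀ hθ0 h.le (by omega)
      have h2 := hpow_le (d + 1) (by omega)
      have h3 : 0 < θ ^ d := pow_pos hθ0 d
      calc ‖(p : C)‖ ^ e * θ ^ (-μ) ≤ θ ^ (d + 1) * (θ ^ d)⁻¹ := by
            gcongr
            exact hpe.trans h2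
        _ = θ := by rw [pow_succ]; field_simp
    · exact hpowb _ hK2
    · refine GG_of_close (one_mem _) norm_one (hql.trans ?_)
      rw [hpinv]
      exact hpe.trans hpτ
    · rw [zpow_natCast, zpow_natCast]
      exact hpowP _ hK1
    · refine GG_of_ratio (one_mem _) norm_one ?_
      rw [one_mul, zpow_natCast, Units.val_pow_eq_pow_val]
      show ‖((ε₁ : C) - 1) ^ P - (ω - 1)‖ ≤ τ * ‖ω - 1‖
      refine (ppow_root_sub hp1 hε₁.pow_eq_one).trans ?_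
      rw [hωn]
      calc ‖(p : C)‖ = ρ ^ φ := hρφ.symm
        _ ≤ ρ ^ (2 * P) := pow_le_pow_of_le_one hρ0.le hρ1.le hφP
        _ = ρ ^ P * ρ ^ P := by rw [two_mul, pow_add]
        _ ≤ τ * ρ ^ P := by
            gcongr
            exact pow_le_pow_left₀ hρ0.le hge P
    · obtain ⟨r, hr, hre⟩ := root_p_eq hp1 hωp hωne
      refine GG_of_ratio (w := -1) (neg_mem (one_mem _)) (by rw [norm_neg, norm_one]) ?_
      rw [zpow_natCast, Units.val_pow_eq_pow_val, hpu]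
      have e1 : (W : C) ^ (p - 1) - -1 * p = -((ω - 1) * r) * p := by
        have : (W : C) = ω - 1 := rfl
        rw [this, hre]; ring
      rw [e1, norm_mul, norm_neg]
      gcongr
      refine (nmul_le' le_rfl hr).trans ?_
      rw [hωn]
      exact pow_le_pow_left₀ hρ0.le hge P
    · exact GG_mono hτ0.le hΛ
    · rw [zpow_natCast, zpow_natCast]
      exact hrel
  -- Step 5 : the `p`-part of `ζ`
  obtain ⟨g', s₃, ζ', ε₃, -, hg', hζ', hε₃, hζe⟩ := root_decomp (p := p) (ζ := (ζ : C))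
    (orderOf_pos_iff.2 (isOfFinOrder_iff_pow_eq_one.2 ⟨g, hg, hζ⟩)) (by
      rw [← orderOf_units]
      exact IsPrimitiveRoot.orderOf _)
  have hg'0 : g' ≠ 0 := by
    rintro rfl
    exact hpf.out.one_lt.ne' ((Nat.coprime_zero_left p).1 hg')
  have hζ'0 : ζ' ≠ 0 := hζ'.ne_zero hg'0
  have hε₃0 : ε₃ ≠ 0 := hε₃.ne_zero (pow_pos hpf.out.pos _).ne'
  set Z : Cˣ := Units.mk0 ζ' hζ'0
  set T : Cˣ := Units.mk0 ε₃ hε₃0
  have hζT : ζ = Z * T := Units.ext hζe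
  have hZG : Z ∈ GG C p τ hτ0.le hτ1 := by
    obtain ⟨f', hf', hff⟩ := fixed_of_pow_eq_one hg' hζ'.pow_eq_one
    refine GG_of_close (w := ζ') (Nr_of_fixed hf' hff) ?_ ?_
    · have h1 : ‖ζ'‖ ^ g' = 1 := by rw [← norm_pow, hζ'.pow_eq_one, norm_one]
      exact (pow_eq_one_iff_of_nonneg (norm_nonneg _) hg'0).1 h1
    · show ‖ζ' - ζ'‖ ≤ τ
      simpa using hτ0.le
  have hTG : T * Y l ^ c ∈ GG C p τ hτ0.le hτ1 := by
    have e1 : T * Y l ^ c = Z⁻¹ * (ζ * Y l ^ c) := by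
      rw [hζT]
      group
    rw [e1]
    exact mul_mem (inv_mem hZG) hfinal
  have hTθ : T ∈ GG C p θ hθ0.le h := by
    have e1 : T = (T * Y l ^ c) * (Y l ^ c)⁻¹ := by group
    rw [e1]
    exact mul_mem (GG_mono hτθ hTG) (inv_mem (zpow_mem hYlG _))
  have hTpow : (T : C) ^ p ^ s₃ = 1 := hε₃.pow_eq_one
  have hpθ : ‖(p : C)‖ ≤ θ := by
    have := hpow_le 1 (by omega)
    rwa [pow_one] at this
  have hTn : ‖(T : C) - 1‖ ≤ θ := ppow_GG hp1 hTpow hpθ hTθ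
  have hs₃ : s₃ ≤ s + 1 := by
    by_contra hcon
    push Not at hcon
    obtain ⟨s', rfl⟩ : ∃ s', s₃ = s' + 1 := ⟨s₃ - 1, by omega⟩
    have h1 : ‖ε₃ - 1‖ ^ (p ^ s' * (p - 1)) = ‖(p : C)‖ := ppow_root_norm hp2 hp1 hε₃
    have h2 : θ ^ (f * φ) ≤ θ ^ (p ^ s' * (p - 1)) := by
      rw [← hϖθ, ← h1]
      exact pow_le_pow_left₀ (norm_nonneg _) hTn _
    have h3 : p ^ s' * (p - 1) ≤ f * φ := by
      by_contra h4
      push Not at h4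
      exact absurd h2 (not_le.2 (pow_lt_pow_right_of_lt_one₀ hθ0 h h4))
    have h4 : p * φ ≤ p ^ s' * (p - 1) := by
      rw [hφ, ← mul_assoc]
      refine Nat.mul_le_mul_right _ ?_
      rw [hPdef, ← pow_succ']
      exact Nat.pow_le_pow_right hpf.out.pos (by omega)
    have h5 : p * φ ≤ f * φ := h4.trans h3
    have h6 : p ≤ f := Nat.le_of_mul_le_mul_right h5 (by omega)
    omega
  have hTpow' : (T : C) ^ p ^ (s + 1) = 1 := by
    obtain ⟨x, hx⟩ := Nat.pow_dvd_pow p hs₃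
    rw [hx, pow_mul, hTpow, one_pow]
  -- Step 6 : Thue
  obtain ⟨γ, -, hγ⟩ := hε₁.eq_pow_of_pow_eq_one hTpow'
  have hγ' : ε₁ ^ γ = T := Units.ext (by rw [Units.val_pow_eq_pow_val]; exact hγ)
  obtain ⟨n₁, n₂, hnn, hn₁, hn₂, hdvd⟩ := thue (p ^ (s + 1)) (pow_pos hpf.out.pos _) (γ : ℤ)
  set el : Fin n → ℤ := fun i' => if i' = l then c else 0 with hel
  set v : Fin n → ℤ := fun i' => n₁ * ee j k i' + n₂ * el i' with hv
  have hv0 : v ≠ 0 := by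
    intro h0
    apply hnn
    have hval : ∀ i', n₁ * ee j k i' + n₂ * el i' = 0 := fun i' => congrFun h0 i'
    by_cases hkl : k = l
    · have h1 := hval j
      have hjl : j ≠ l := fun h => hjk (h.trans hkl.symm)
      have hn1 : n₁ = 0 := by simpa [ee, hel, hjl, hjk] using h1
      have h2 := hval l
      have hn2 : n₂ = 0 := by
        simpa [hn1, hel, hc0] using h2
      rw [hn1, hn2]
    · have h1 := hval k
      have hn1 : n₁ = 0 := by simpa [ee, hel, hkl, hjk.symm] using h1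
      have h2 := hval l
      have hn2 : n₂ = 0 := by
        simpa [hn1, hel, hc0] using h2
      rw [hn1, hn2]
  have hprodl : ∏ i', Y i' ^ el i' = Y l ^ c := by
    rw [Finset.prod_eq_single l]
    · simp [hel]
    · intro i' _ hi'; simp [hel, hi']
    · intro h; exact absurd (Finset.mem_univ l) h
  have hprod : ∏ i', Y i' ^ v i' = (Y k * (Y j)⁻¹) ^ n₁ * (Y l ^ c) ^ n₂ := by
    rw [hv, prod_comb, prod_ee, hprodl]
  have hone : ε₁ ^ n₁ * T ^ n₂ = 1 := by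
    rw [← hγ', ← zpow_natCast, ← zpow_mul, ← zpow_add]
    obtain ⟨c', hc'⟩ := hdvd
    rw [hc', zpow_mul, zpow_natCast]
    have : ε₁ ^ p ^ (s + 1) = 1 := Units.ext (by
      rw [Units.val_pow_eq_pow_val]; exact hε₁.pow_eq_one)
    rw [this, one_zpow]
  have hG : (∏ i', Y i' ^ v i') ∈ GG C p τ hτ0.le hτ1 := by
    have e : (∏ i', Y i' ^ v i') = (Y k * (Y j)⁻¹ * ε₁) ^ n₁ * (T * Y l ^ c) ^ n₂ := by
      rw [mul_zpow _ ε₁, mul_zpow T, mul_mul_mul_comm, hprod]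
      have : ε₁ ^ n₁ * (Y l ^ c) ^ n₂ = ε₁ ^ n₁ * (Y l ^ c) ^ n₂ := rfl
      calc (Y k * (Y j)⁻¹) ^ n₁ * (Y l ^ c) ^ n₂
          = (Y k * (Y j)⁻¹) ^ n₁ * (Y l ^ c) ^ n₂ * (ε₁ ^ n₁ * T ^ n₂) := by rw [hone, mul_one]
        _ = (Y k * (Y j)⁻¹) ^ n₁ * T ^ n₂ * (ε₁ ^ n₁ * (Y l ^ c) ^ n₂) := by ac_rfl
    rw [e]
    exact mul_mem (zpow_mem (GG_mono hpτ hG₁) _) (zpow_mem hTG _)
  have hY : ∀ i', v i' ≠ 0 → 𝒟.Val t Y i' := by
    intro i' hi'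
    by_cases h1 : i' = j
    · rw [h1]; exact hj
    by_cases h2 : i' = k
    · rw [h2]; exact hk
    by_cases h3 : i' = l
    · rw [h3]; exact hl
    exact absurd (by simp [hv, ee, hel, h1, h2, h3]) hi'
  have hsuml : ∑ i', (el i').natAbs ≤ d := by
    have h1 : ∀ i' ∈ Finset.univ, i' ≠ l → (el i').natAbs = 0 := by
      intro i' _ hi'; simp [hel, hi']
    rw [Finset.sum_eq_single l h1]
    · simpa [hel] using hcd
    · intro h; exact absurd (Finset.mem_univ l) h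
  have hsum : d * ∑ i', (v i').natAbs ≤ d * (2 * n₁.natAbs + d * n₂.natAbs) := by
    refine Nat.mul_le_mul_left _ ((sum_comb _ _ _ _).trans ?_)
    have h1 := sum_ee j k
    calc _ ≤ n₁.natAbs * 2 + n₂.natAbs * d :=
          Nat.add_le_add (Nat.mul_le_mul_left _ h1) (Nat.mul_le_mul_left _ hsuml)
      _ = _ := by ring
  have hbd := 𝒟.monomial_bound hp1 hv0 ht₀ h hY hpτ hτ0 hG hsum
  have hle : P ≤ d * (2 * n₁.natAbs + d * n₂.natAbs) := by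
    by_contra h4
    push Not at h4
    exact absurd hbd (not_le.2 (pow_lt_pow_right_of_lt_one₀ hθ0 h h4))
  -- numerical contradiction
  have hM : p ^ (s + 1) = P * p := by rw [pow_succ]
  rw [hM] at hn₁ hn₂
  set a₁ := n₁.natAbs
  set b₁ := n₂.natAbs
  have h1 : P ^ 2 ≤ (d + 1) ^ 4 * (P * p) := by
    have h2 : P ^ 2 ≤ (d * (2 * a₁ + d * b₁)) ^ 2 := Nat.pow_le_pow_left hle 2
    have h3 : (2 * a₁ + d * b₁) ^ 2 ≤ (2 + d) ^ 2 * (P * p) := by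
      have h5 : 2 * (a₁ * b₁) ≤ a₁ ^ 2 + b₁ ^ 2 := by nlinarith [two_mul_le_add_sq a₁ b₁]
      have h6 : a₁ * b₁ ≤ P * p := by omega
      calc (2 * a₁ + d * b₁) ^ 2 = 4 * a₁ ^ 2 + 4 * d * (a₁ * b₁) + d ^ 2 * b₁ ^ 2 := by ring
        _ ≤ 4 * (P * p) + 4 * d * (P * p) + d ^ 2 * (P * p) := by gcongr
        _ = (2 + d) ^ 2 * (P * p) := by ring
    calc P ^ 2 ≤ (d * (2 * a₁ + d * b₁)) ^ 2 := h2
      _ = d ^ 2 * (2 * a₁ + d * b₁) ^ 2 := by ring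
      _ ≤ d ^ 2 * ((2 + d) ^ 2 * (P * p)) := Nat.mul_le_mul_left _ h3
      _ = (d * (2 + d)) ^ 2 * (P * p) := by ring
      _ ≤ ((d + 1) ^ 2) ^ 2 * (P * p) := by gcongr; nlinarith
      _ = (d + 1) ^ 4 * (P * p) := by ring
  have h2 : P ≤ (d + 1) ^ 4 * p := by
    have h3 : P * P ≤ P * ((d + 1) ^ 4 * p) := by nlinarith
    exact Nat.le_of_mul_le_mul_left h3 (by omega)
  have h3 : p * p ≤ P := by
    rw [← sq, hPdef]
    exact Nat.pow_le_pow_right hpf.out.pos (by omega)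
  have h4 : p ≤ (d + 1) ^ 4 := Nat.le_of_mul_le_mul_right (h3.trans h2) hpf.out.pos
  omega

end PData

end Pool.Agent.Y226
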