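import Pool.Agent.Y226.ZP.Basic

/-!
# Contact orders and roots of unity
-/

set_option autoImplicit false
set_option linter.unusedSectionVars false

open Polynomial

namespace Pool.Agent.Y226

variable {C : Type} [NormedField C] [IsUltrametricDist C]

/-- polynomials with coefficients in a subring -/
noncomputable def PS (S : Subring C) : Subring C[X] := (mapRingHom S.subtype).range

theorem mem_PS {S : Subring C} {f : C[X]} : f ∈ PS S ↔ ∀ n, f.coeff n ∈ S := by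
  unfold PS
  rw [Polynomial.mem_map_range]
  simp

theorem C_mem_PS {S : Subring C} {a : C} (h : a ∈ S) : Polynomial.C a ∈ PS S := by
  rw [mem_PS]
  intro n
  rw [coeff_C]
  split_ifs
  · exact h
  · exact zero_mem _

theorem eval_mem {S : Subring C} {f : C[X]} (hf : f ∈ PS S) {x : C} (hx : x ∈ S) :
    f.eval x ∈ S := by
  rw [eval_eq_sum_range]
  exact sum_mem fun i _ => mul_mem (mem_PS.1 hf i) (pow_mem hx i)

theorem taylor_mem {S : Subring C} {f : C[X]} (hf : f ∈ PS S) {x : C} (hx : x ∈ S) (n : ℕ) :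
    (taylor x f).coeff n ∈ S := by
  rw [taylor_coeff]
  refine eval_mem ?_ hx
  rw [mem_PS]
  intro m
  rw [hasseDeriv_coeff]
  exact mul_mem (natCast_mem _ _) (mem_PS.1 hf _)

variable {p : ℕ} [hpf : Fact p.Prime]

theorem PS_Nr_le : PS (Nr C p) ≤ PS (OO C) := by
  intro f hf
  rw [mem_PS] at hf ⊢
  exact fun n => Nr_le (hf n)

theorem eval_norm_le {f : C[X]} (hf : f ∈ PS (OO C)) {x : C} (hx : ‖x‖ ≤ 1) :
    ‖f.eval x‖ ≤ 1 := eval_mem (S := OO C) hf hx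

theorem eval_sub_le {f : C[X]} (hf : f ∈ PS (OO C)) {x y : C} {δ : ℝ} (hx : ‖x‖ ≤ 1)
    (hy : ‖y‖ ≤ 1) (h : ‖x - y‖ ≤ δ) : ‖f.eval x - f.eval y‖ ≤ δ := by
  rw [eval_eq_sum_range, eval_eq_sum_range, ← Finset.sum_sub_distrib]
  refine nsum_le _ _ ((norm_nonneg _).trans h) fun i _ => ?_
  rw [← mul_sub]
  exact nmul_le (mem_PS.1 hf i) (npow_sub_pow hx hy h i)

/-- the contact lemma -/
theorem contact (hp1 : ‖(p : C)‖ < 1) {E : C[X]} (hE : E ∈ PS (Nr C p)) {D : ℕ}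
    (hD : E.natDegree ≤ D)
    {x : C} (hx : ‖x‖ ≤ 1) (hEx : ‖E.eval x‖ = 1) {t t₀ : C} (ht₀ : t₀ ∈ Nr C p)
    (h : ‖t - t₀‖ < 1) :
    ∃ r ≤ D, ∃ w ∈ Nr C p, ‖w‖ = 1 ∧
      ‖E.eval t - w * (t - t₀) ^ r‖ ≤ max ‖(p : C)‖ (‖t - t₀‖ ^ (r + 1)) := by
  classical
  set e : ℕ → C := fun i => (taylor t₀ E).coeff i with he
  have hmem : ∀ i, e i ∈ Nr C p := fun i => taylor_mem hE ht₀ i
  have heval : ∀ y : C, E.eval y = ∑ i ∈ Finset.range (D + 1), e i * (y - t₀) ^ i := by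
    intro y
    have h1 : E.eval y = (taylor t₀ E).eval (y - t₀) := by
      rw [taylor_eval, sub_add_cancel]
    rw [h1, eval_eq_sum_range' (n := D + 1)]
    rw [natDegree_taylor]
    omega
  have hex : ∃ i, i ≤ D ∧ ‖e i‖ = 1 := by
    by_contra hcon
    push Not at hcon
    have h2 : ‖E.eval x‖ ≤ ‖(p : C)‖ := by
      rw [heval x]
      refine nsum_le _ _ (norm_nonneg _) fun i hi => ?_
      refine nmul_le' (Nr_gap (hmem i) (lt_of_le_of_ne (Nr_le (hmem i)) (hcon i ?_)))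
        (npow_le (nsub_le hx (Nr_le ht₀)) _)
      exact Nat.lt_succ_iff.1 (Finset.mem_range.1 hi)
    rw [hEx] at h2
    exact absurd h2 (not_le.2 hp1)
  set r := Nat.find hex with hr
  obtain ⟨hrD, hr1⟩ := Nat.find_spec hex
  have hmin : ∀ i < r, ‖e i‖ ≤ ‖(p : C)‖ := by
    intro i hi
    have h3 := Nat.find_min hex hi
    push Not at h3
    exact Nr_gap (hmem i) (lt_of_le_of_ne (Nr_le (hmem i)) (h3 (by omega)))
  refine ⟨r, hrD, e r, hmem r, hr1, ?_⟩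
  rw [heval t, ← Finset.add_sum_erase _ _ (Finset.mem_range.2 (Nat.lt_succ_of_le hrD)),
    add_sub_cancel_left]
  refine nsum_le _ _ (le_max_of_le_left (norm_nonneg _)) fun i hi => ?_
  have hne := Finset.ne_of_mem_erase hi
  rcases lt_or_gt_of_ne hne with h4 | h4
  · exact (nmul_le' (hmin i h4) (npow_le h.le _)).trans (le_max_left _ _)
  · refine (nmul_le (Nr_le (hmem i)) le_rfl).trans (le_max_of_le_right ?_)
    rw [norm_pow]
    exact pow_le_pow_of_le_one (norm_nonneg _) h.le h4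

/-- the upper bound for the contact -/
theorem contact_le (hp1 : ‖(p : C)‖ < 1) {E : C[X]} (hE : E ∈ PS (Nr C p)) {D : ℕ}
    (hD : E.natDegree ≤ D)
    {x : C} (hx : ‖x‖ ≤ 1) (hEx : ‖E.eval x‖ = 1) {t t₀ : C} (ht₀ : t₀ ∈ Nr C p)
    (h : ‖t - t₀‖ < 1) {θ : ℝ} (hθ : ‖(p : C)‖ ≤ θ) (hθ0 : 0 < θ) (ht : ‖E.eval t‖ ≤ θ) :
    ‖t - t₀‖ ^ D ≤ θ := by
  obtain ⟨r, hrD, w, -, hw, hle⟩ := contact hp1 hE hD hx hEx ht₀ h
  refine (pow_le_pow_of_le_one (norm_nonneg _) h.le hrD).trans ?_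
  by_contra hcon
  push Not at hcon
  have hn : ‖w * (t - t₀) ^ r‖ = ‖t - t₀‖ ^ r := by rw [norm_mul, hw, one_mul, norm_pow]
  have hlt : ‖E.eval t - w * (t - t₀) ^ r‖ < ‖w * (t - t₀) ^ r‖ := by
    refine hle.trans_lt ?_
    rw [hn]
    refine max_lt (hθ.trans_lt hcon) ?_
    rw [pow_succ]
    have h0 : 0 < ‖t - t₀‖ ^ r := hθ0.trans hcon
    calc ‖t - t₀‖ ^ r * ‖t - t₀‖ < ‖t - t₀‖ ^ r * 1 := by gcongr
      _ = ‖t - t₀‖ ^ r := mul_one _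
  have h5 := neq_of_sub_lt hlt
  rw [h5, hn] at ht
  exact absurd ht (not_le.2 hcon)

/-! ### roots of unity -/

theorem ppow_root_lt (hp1 : ‖(p : C)‖ < 1) {ε : C} {s : ℕ} (h : ε ^ p ^ s = 1) :
    ‖ε - 1‖ < 1 := by
  have hε : ‖ε‖ ≤ 1 := by
    have h1 : ‖ε‖ ^ p ^ s = 1 := by rw [← norm_pow, h, norm_one]
    exact (pow_eq_one_iff_of_nonneg (norm_nonneg _) (pow_pos hpf.out.pos s).ne').1 h1 |>.le
  have hx : ‖ε - 1‖ ≤ 1 := nsub_le hε norm_one.le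
  obtain ⟨r, hr, he⟩ := nadd_pow_prime hpf.out hx (norm_one (α := C)).le s
  rw [sub_add_cancel, h, one_pow, mul_one] at he
  have h2 : (ε - 1) ^ p ^ s = -(p * (ε - 1) * r) := by linear_combination -he
  have h3 : ‖(ε - 1) ^ p ^ s‖ < 1 := by
    rw [h2, norm_neg]
    exact (nmul_le' (nmul_le' le_rfl hx) hr).trans_lt hp1
  by_contra hcon
  push Not at hcon
  rw [norm_pow] at h3
  exact absurd (one_le_pow₀ hcon) (not_le.2 h3)

/-- `p`-th roots of unity: `(ω - 1)^(p-1) = - p (1 + (ω - 1) r)` -/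
theorem root_p_eq (hp1 : ‖(p : C)‖ < 1) {ω : C} (h : ω ^ p = 1) (hne : ω ≠ 1) :
    ∃ r : C, ‖r‖ ≤ 1 ∧ (ω - 1) ^ (p - 1) = -p * (1 + (ω - 1) * r) := by
  have hlt : ‖ω - 1‖ < 1 := ppow_root_lt hp1 (s := 1) (by rwa [pow_one])
  set x := ω - 1 with hx
  have hx0 : x ≠ 0 := sub_ne_zero.2 hne
  have e := add_pow_prime_eq hpf.out x (1 : C)
  rw [show x + 1 = ω by rw [hx]; ring, h, one_pow, mul_one] at e
  have hp2 := hpf.out.two_le
  have h1 : (1 : ℕ) ∈ Finset.Ioo 0 p := Finset.mem_Ioo.2 ⟨one_pos, hp2⟩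
  rw [← Finset.add_sum_erase _ _ h1] at e
  have hd : ∀ k ∈ (Finset.Ioo 0 p).erase 1,
      x ^ (k - 1) * 1 ^ (p - k - 1) * ((p.choose k / p : ℕ) : C) =
      x * (x ^ (k - 2) * ((p.choose k / p : ℕ) : C)) := by
    intro k hk
    have hk1 := Finset.ne_of_mem_erase hk
    have hk2 := Finset.mem_Ioo.1 (Finset.mem_of_mem_erase hk)
    obtain ⟨j, rfl⟩ : ∃ j, k = j + 2 := ⟨k - 2, by omega⟩
    rw [show j + 2 - 1 = j + 1 by omega, show j + 2 - 2 = j by omega, one_pow]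
    ring
  rw [Finset.sum_congr rfl hd, ← Finset.mul_sum] at e
  set S := ∑ k ∈ (Finset.Ioo 0 p).erase 1, x ^ (k - 2) * ((p.choose k / p : ℕ) : C) with hS
  refine ⟨S, ?_, ?_⟩
  · refine nsum_le _ _ zero_le_one fun k _ => ?_
    exact nmul_le (npow_le hlt.le _) (nnat _)
  · rw [Nat.choose_one_right, Nat.div_self hpf.out.pos] at e
    have hxp : x ^ p = x * x ^ (p - 1) := by
      rw [← pow_succ', Nat.sub_add_cancel hpf.out.one_lt.le]
    have e2 : x * (x ^ (p - 1) + p * (1 + x * S)) = 0 := by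
      rw [hxp] at e
      simp only [Nat.sub_self, pow_zero, one_pow, Nat.cast_one, mul_one] at e
      linear_combination -e
    rcases mul_eq_zero.1 e2 with h3 | h3
    · exact absurd h3 hx0
    · linear_combination h3

theorem root_p_norm (hp1 : ‖(p : C)‖ < 1) {ω : C} (h : ω ^ p = 1) (hne : ω ≠ 1) :
    ‖ω - 1‖ ^ (p - 1) = ‖(p : C)‖ := by
  have hlt : ‖ω - 1‖ < 1 := ppow_root_lt hp1 (s := 1) (by rwa [pow_one])
  obtain ⟨r, hr, he⟩ := root_p_eq hp1 h hne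
  rw [← norm_pow, he, norm_mul, norm_neg]
  have h1 : ‖(1 : C) + (ω - 1) * r‖ = 1 := by
    refine neq_one (y := 1) ?_ norm_one
    rw [add_sub_cancel_left]
    exact (nmul_le' le_rfl hr).trans_lt hlt
  rw [h1, mul_one]

/-- `p`-power roots of unity, `p` odd -/
theorem ppow_root_sub (hp1 : ‖(p : C)‖ < 1) {ε : C} {s : ℕ} (h : ε ^ p ^ (s + 1) = 1) :
    ‖(ε - 1) ^ p ^ s - (ε ^ p ^ s - 1)‖ ≤ ‖(p : C)‖ := by
  have hx := (ppow_root_lt hp1 h).le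
  obtain ⟨r, hr, he⟩ := nadd_pow_prime hpf.out hx (norm_one (α := C)).le s
  rw [sub_add_cancel, one_pow, mul_one] at he
  have e : (ε - 1) ^ p ^ s - (ε ^ p ^ s - 1) = -(p * (ε - 1) * r) := by
    rw [he]; ring
  rw [e, norm_neg]
  exact nmul_le' (nmul_le' le_rfl hx) hr

theorem p_lt_root (hp2 : p ≠ 2) (hp1 : ‖(p : C)‖ < 1) {ω : C} (h : ω ^ p = 1) (hne : ω ≠ 1) :
    ‖(p : C)‖ < ‖ω - 1‖ := by
  have hlt : ‖ω - 1‖ < 1 := ppow_root_lt hp1 (s := 1) (by rwa [pow_one])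
  have h0 : 0 < ‖ω - 1‖ := norm_pos_iff.2 (sub_ne_zero.2 hne)
  rw [← root_p_norm hp1 h hne]
  have h2 := hpf.out.two_le
  calc ‖ω - 1‖ ^ (p - 1) < ‖ω - 1‖ ^ 1 := pow_lt_pow_right_of_lt_one₀ h0 hlt (by omega)
    _ = ‖ω - 1‖ := pow_one _

theorem ppow_root_norm_aux (hp2 : p ≠ 2) (hp1 : ‖(p : C)‖ < 1) {ε : C} {s : ℕ}
    (h : IsPrimitiveRoot ε (p ^ (s + 1))) : ‖ε - 1‖ ^ p ^ s = ‖ε ^ p ^ s - 1‖ := by
  have hω : (ε ^ p ^ s) ^ p = 1 := by rw [← pow_mul, ← pow_succ]; exact h.pow_eq_one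
  have hωne : ε ^ p ^ s ≠ 1 :=
    h.pow_ne_one_of_pos_of_lt (pow_pos hpf.out.pos s).ne'
      (Nat.pow_lt_pow_right hpf.out.one_lt (Nat.lt_succ_self s))
  have h1 := ppow_root_sub hp1 (s := s) h.pow_eq_one
  have h2 := p_lt_root hp2 hp1 hω hωne
  rw [← norm_pow]
  exact neq_of_sub_lt (h1.trans_lt h2)

theorem ppow_root_norm (hp2 : p ≠ 2) (hp1 : ‖(p : C)‖ < 1) {ε : C} {s : ℕ}
    (h : IsPrimitiveRoot ε (p ^ (s + 1))) : ‖ε - 1‖ ^ (p ^ s * (p - 1)) = ‖(p : C)‖ := by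
  have hω : (ε ^ p ^ s) ^ p = 1 := by rw [← pow_mul, ← pow_succ]; exact h.pow_eq_one
  have hωne : ε ^ p ^ s ≠ 1 :=
    h.pow_ne_one_of_pos_of_lt (pow_pos hpf.out.pos s).ne'
      (Nat.pow_lt_pow_right hpf.out.one_lt (Nat.lt_succ_self s))
  rw [pow_mul, ppow_root_norm_aux hp2 hp1 h, root_p_norm hp1 hω hωne]

/-- a root of unity of order prime to `p` congruent to one is one -/
theorem tame_eq_one {μ : C} {m : ℕ} (hm : ‖(m : C)‖ = 1) (h : μ ^ m = 1)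
    (hlt : ‖μ - 1‖ < 1) : μ = 1 := by
  have hμ : ‖μ‖ ≤ 1 := (neq_one hlt norm_one).le
  have e := Commute.geom_sum₂_mul (Commute.all μ 1) m
  rw [h, one_pow, sub_self] at e
  rcases mul_eq_zero.1 e with h1 | h1
  · exfalso
    have h2 : ‖(m : C) - ∑ i ∈ Finset.range m, μ ^ i * 1 ^ (m - 1 - i)‖ ≤ ‖μ - 1‖ := by
      have h3 : (m : C) = ∑ i ∈ Finset.range m, (1 : C) := by simp
      rw [h3, ← Finset.sum_sub_distrib]
      refine nsum_le _ _ (norm_nonneg _) fun i _ => ?_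
      rw [one_pow, mul_one, norm_sub_rev]
      have := npow_sub_pow hμ (norm_one (α := C)).le (le_refl ‖μ - 1‖) i
      rwa [one_pow] at this
    rw [h1, sub_zero, hm] at h2
    exact absurd h2 (not_le.2 hlt)
  · exact sub_eq_zero.1 h1

/-- decomposition of roots of unity -/
theorem root_decomp {ζ : C} {g : ℕ} (hg : 0 < g) (h : IsPrimitiveRoot ζ g) :
    ∃ (g' s : ℕ) (ζ' ε : C), g = g' * p ^ s ∧ g'.Coprime p ∧ IsPrimitiveRoot ζ' g' ∧
      IsPrimitiveRoot ε (p ^ s) ∧ ζ = ζ' * ε := by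
  obtain ⟨s, g', hg', hgs⟩ := Nat.exists_eq_pow_mul_and_not_dvd hg.ne' p hpf.out.ne_one
  have hcop : g'.Coprime p := (Nat.coprime_comm.1 ((Nat.Prime.coprime_iff_not_dvd hpf.out).2 hg'))
  have hcop' : IsCoprime (g' : ℤ) ((p ^ s : ℕ) : ℤ) :=
    Nat.isCoprime_iff_coprime.2 (hcop.pow_right s)
  obtain ⟨u, v, huv⟩ := hcop'
  have h1 : IsPrimitiveRoot (ζ ^ g') (p ^ s) := h.pow hg (by rw [hgs]; ring)
  have h2 : IsPrimitiveRoot (ζ ^ (p ^ s)) g' := h.pow hg (by rw [hgs])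
  have hu : IsCoprime u ((p ^ s : ℕ) : ℤ) := ⟨(g' : ℤ), v, by linear_combination huv⟩
  have hv : IsCoprime v (g' : ℤ) := ⟨((p ^ s : ℕ) : ℤ), u, by linear_combination huv⟩
  refine ⟨g', s, (ζ ^ (p ^ s)) ^ v, (ζ ^ g') ^ u, by rw [hgs]; ring, hcop, ?_, ?_, ?_⟩
  · exact h2.zpow_of_gcd_eq_one v (Int.isCoprime_iff_gcd_eq_one.1 hv)
  · exact h1.zpow_of_gcd_eq_one u (Int.isCoprime_iff_gcd_eq_one.1 hu)
  · have hζ : ζ ≠ 0 := h.ne_zero hg.ne'
    have e : (ζ ^ (p ^ s)) ^ v * (ζ ^ g') ^ u = ζ ^ (((p ^ s : ℕ) : ℤ) * v + (g' : ℤ) * u) := by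
      rw [zpow_add₀ hζ, zpow_mul, zpow_mul, zpow_natCast, zpow_natCast]
    rw [e, show ((p ^ s : ℕ) : ℤ) * v + (g' : ℤ) * u = 1 by linear_combination huv, zpow_one]

end Pool.Agent.Y226
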