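import Pool.Agent.Y226.ZP.TameAlg

/-!
# The tame equation
-/

set_option autoImplicit false
set_option linter.unusedSectionVars false

open Polynomial

namespace Pool.Agent.Y226

variable {R k : Type*} [CommRing R] [IsDomain R] [Field k] {p : ℕ} [hpf : Fact p.Prime]
  [CharP k p] (red : R →+* k)

theorem fixed_mul {x : R} {f : ℕ} (h : x ^ p ^ f = x) (m : ℕ) : x ^ p ^ (f * m) = x := by
  induction m with
  | zero => simp
  | succ m ih => rw [mul_add, mul_one, pow_add, pow_mul, ih, h]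

/-- a common Frobenius exponent -/
theorem common_f (T : R[X]) (hT : ∀ i, ∃ f : ℕ, 0 < f ∧ T.coeff i ^ p ^ f = T.coeff i) :
    ∃ f : ℕ, 0 < f ∧ ∀ i, T.coeff i ^ p ^ f = T.coeff i := by
  choose f hf hff using hT
  refine ⟨∏ i ∈ T.support, f i, Finset.prod_pos fun i _ => hf i, fun i => ?_⟩
  by_cases hi : i ∈ T.support
  · obtain ⟨m, hm⟩ := Finset.dvd_prod_of_mem f hi
    rw [hm]
    exact fixed_mul (hff i) m
  · rw [notMem_support_iff.1 hi, zero_pow (pow_pos hpf.out.pos _).ne']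

theorem pow_expand_sq {a b : R} : ∃ c, (a + p * b) ^ p = a ^ p + p ^ 2 * c := by
  obtain ⟨r, hr⟩ := exists_add_pow_prime_eq hpf.out a (p * b)
  obtain ⟨q, hq⟩ : ∃ q, p = q + 2 := ⟨p - 2, by have := hpf.out.two_le; omega⟩
  have hpp : (p : R) ^ p = p ^ 2 * p ^ q := by rw [← pow_add]; congr 1; omega
  refine ⟨p ^ q * b ^ p + a * b * r, ?_⟩
  rw [hr, mul_pow, hpp]
  ring

/-- the main identity -/
theorem tame_identity (hp0 : (p : R) ≠ 0) {U V : R[X]} (sU : TSplit R p U) (sV : TSplit R p V)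
    {t₀ ζ η r ρ : R} {f₁ f₂ : ℕ} (hf₁ : 0 < f₁) (hf₂ : 0 < f₂) (ht₀ : t₀ ^ p ^ f₁ = t₀)
    (hζ : ζ ^ p ^ f₂ = ζ)
    (hrel : U.eval (t₀ + p * η) = ζ * V.eval (t₀ + p * η) + p * r + p ^ 2 * ρ)
    {Rp : k[X]} (hR : red r * (V.map red).eval (red t₀) = Rp.eval (red t₀)) :
    ((sharp (p := p) sV.T).map red * (U.map red) ^ p -
      (sharp (p := p) sU.T).map red * (V.map red) ^ p).eval (red t₀) +
      (red η * (derivative (U.map red) * V.map red - U.map red * derivative (V.map red)).eval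
        (red t₀) + (sU.V.map red * V.map red - U.map red * sV.V.map red - Rp).eval (red t₀)) ^ p
      = 0 := by
  classical
  have hredp : red (p : R) = 0 := by rw [map_natCast]; exact CharP.cast_eq_zero k p
  obtain ⟨fU, hfU, hU⟩ := common_f (p := p) sU.T sU.teich
  obtain ⟨fV, hfV, hV⟩ := common_f (p := p) sV.T sV.teich
  set f := f₁ * f₂ * fU * fV with hf
  have hf0 : 0 < f := by positivity
  have eU : ∀ i, sU.T.coeff i ^ p ^ f = sU.T.coeff i := fun i => by
    rw [hf, show f₁ * f₂ * fU * fV = fU * (f₁ * f₂ * fV) by ring]; exact fixed_mul (hU i) _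
  have eV : ∀ i, sV.T.coeff i ^ p ^ f = sV.T.coeff i := fun i => by
    rw [hf, show f₁ * f₂ * fU * fV = fV * (f₁ * f₂ * fU) by ring]; exact fixed_mul (hV i) _
  have et : t₀ ^ p ^ f = t₀ := by
    rw [hf, show f₁ * f₂ * fU * fV = f₁ * (f₂ * fU * fV) by ring]; exact fixed_mul ht₀ _
  have eζ : ζ ^ p ^ f = ζ := by
    rw [hf, show f₁ * f₂ * fU * fV = f₂ * (f₁ * fU * fV) by ring]; exact fixed_mul hζ _
  let ι := {x : R // x ^ p ^ f = x}
  let τ : ι → R := Subtype.val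
  let Q : MvPolynomial ι ℤ :=
    (∑ i ∈ sU.T.support, MvPolynomial.X ⟨sU.T.coeff i, eU i⟩ * MvPolynomial.X ⟨t₀, et⟩ ^ i) -
    MvPolynomial.X ⟨ζ, eζ⟩ *
      (∑ i ∈ sV.T.support, MvPolynomial.X ⟨sV.T.coeff i, eV i⟩ * MvPolynomial.X ⟨t₀, et⟩ ^ i)
  have hQ1 : MvPolynomial.aeval τ Q = sU.T.eval t₀ - ζ * sV.T.eval t₀ := by
    simp only [Q, τ, map_sub, map_mul, map_sum, map_pow, MvPolynomial.aeval_X]
    rw [eval_eq_sum, eval_eq_sum, sum_def, sum_def]
  have hQ2 : MvPolynomial.aeval (fun i => τ i ^ p) Q =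
      (expand R p (sig p sU.T)).eval t₀ - ζ ^ p * (expand R p (sig p sV.T)).eval t₀ := by
    simp only [Q, τ, map_sub, map_mul, map_sum, map_pow, MvPolynomial.aeval_X]
    simp only [sig, map_sum, map_mul, expand_C, map_pow, expand_X, eval_finsetSum, eval_mul,
      eval_pow, eval_C, eval_X]
  -- the first expression
  obtain ⟨cU, hcU⟩ := binomExpansion sU.T t₀ (p * η)
  obtain ⟨cV, hcV⟩ := binomExpansion sV.T t₀ (p * η)
  have e1 : U.eval (t₀ + p * η) = sU.T.eval (t₀ + p * η) + p * sU.V.eval (t₀ + p * η) := by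
    conv_lhs => rw [sU.eq]
    rw [eval_add, eval_mul, eval_C]
  have e2 : V.eval (t₀ + p * η) = sV.T.eval (t₀ + p * η) + p * sV.V.eval (t₀ + p * η) := by
    conv_lhs => rw [sV.eq]
    rw [eval_add, eval_mul, eval_C]
  set x₁ : R := r + p * ρ - η * ((derivative sU.T).eval t₀ - ζ * (derivative sV.T).eval t₀) -
    (sU.V.eval (t₀ + p * η) - ζ * sV.V.eval (t₀ + p * η)) - p * (cU * η ^ 2 - ζ * cV * η ^ 2)
    with hx₁
  have hx1 : MvPolynomial.aeval τ Q = p * x₁ := by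
    rw [hQ1, hx₁]
    rw [e1, e2, hcU, hcV] at hrel
    linear_combination hrel
  obtain ⟨x₂, hx2, hx3⟩ := frob_lift red τ hf0 (fun i => i.2) hp0 Q hx1
  rw [hQ2] at hx2
  have s1 : (expand R p (sig p sU.T)).eval t₀ = sU.T.eval t₀ ^ p -
      p * (sharp (p := p) sU.T).eval t₀ := by
    have := congrArg (Polynomial.eval t₀) (sharp_spec (p := p) sU.T)
    rw [eval_pow, eval_add, eval_mul, eval_C] at this
    linear_combination -this
  have s2 : (expand R p (sig p sV.T)).eval t₀ = sV.T.eval t₀ ^ p -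
      p * (sharp (p := p) sV.T).eval t₀ := by
    have := congrArg (Polynomial.eval t₀) (sharp_spec (p := p) sV.T)
    rw [eval_pow, eval_add, eval_mul, eval_C] at this
    linear_combination -this
  obtain ⟨c, hc⟩ := pow_expand_sq (p := p) (a := ζ * sV.T.eval t₀) (b := x₁)
  have hU3 : sU.T.eval t₀ = ζ * sV.T.eval t₀ + p * x₁ := by
    rw [hQ1] at hx1
    linear_combination hx1
  have hx4 : x₂ = p * c - ((sharp (p := p) sU.T).eval t₀ - ζ ^ p *
      (sharp (p := p) sV.T).eval t₀) := by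
    have h2 : (p : R) * (x₂ - (p * c - ((sharp (p := p) sU.T).eval t₀ - ζ ^ p *
      (sharp (p := p) sV.T).eval t₀))) = 0 := by
      rw [s1, s2, hU3, hc, mul_pow] at hx2
      linear_combination -hx2
    rcases mul_eq_zero.1 h2 with h3 | h3
    · exact absurd h3 hp0
    · exact sub_eq_zero.1 h3
  -- reductions
  have hev : ∀ (F : R[X]) (x : R), red (F.eval x) = (F.map red).eval (red x) := fun F x => by
    rw [eval_map, eval₂_at_apply]
  have hredt : red (t₀ + p * η) = red t₀ := by rw [map_add, map_mul, hredp, zero_mul, add_zero]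
  have hTU : sU.T.map red = U.map red := by
    conv_rhs => rw [sU.eq]
    rw [Polynomial.map_add, Polynomial.map_mul, Polynomial.map_C, hredp, C_0, zero_mul, add_zero]
  have hTV : sV.T.map red = V.map red := by
    conv_rhs => rw [sV.eq]
    rw [Polynomial.map_add, Polynomial.map_mul, Polynomial.map_C, hredp, C_0, zero_mul, add_zero]
  have hx1r : red x₁ = red r - red η * ((derivative (U.map red)).eval (red t₀) -
      red ζ * (derivative (V.map red)).eval (red t₀)) -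
      ((sU.V.map red).eval (red t₀) - red ζ * (sV.V.map red).eval (red t₀)) := by
    rw [hx₁]
    simp only [map_sub, map_add, map_mul, hredp, zero_mul, sub_zero, add_zero, hev, hredt]
    rw [← derivative_map, ← derivative_map, hTU, hTV]
  have hx2r : red x₂ = -(((sharp (p := p) sU.T).map red).eval (red t₀) - red ζ ^ p *
      ((sharp (p := p) sV.T).map red).eval (red t₀)) := by
    rw [hx4]
    simp only [map_sub, map_mul, map_pow, hredp, zero_mul, zero_sub, hev]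
  have huv : (U.map red).eval (red t₀) = red ζ * (V.map red).eval (red t₀) := by
    have := congrArg red hrel
    simp only [map_add, map_mul, map_pow, hredp, zero_mul, add_zero, hev, hredt,
      zero_pow (two_ne_zero)] at this
    exact this
  rw [hx2r, hx1r] at hx3
  simp only [eval_sub, eval_mul, eval_pow]
  set u := (U.map red).eval (red t₀)
  set v := (V.map red).eval (red t₀)
  have hkey := congrArg (fun z => v ^ p * z) hx3
  rw [← mul_pow] at hkey
  have harg : v * (red r - red η * ((derivative (U.map red)).eval (red t₀) -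
      red ζ * (derivative (V.map red)).eval (red t₀)) -
      ((sU.V.map red).eval (red t₀) - red ζ * (sV.V.map red).eval (red t₀))) =
      -(red η * ((derivative (U.map red)).eval (red t₀) * v -
        u * (derivative (V.map red)).eval (red t₀)) +
        ((sU.V.map red).eval (red t₀) * v - u * (sV.V.map red).eval (red t₀) -
          Rp.eval (red t₀))) := by
    rw [← hR, huv]
    ring
  rw [harg] at hkey
  have hneg : ∀ z : k, (-z) ^ p = -(z ^ p) := fun z => by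
    have := map_neg (frobenius k p) z
    simpa [frobenius_def] using this
  rw [hneg] at hkey
  rw [huv] at hkey ⊢
  rw [mul_pow]
  linear_combination hkey

section nonzero

variable {x₀ : k}

theorem rm_eq {n : ℕ} {g : k[X]} (hg : g.eval x₀ ≠ 0) :
    rootMultiplicity x₀ ((X - C x₀) ^ n * g) = n := by
  have hg0 : g ≠ 0 := by rintro rfl; simp at hg
  have h1 : (X - C x₀) ^ n * g ≠ 0 := mul_ne_zero (pow_ne_zero _ (X_sub_C_ne_zero x₀)) hg0
  rw [rootMultiplicity_mul h1, rootMultiplicity_X_sub_C_pow,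
    rootMultiplicity_eq_zero (by rwa [IsRoot]), add_zero]

/-- the Wronskian at a point where exactly one of the two polynomials vanishes -/
theorem wronskian_aux {U V : k[X]} (hV0 : V ≠ 0) (hVd : V.natDegree < p)
    (hU : U.eval x₀ ≠ 0) (hV : V.eval x₀ = 0) :
    ∃ (m : ℕ) (g G : k[X]), g.eval x₀ ≠ 0 ∧ G.eval x₀ ≠ 0 ∧
      derivative U * V - U * derivative V = (X - C x₀) ^ m * g ∧
      V = (X - C x₀) ^ (m + 1) * G := by
  obtain ⟨G, hG, hGd⟩ := exists_eq_pow_rootMultiplicity_mul_and_not_dvd V hV0 x₀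
  set μ := rootMultiplicity x₀ V with hμ
  have hμ0 : 0 < μ := (rootMultiplicity_pos hV0).2 hV
  have hG0 : G.eval x₀ ≠ 0 := fun h => hGd (dvd_iff_isRoot.2 h)
  have hμp : μ < p := by
    refine lt_of_le_of_lt ?_ hVd
    have := pow_rootMultiplicity_dvd V x₀
    have h2 := natDegree_le_of_dvd this hV0
    rwa [natDegree_pow, natDegree_X_sub_C, mul_one] at h2
  obtain ⟨m, hm⟩ : ∃ m, μ = m + 1 := ⟨μ - 1, by omega⟩
  have hμk : ((m + 1 : ℕ) : k) ≠ 0 := by
    rw [← hm]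
    intro h
    rw [CharP.cast_eq_zero_iff k p] at h
    exact absurd (Nat.le_of_dvd hμ0 h) (by omega)
  refine ⟨m, (X - C x₀) * (derivative U * G - U * derivative G) -
    C ((m + 1 : ℕ) : k) * (U * G), G, ?_, hG0, ?_, by rw [← hm]; exact hG⟩
  · simp only [eval_sub, eval_mul, eval_X, eval_C, sub_self, zero_mul, zero_sub]
    exact neg_ne_zero.2 (mul_ne_zero hμk (mul_ne_zero hU hG0))
  · rw [hG, hm]
    simp only [derivative_mul, derivative_pow, derivative_sub, derivative_X, derivative_C,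
      sub_zero, mul_one, Nat.add_sub_cancel]
    simp only [map_natCast]
    ring

theorem wronskian_mult {U V : k[X]} (hU0 : U ≠ 0) (hV0 : V ≠ 0) (hUd : U.natDegree < p)
    (hVd : V.natDegree < p)
    (h : (U.eval x₀ = 0 ∧ V.eval x₀ ≠ 0) ∨ (U.eval x₀ ≠ 0 ∧ V.eval x₀ = 0)) :
    derivative U * V - U * derivative V ≠ 0 ∧
    rootMultiplicity x₀ (U * V) =
      rootMultiplicity x₀ (derivative U * V - U * derivative V) + 1 := by
  have key : ∀ {U V : k[X]}, U ≠ 0 → V ≠ 0 → V.natDegree < p → U.eval x₀ ≠ 0 → V.eval x₀ = 0 →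
      derivative U * V - U * derivative V ≠ 0 ∧
      rootMultiplicity x₀ (U * V) =
      rootMultiplicity x₀ (derivative U * V - U * derivative V) + 1 := by
    intro U V hU0 hV0 hVd hU hV
    obtain ⟨m, g, G, hg, hG, h1, h2⟩ := wronskian_aux hV0 hVd hU hV
    refine ⟨?_, ?_⟩
    · rw [h1]
      refine mul_ne_zero (pow_ne_zero _ (X_sub_C_ne_zero x₀)) ?_
      rintro rfl; simp at hg
    · rw [h1, rm_eq hg]
      have h3 : U * V = (X - C x₀) ^ (m + 1) * (U * G) := by rw [h2]; ring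
      rw [h3, rm_eq]
      rw [eval_mul]; exact mul_ne_zero hU hG
  rcases h with ⟨h1, h2⟩ | ⟨h1, h2⟩
  · obtain ⟨h3, h4⟩ := key hV0 hU0 hUd h2 h1
    have e : derivative U * V - U * derivative V = -(derivative V * U - V * derivative U) := by ring
    rw [e]
    refine ⟨neg_ne_zero.2 h3, ?_⟩
    rw [mul_comm U V, h4, ← neg_one_mul, rootMultiplicity_mul]
    · have : rootMultiplicity x₀ (-1 : k[X]) = 0 := by
        apply rootMultiplicity_eq_zero
        simp [IsRoot]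
      rw [this, zero_add]
    · rw [neg_one_mul]; exact neg_ne_zero.2 h3
  · exact key hU0 hV0 hVd h1 h2

theorem rm_pow {f : k[X]} (hf : f ≠ 0) (n : ℕ) :
    rootMultiplicity x₀ (f ^ n) = n * rootMultiplicity x₀ f := by
  induction n with
  | zero => simp [rootMultiplicity_eq_zero (x := x₀) (p := (1 : k[X])) (by simp [IsRoot])]
  | succ n ih =>
    rw [pow_succ, rootMultiplicity_mul (mul_ne_zero (pow_ne_zero _ hf) hf), ih]
    ring

theorem der_pow_p (f : k[X]) : derivative (f ^ p) = 0 := by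
  rw [derivative_pow]
  have : ((p : ℕ) : k[X]) = 0 := by
    rw [← C_eq_natCast, CharP.cast_eq_zero k p, C_0]
  simp [this]

/-- the elimination polynomial is not zero -/
theorem tame_ne_zero {U₂ V₂ U₃ V₃ Us₂ Vs₂ Us₃ Vs₃ S₂ S₃ : k[X]}
    (dU₂ : derivative Us₂ = U₂ ^ (p - 1) * derivative U₂ - X ^ (p - 1) * derivative U₂ ^ p)
    (dV₂ : derivative Vs₂ = V₂ ^ (p - 1) * derivative V₂ - X ^ (p - 1) * derivative V₂ ^ p)
    (dU₃ : derivative Us₃ = U₃ ^ (p - 1) * derivative U₃ - X ^ (p - 1) * derivative U₃ ^ p)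
    (dV₃ : derivative Vs₃ = V₃ ^ (p - 1) * derivative V₃ - X ^ (p - 1) * derivative V₃ ^ p)
    (hU₂ : U₂ ≠ 0) (hV₂ : V₂ ≠ 0) (hU₂d : U₂.natDegree < p) (hV₂d : V₂.natDegree < p)
    (h2 : (U₂.eval x₀ = 0 ∧ V₂.eval x₀ ≠ 0) ∨ (U₂.eval x₀ ≠ 0 ∧ V₂.eval x₀ = 0))
    (hU₃ : U₃.eval x₀ ≠ 0) (hV₃ : V₃.eval x₀ ≠ 0)
    (hW₃ : derivative U₃ * V₃ - U₃ * derivative V₃ ≠ 0) :
    (derivative U₃ * V₃ - U₃ * derivative V₃) ^ p * ((Vs₂ * U₂ ^ p - Us₂ * V₂ ^ p) + S₂ ^ p) -
    (derivative U₂ * V₂ - U₂ * derivative V₂) ^ p * ((Vs₃ * U₃ ^ p - Us₃ * V₃ ^ p) + S₃ ^ p)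
      ≠ 0 := by
  intro h0
  obtain ⟨hW₂, hmult⟩ := wronskian_mult hU₂ hV₂ hU₂d hV₂d h2
  have hU₃0 : U₃ ≠ 0 := by rintro rfl; simp at hU₃
  have hV₃0 : V₃ ≠ 0 := by rintro rfl; simp at hV₃
  have hd := congrArg derivative h0
  simp only [derivative_sub, derivative_add, derivative_mul, der_pow_p, derivative_zero, zero_mul,
    add_zero, zero_add, mul_zero, dU₂, dV₂, dU₃, dV₃] at hd
  set dU2 := derivative U₂
  set dV2 := derivative V₂
  set dU3 := derivative U₃
  set dV3 := derivative V₃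
  set W₂ := dU2 * V₂ - U₂ * dV2 with hW₂d
  set W₃ := dU3 * V₃ - U₃ * dV3 with hW₃d
  obtain ⟨q, hq⟩ : ∃ q, p = q + 1 := ⟨p - 1, by have := hpf.out.pos; omega⟩
  have hq1 : p - 1 = q := by omega
  rw [hq1] at hd
  have hchar : ∀ a b : k[X], (a - b) ^ p = a ^ p - b ^ p := fun a b => by
    have := map_sub (frobenius k[X] p) a b
    simpa [frobenius_def] using this
  have hW2p : W₂ ^ p = dU2 ^ p * V₂ ^ p - U₂ ^ p * dV2 ^ p := by
    rw [hW₂d, hchar, mul_pow, mul_pow]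
  have hW3p : W₃ ^ p = dU3 ^ p * V₃ ^ p - U₃ ^ p * dV3 ^ p := by
    rw [hW₃d, hchar, mul_pow, mul_pow]
  have key : W₂ * W₃ * ((W₂ * (U₃ * V₃)) ^ q - (W₃ * (U₂ * V₂)) ^ q) = 0 := by
    have e : W₂ * W₃ * ((W₂ * (U₃ * V₃)) ^ q - (W₃ * (U₂ * V₂)) ^ q) =
        W₃ ^ p * ((V₂ ^ q * dV2 - X ^ q * dV2 ^ p) * U₂ ^ p -
          (U₂ ^ q * dU2 - X ^ q * dU2 ^ p) * V₂ ^ p) -
        W₂ ^ p * ((V₃ ^ q * dV3 - X ^ q * dV3 ^ p) * U₃ ^ p -
          (U₃ ^ q * dU3 - X ^ q * dU3 ^ p) * V₃ ^ p) := by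
      have e1 : (V₂ ^ q * dV2 - X ^ q * dV2 ^ p) * U₂ ^ p -
          (U₂ ^ q * dU2 - X ^ q * dU2 ^ p) * V₂ ^ p = X ^ q * W₂ ^ p - U₂ ^ q * V₂ ^ q * W₂ := by
        rw [hW2p, hW₂d]
        have h1 : U₂ ^ p = U₂ ^ q * U₂ := by rw [hq, pow_succ]
        have h2 : V₂ ^ p = V₂ ^ q * V₂ := by rw [hq, pow_succ]
        rw [h1, h2]; ring
      have e2 : (V₃ ^ q * dV3 - X ^ q * dV3 ^ p) * U₃ ^ p -
          (U₃ ^ q * dU3 - X ^ q * dU3 ^ p) * V₃ ^ p = X ^ q * W₃ ^ p - U₃ ^ q * V₃ ^ q * W₃ := by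
        rw [hW3p, hW₃d]
        have h1 : U₃ ^ p = U₃ ^ q * U₃ := by rw [hq, pow_succ]
        have h2 : V₃ ^ p = V₃ ^ q * V₃ := by rw [hq, pow_succ]
        rw [h1, h2]; ring
      rw [e1, e2]
      have h3 : W₂ ^ p = W₂ ^ q * W₂ := by rw [hq, pow_succ]
      have h4 : W₃ ^ p = W₃ ^ q * W₃ := by rw [hq, pow_succ]
      rw [h3, h4, mul_pow, mul_pow, mul_pow, mul_pow]
      ring
    rw [e]
    linear_combination hd
  rcases mul_eq_zero.1 key with h3 | h3
  · rcases mul_eq_zero.1 h3 with h4 | h4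
    · exact hW₂ h4
    · exact hW₃ h4
  · have h4 : (W₂ * (U₃ * V₃)) ^ q = (W₃ * (U₂ * V₂)) ^ q := sub_eq_zero.1 h3
    have hA : W₂ * (U₃ * V₃) ≠ 0 := mul_ne_zero hW₂ (mul_ne_zero hU₃0 hV₃0)
    have hB : W₃ * (U₂ * V₂) ≠ 0 := mul_ne_zero hW₃ (mul_ne_zero hU₂ hV₂)
    have h5 := congrArg (rootMultiplicity x₀) h4
    rw [rm_pow hA, rm_pow hB] at h5
    have hq0 : 0 < q := by have := hpf.out.two_le; omega
    have h6 := Nat.eq_of_mul_eq_mul_left hq0 h5
    rw [rootMultiplicity_mul hA, rootMultiplicity_mul hB, hmult,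
      rootMultiplicity_eq_zero (p := U₃ * V₃) (by
        rw [IsRoot, eval_mul]; exact mul_ne_zero hU₃ hV₃)] at h6
    omega

end nonzero

end Pool.Agent.Y226
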