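import Mathlib

/-!
# Frobenius lifts on Teichmüller elements and the tame equation
-/

set_option autoImplicit false
set_option linter.unusedSectionVars false

namespace Pool.Agent.Y226

section sums

theorem sum_pow_prime {S : Type*} [CommRing S] {p : ℕ} (hp : p.Prime) {ι : Type*}
    (s : Finset ι) (z : ι → S) : ∃ g, (∑ i ∈ s, z i) ^ p = ∑ i ∈ s, z i ^ p + p * g := by
  classical
  induction s using Finset.induction_on with
  | empty => exact ⟨0, by simp [hp.ne_zero]⟩
  | insert a s ha ih =>
    obtain ⟨g, hg⟩ := ih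
    obtain ⟨r, hr⟩ := exists_add_pow_prime_eq hp (z a) (∑ i ∈ s, z i)
    refine ⟨g + z a * (∑ i ∈ s, z i) * r, ?_⟩
    rw [Finset.sum_insert ha, Finset.sum_insert ha, hr, hg]
    ring

theorem exists_lift {ι : Type*} {p : ℕ} [hpf : Fact p.Prime] (X : MvPolynomial ι ℤ) :
    ∃ Q : MvPolynomial ι ℤ, X ^ p = MvPolynomial.expand p X + (p : MvPolynomial ι ℤ) * Q := by
  have h : MvPolynomial.C ((p : ℕ) : ℤ) ∣ X ^ p - MvPolynomial.expand p X := by
    rw [MvPolynomial.C_dvd_iff_zmod, map_sub, map_pow, MvPolynomial.map_expand,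
      MvPolynomial.expand_zmod, sub_self]
  obtain ⟨Q, hQ⟩ := h
  refine ⟨Q, ?_⟩
  have : MvPolynomial.C ((p : ℕ) : ℤ) = (p : MvPolynomial ι ℤ) := by simp
  rw [← this, ← hQ]
  ring

variable {R k : Type*} [CommRing R] [IsDomain R] [Field k] {p : ℕ} [hpf : Fact p.Prime]
  [CharP k p] (red : R →+* k)

/-- the Frobenius lift on polynomial expressions in Teichmüller elements -/
theorem frob_lift {ι : Type*} (τ : ι → R) {f : ℕ} (hf : 0 < f) (hτ : ∀ i, τ i ^ p ^ f = τ i)
    (hp0 : (p : R) ≠ 0) (X : MvPolynomial ι ℤ) {x₁ : R}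
    (hx₁ : MvPolynomial.aeval τ X = p * x₁) :
    ∃ x₂, MvPolynomial.aeval (fun i => τ i ^ p) X = p * x₂ ∧ red x₂ = red x₁ ^ p := by
  obtain ⟨Q, hQ⟩ := exists_lift (p := p) X
  obtain ⟨Q', hQ'⟩ := exists_lift (p := p) Q
  have hredp : red (p : R) = 0 := by rw [map_natCast]; exact CharP.cast_eq_zero k p
  set y : ℕ → R := fun j => MvPolynomial.aeval (fun i => τ i ^ p ^ j) X with hy
  set r : ℕ → R := fun j => MvPolynomial.aeval (fun i => τ i ^ p ^ j) Q with hr
  have hstep : ∀ j, y j ^ p = y (j + 1) + p * r j := by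
    intro j
    have h := congrArg (MvPolynomial.aeval (fun i => τ i ^ p ^ j)) hQ
    rw [map_pow, map_add, map_mul, MvPolynomial.aeval_expand, map_natCast] at h
    rw [hy, hr]
    simp only
    rw [h]
    congr 3
    funext i
    simp [pow_succ, pow_mul]
  have hstep' : ∀ j, red (r j) ^ p = red (r (j + 1)) := by
    intro j
    have h := congrArg (MvPolynomial.aeval (fun i => τ i ^ p ^ j)) hQ'
    rw [map_pow, map_add, map_mul, MvPolynomial.aeval_expand, map_natCast] at h
    have h2 := congrArg red h
    rw [map_pow, map_add, map_mul, hredp, zero_mul, add_zero] at h2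
    rw [hr]
    simp only
    rw [h2]
    congr 3
    funext i
    simp [pow_succ, pow_mul]
  have hy0 : y 0 = p * x₁ := by
    rw [← hx₁, hy]
    simp
  have hyf : y f = p * x₁ := by
    rw [← hx₁, hy]
    simp only
    congr 2
    funext i
    exact hτ i
  have hr0 : r f = r 0 := by
    rw [hr]
    simp only
    congr 2
    funext i
    rw [hτ i]; simp
  have hdvd : ∀ j, ∃ z, y j = p * z := by
    intro j
    induction j with
    | zero => exact ⟨x₁, hy0⟩
    | succ j ih =>
      obtain ⟨z, hz⟩ := ih
      refine ⟨p ^ (p - 1) * z ^ p - r j, ?_⟩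
      have h := hstep j
      rw [hz, mul_pow] at h
      have hpp : (p : R) ^ p = p * p ^ (p - 1) := by
        rw [← pow_succ', Nat.sub_add_cancel hpf.out.one_lt.le]
      rw [hpp] at h
      linear_combination -h
  have hp1 : p - 1 ≠ 0 := by have := hpf.out.two_le; omega
  have hpp : (p : R) ^ p = p * p ^ (p - 1) := by
    rw [← pow_succ', Nat.sub_add_cancel hpf.out.one_lt.le]
  refine ⟨p ^ (p - 1) * x₁ ^ p - r 0, ?_, ?_⟩
  · have h := hstep 0
    rw [hy0, mul_pow, hpp] at h
    have h1 : y 1 = MvPolynomial.aeval (fun i => τ i ^ p) X := by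
      rw [hy]; simp
    rw [← h1]
    linear_combination -h
  · obtain ⟨f', rfl⟩ : ∃ f', f = f' + 1 := ⟨f - 1, by omega⟩
    obtain ⟨z, hz⟩ := hdvd f'
    have h := hstep f'
    rw [hz, hyf, mul_pow, hpp] at h
    have h2 : (p : R) * (x₁ - (p ^ (p - 1) * z ^ p - r f')) = 0 := by linear_combination -h
    have h3 : x₁ = p ^ (p - 1) * z ^ p - r f' := by
      rcases mul_eq_zero.1 h2 with h4 | h4
      · exact absurd h4 hp0
      · exact sub_eq_zero.1 h4
    have h5 : red x₁ = -red (r f') := by
      rw [h3, map_sub, map_mul, map_pow, hredp, zero_pow hp1, zero_mul, zero_sub]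
    rw [h5, map_sub, map_mul, map_pow, hredp, zero_pow hp1, zero_mul, zero_sub, ← hr0,
      ← hstep' f']
    have h6 : (-red (r f')) ^ p = -(red (r f') ^ p) := by
      have := map_neg (frobenius k p) (red (r f'))
      simpa [frobenius_def] using this
    exact h6.symm

end sums

section polys

open Polynomial

variable {R k : Type*} [CommRing R] [IsDomain R] [Field k] {p : ℕ} [hpf : Fact p.Prime]
  [CharP k p] (red : R →+* k)

/-- The Teichmüller splitting of a polynomial. -/
structure TSplit (R : Type*) [CommRing R] (p : ℕ) (U : R[X]) where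
  T : R[X]
  V : R[X]
  eq : U = T + C (p : R) * V
  teich : ∀ i, ∃ f : ℕ, 0 < f ∧ T.coeff i ^ p ^ f = T.coeff i

/-- the coefficientwise Frobenius -/
noncomputable def sig {R : Type*} [CommRing R] (p : ℕ) (T : R[X]) : R[X] :=
  ∑ i ∈ T.support, C (T.coeff i ^ p) * X ^ i

theorem exists_sharp (T : R[X]) : ∃ g : R[X], T ^ p = expand R p (sig p T) + C (p : R) * g := by
  obtain ⟨g, hg⟩ := sum_pow_prime (S := R[X]) hpf.out T.support
    (fun i => C (T.coeff i) * X ^ i)
  refine ⟨g, ?_⟩
  rw [← T.as_sum_support_C_mul_X_pow] at hg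
  rw [hg, sig, map_sum]
  congr 1
  refine Finset.sum_congr rfl fun i _ => ?_
  rw [map_mul, expand_C, map_pow (expand R p), expand_X, map_pow C, mul_pow, ← pow_mul,
    ← pow_mul, mul_comm i p]

/-- the sharp polynomial -/
noncomputable def sharp {R : Type*} [CommRing R] [IsDomain R] {p : ℕ} [hpf : Fact p.Prime]
    (T : R[X]) : R[X] := (exists_sharp (p := p) T).choose

theorem sharp_spec (T : R[X]) :
    T ^ p = expand R p (sig p T) + C (p : R) * sharp (p := p) T :=
  (exists_sharp (p := p) T).choose_spec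

theorem sig_map (T : R[X]) : (sig p T).map red = (T.map red).map (frobenius k p) := by
  unfold sig
  rw [Polynomial.map_sum]
  conv_rhs => rw [T.as_sum_support_C_mul_X_pow]
  rw [Polynomial.map_sum, Polynomial.map_sum]
  refine Finset.sum_congr rfl fun i _ => ?_
  simp [frobenius_def]

theorem sharp_derivative (hp0 : (p : R) ≠ 0) (T : R[X]) :
    derivative ((sharp (p := p) T).map red) =
      (T.map red) ^ (p - 1) * derivative (T.map red) -
        X ^ (p - 1) * derivative (T.map red) ^ p := by
  have h := congrArg derivative (sharp_spec (p := p) T)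
  rw [derivative_pow, derivative_add, derivative_expand, derivative_C_mul] at h
  have h2 : C (p : R) * (T ^ (p - 1) * derivative T - X ^ (p - 1) *
      expand R p (derivative (sig p T)) - derivative (sharp (p := p) T)) = 0 := by
    simp only [map_natCast] at h ⊢
    linear_combination h
  have hCp : (C (p : R) : R[X]) ≠ 0 := fun h => hp0 (C_eq_zero.1 h)
  have h3 : derivative (sharp (p := p) T) = T ^ (p - 1) * derivative T - X ^ (p - 1) *
      expand R p (derivative (sig p T)) := by
    rcases mul_eq_zero.1 h2 with h4 | h4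
    · exact absurd h4 hCp
    · exact (sub_eq_zero.1 h4).symm
  rw [derivative_map, h3]
  simp only [Polynomial.map_sub, Polynomial.map_mul, Polynomial.map_pow, Polynomial.map_X]
  rw [← derivative_map]
  congr 2
  rw [Polynomial.map_expand, ← derivative_map, sig_map, derivative_map, ← Polynomial.map_expand,
    map_frobenius_expand]

end polys

end Pool.Agent.Y226
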