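import Mathlib

/-!
# p-adic basics: the ring of almost unramified elements
-/

set_option autoImplicit false
set_option linter.unusedSectionVars false

open Polynomial

namespace Pool.Agent.Y226

variable {C : Type} [NormedField C] [IsUltrametricDist C]

theorem nadd (x y : C) : ‖x + y‖ ≤ max ‖x‖ ‖y‖ := IsUltrametricDist.norm_add_le_max x y

theorem nadd_le {x y : C} {r : ℝ} (hx : ‖x‖ ≤ r) (hy : ‖y‖ ≤ r) : ‖x + y‖ ≤ r :=
  (nadd x y).trans (max_le hx hy)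

theorem nadd_lt {x y : C} {r : ℝ} (hx : ‖x‖ < r) (hy : ‖y‖ < r) : ‖x + y‖ < r :=
  (nadd x y).trans_lt (max_lt hx hy)

theorem nsub_le {x y : C} {r : ℝ} (hx : ‖x‖ ≤ r) (hy : ‖y‖ ≤ r) : ‖x - y‖ ≤ r := by
  rw [sub_eq_add_neg]; exact nadd_le hx (by rwa [norm_neg])

theorem nsub_lt {x y : C} {r : ℝ} (hx : ‖x‖ < r) (hy : ‖y‖ < r) : ‖x - y‖ < r := by
  rw [sub_eq_add_neg]; exact nadd_lt hx (by rwa [norm_neg])

theorem nmul_le {x y : C} {r : ℝ} (hx : ‖x‖ ≤ 1) (hy : ‖y‖ ≤ r) : ‖x * y‖ ≤ r := by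
  rw [norm_mul]
  calc ‖x‖ * ‖y‖ ≤ 1 * ‖y‖ := by gcongr
    _ ≤ r := by rwa [one_mul]

theorem nmul_le' {x y : C} {r : ℝ} (hx : ‖x‖ ≤ r) (hy : ‖y‖ ≤ 1) : ‖x * y‖ ≤ r := by
  rw [mul_comm]; exact nmul_le hy hx

theorem npow_le {x : C} (hx : ‖x‖ ≤ 1) (n : ℕ) : ‖x ^ n‖ ≤ 1 := by
  rw [norm_pow]; exact pow_le_one₀ (norm_nonneg _) hx

theorem nnat (n : ℕ) : ‖(n : C)‖ ≤ 1 := by
  induction n with
  | zero => simp
  | succ n ih => rw [Nat.cast_succ]; exact nadd_le ih (by simp)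

theorem nint (n : ℤ) : ‖(n : C)‖ ≤ 1 := by
  rcases Int.eq_nat_or_neg n with ⟨m, rfl | rfl⟩
  · simpa using nnat (C := C) m
  · simpa using nnat (C := C) m

theorem nsum_le {ι : Type*} (s : Finset ι) (f : ι → C) {r : ℝ} (hr : 0 ≤ r)
    (h : ∀ i ∈ s, ‖f i‖ ≤ r) : ‖∑ i ∈ s, f i‖ ≤ r :=
  IsUltrametricDist.norm_sum_le_of_forall_le_of_nonneg hr h

theorem nprod_le {ι : Type*} (s : Finset ι) (f : ι → C)
    (h : ∀ i ∈ s, ‖f i‖ ≤ 1) : ‖∏ i ∈ s, f i‖ ≤ 1 := by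
  rw [norm_prod]
  exact Finset.prod_le_one (fun _ _ => norm_nonneg _) h

theorem neq_of_sub_lt {x y : C} (h : ‖x - y‖ < ‖y‖) : ‖x‖ = ‖y‖ := by
  have h1 : x = (x - y) + y := by ring
  rw [h1, IsUltrametricDist.norm_add_eq_max_of_norm_ne_norm h.ne, max_eq_right h.le]

theorem neq_of_add_lt {x y : C} (h : ‖y‖ < ‖x‖) : ‖x + y‖ = ‖x‖ := by
  rw [IsUltrametricDist.norm_add_eq_max_of_norm_ne_norm h.ne', max_eq_left h.le]

theorem neq_one {x y : C} (h : ‖x - y‖ < 1) (hy : ‖y‖ = 1) : ‖x‖ = 1 := by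
  rw [← hy] at h ⊢; exact neq_of_sub_lt h

/-- congruences pass to powers -/
theorem npow_sub_pow {x y : C} {δ : ℝ} (hx : ‖x‖ ≤ 1) (hy : ‖y‖ ≤ 1) (h : ‖x - y‖ ≤ δ) (n : ℕ) :
    ‖x ^ n - y ^ n‖ ≤ δ := by
  have h0 : 0 ≤ δ := (norm_nonneg _).trans h
  rw [← (Commute.all x y).geom_sum₂_mul, mul_comm]
  refine nmul_le' h ?_
  refine nsum_le _ _ zero_le_one fun i _ => ?_
  exact nmul_le (npow_le hx _) (npow_le hy _)

theorem nmul_sub_mul {x y x' y' : C} {δ : ℝ} (hx : ‖x‖ ≤ 1) (hy' : ‖y'‖ ≤ 1)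
    (h : ‖x - x'‖ ≤ δ) (h' : ‖y - y'‖ ≤ δ) : ‖x * y - x' * y'‖ ≤ δ := by
  have : x * y - x' * y' = x * (y - y') + (x - x') * y' := by ring
  rw [this]
  exact nadd_le (nmul_le hx h') (nmul_le' h hy')

theorem nprod_sub_prod {ι : Type*} (s : Finset ι) (f g : ι → C) {δ : ℝ} (hδ : 0 ≤ δ)
    (hf : ∀ i ∈ s, ‖f i‖ ≤ 1) (hg : ∀ i ∈ s, ‖g i‖ ≤ 1) (h : ∀ i ∈ s, ‖f i - g i‖ ≤ δ) :
    ‖∏ i ∈ s, f i - ∏ i ∈ s, g i‖ ≤ δ := by
  classical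
  induction s using Finset.induction_on with
  | empty => simpa using hδ
  | insert a s ha ih =>
    rw [Finset.prod_insert ha, Finset.prod_insert ha]
    refine nmul_sub_mul (hf a (Finset.mem_insert_self _ _)) ?_ (h a (Finset.mem_insert_self _ _)) ?_
    · exact nprod_le _ _ fun i hi => hg i (Finset.mem_insert_of_mem hi)
    · exact ih (fun i hi => hf i (Finset.mem_insert_of_mem hi))
        (fun i hi => hg i (Finset.mem_insert_of_mem hi))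
        (fun i hi => h i (Finset.mem_insert_of_mem hi))

variable (C) in
/-- the valuation ring -/
def OO : Subring C where
  carrier := {x | ‖x‖ ≤ 1}
  mul_mem' := fun {a b} ha hb => nmul_le (r := 1) ha hb
  one_mem' := by simp
  add_mem' := fun {a b} ha hb => nadd_le ha hb
  zero_mem' := by simp
  neg_mem' := fun {a} ha => by simpa using ha

theorem mem_OO {x : C} : x ∈ OO C ↔ ‖x‖ ≤ 1 := Iff.rfl

/-- the binomial congruence -/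
theorem nadd_pow_prime {p : ℕ} (hp : p.Prime) {x y : C} (hx : ‖x‖ ≤ 1) (hy : ‖y‖ ≤ 1) (n : ℕ) :
    ∃ r : C, ‖r‖ ≤ 1 ∧ (x + y) ^ p ^ n = x ^ p ^ n + y ^ p ^ n + p * x * y * r := by
  obtain ⟨r, hr⟩ := exists_add_pow_prime_pow_eq hp (⟨x, hx⟩ : OO C) ⟨y, hy⟩ n
  exact ⟨r, r.2, by simpa using congrArg Subtype.val hr⟩

variable (p : ℕ) [hpf : Fact p.Prime]

/-- iterating the Frobenius congruence -/
theorem frob_iter {x : C} (hx : ‖x‖ ≤ 1) {f : ℕ} {δ : ℝ} (h : ‖x ^ p ^ f - x‖ ≤ δ) (m : ℕ) :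
    ‖x ^ p ^ (f * m) - x‖ ≤ δ := by
  have hδ : 0 ≤ δ := (norm_nonneg _).trans h
  induction m with
  | zero => simpa using hδ
  | succ m ih =>
    have e : x ^ p ^ (f * (m + 1)) - x =
        ((x ^ p ^ (f * m)) ^ p ^ f - x ^ p ^ f) + (x ^ p ^ f - x) := by
      rw [mul_add, mul_one, pow_add, pow_mul]; ring
    rw [e]
    exact nadd_le (npow_sub_pow (npow_le hx _) hx ih _) h

/-- The subring of elements which are Frobenius-periodic modulo `p`. -/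
def Nr (C : Type) [NormedField C] [IsUltrametricDist C] (p : ℕ) [hpf : Fact p.Prime] :
    Subring C where
  carrier := {x | ‖x‖ ≤ 1 ∧ ∃ f : ℕ, 0 < f ∧ ‖x ^ p ^ f - x‖ ≤ ‖(p : C)‖}
  mul_mem' := by
    rintro a b ⟨ha, f, hf, hf'⟩ ⟨hb, g, hg, hg'⟩
    refine ⟨nmul_le ha hb, f * g, Nat.mul_pos hf hg, ?_⟩
    have h1 := frob_iter p ha hf' g
    have h2 := frob_iter p hb hg' f
    rw [mul_comm g f] at h2
    rw [mul_pow]
    exact nmul_sub_mul (npow_le ha _) hb h1 h2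
  one_mem' := ⟨by simp, 1, one_pos, by simp⟩
  add_mem' := by
    rintro a b ⟨ha, f, hf, hf'⟩ ⟨hb, g, hg, hg'⟩
    refine ⟨nadd_le ha hb, f * g, Nat.mul_pos hf hg, ?_⟩
    have h1 := frob_iter p ha hf' g
    have h2 := frob_iter p hb hg' f
    rw [mul_comm g f] at h2
    obtain ⟨r, hr, he⟩ := nadd_pow_prime hpf.out ha hb (f * g)
    have e : (a + b) ^ p ^ (f * g) - (a + b) =
        ((a ^ p ^ (f * g) - a) + (b ^ p ^ (f * g) - b)) + p * a * b * r := by rw [he]; ring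
    rw [e]
    exact nadd_le (nadd_le h1 h2) (nmul_le' (nmul_le' (nmul_le' le_rfl ha) hb) hr)
  zero_mem' := ⟨by simp, 1, one_pos, by simp [hpf.out.ne_zero]⟩
  neg_mem' := by
    rintro a ⟨ha, f, hf, hf'⟩
    refine ⟨by simpa using ha, f, hf, ?_⟩
    rcases hpf.out.eq_two_or_odd' with h2 | hodd
    · subst h2
      have e : (-a) ^ 2 ^ f - -a = (a ^ 2 ^ f - a) + (2 : ℕ) * a := by
        rw [Even.neg_pow ((Nat.even_pow).2 ⟨even_two, hf.ne'⟩)]; push_cast; ring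
      rw [e]
      exact nadd_le hf' (nmul_le' le_rfl ha)
    · have e : (-a) ^ p ^ f - -a = -(a ^ p ^ f - a) := by
        rw [Odd.neg_pow hodd.pow]; ring
      rw [e, norm_neg]
      exact hf'

theorem mem_Nr {x : C} : x ∈ Nr C p ↔ ‖x‖ ≤ 1 ∧ ∃ f : ℕ, 0 < f ∧ ‖x ^ p ^ f - x‖ ≤ ‖(p : C)‖ :=
  Iff.rfl

variable {p}

theorem Nr_le {x : C} (h : x ∈ Nr C p) : ‖x‖ ≤ 1 := h.1

theorem npow_lt {x : C} (hx : ‖x‖ < 1) {n : ℕ} (hn : n ≠ 0) : ‖x ^ n‖ < 1 := by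
  rw [norm_pow]; exact pow_lt_one₀ (norm_nonneg _) hx hn

/-- the norm gap -/
theorem Nr_gap {x : C} (h : x ∈ Nr C p) (hx : ‖x‖ < 1) : ‖x‖ ≤ ‖(p : C)‖ := by
  obtain ⟨-, f, hf, h2⟩ := h
  have hpf1 : 1 < p ^ f := Nat.one_lt_pow hf.ne' hpf.out.one_lt
  have e : x ^ p ^ f - x = x * (x ^ (p ^ f - 1) - 1) := by
    rw [mul_sub, mul_one, ← pow_succ', Nat.sub_add_cancel hpf1.le]
  rw [e, norm_mul] at h2
  have h3 : ‖x ^ (p ^ f - 1) - 1‖ = 1 := by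
    have := neq_of_sub_lt (x := x ^ (p ^ f - 1) - 1) (y := -1) (by
      rw [sub_neg_eq_add, sub_add_cancel, norm_neg, norm_one]
      exact npow_lt hx (by omega))
    rwa [norm_neg, norm_one] at this
  rwa [h3, mul_one] at h2

theorem Nr_inv {x : C} (h : x ∈ Nr C p) (hx : ‖x‖ = 1) : x⁻¹ ∈ Nr C p := by
  obtain ⟨-, f, hf, h2⟩ := h
  have hx0 : x ≠ 0 := norm_pos_iff.1 (by rw [hx]; exact one_pos)
  refine ⟨by rw [norm_inv, hx, inv_one], f, hf, ?_⟩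
  have e : x⁻¹ ^ p ^ f - x⁻¹ = -((x ^ p ^ f - x) * (x⁻¹ ^ p ^ f * x⁻¹)) := by
    have e1 : x * x⁻¹ = 1 := mul_inv_cancel₀ hx0
    have e2 : x ^ p ^ f * x⁻¹ ^ p ^ f = 1 := by rw [← mul_pow, e1, one_pow]
    linear_combination x⁻¹ * e2 - x⁻¹ ^ p ^ f * e1
  rw [e, norm_neg]
  refine nmul_le' h2 (nmul_le (npow_le ?_ _) ?_) <;> rw [norm_inv, hx, inv_one]

/-- roots of unity of order prime to `p` -/
theorem Nr_of_fixed {x : C} {f : ℕ} (hf : 0 < f) (h : x ^ p ^ f = x) : x ∈ Nr C p := by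
  have hpf1 : 1 < p ^ f := Nat.one_lt_pow hf.ne' hpf.out.one_lt
  refine ⟨?_, f, hf, by rw [h]; simp⟩
  by_contra hcon
  push Not at hcon
  have h1 : ‖x‖ ^ p ^ f = ‖x‖ := by rw [← norm_pow, h]
  have h2 : ‖x‖ ^ 1 < ‖x‖ ^ p ^ f := pow_lt_pow_right₀ hcon hpf1
  rw [h1, pow_one] at h2
  exact lt_irrefl _ h2

theorem fixed_of_pow_eq_one {x : C} {m : ℕ} (hm : m.Coprime p) (h : x ^ m = 1) :
    ∃ f : ℕ, 0 < f ∧ x ^ p ^ f = x := by
  rcases Nat.eq_zero_or_pos m with rfl | hm0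
  · exact absurd (Nat.coprime_zero_left p |>.1 hm) hpf.out.one_lt.ne'
  refine ⟨m.totient, Nat.totient_pos.2 hm0, ?_⟩
  have h1 : p ^ m.totient ≡ 1 [MOD m] := Nat.ModEq.pow_totient hm.symm
  have h2 : m ∣ p ^ m.totient - 1 := (Nat.modEq_iff_dvd' (Nat.one_le_pow _ _ hpf.out.pos)).1 h1.symm
  obtain ⟨k, hk⟩ := h2
  have h3 : p ^ m.totient = m * k + 1 := by
    have := Nat.one_le_pow m.totient p hpf.out.pos
    omega
  rw [h3, pow_succ, pow_mul, h, one_pow, one_mul]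

theorem natCast_mem_Nr (n : ℕ) : (n : C) ∈ Nr C p := natCast_mem _ n

/-- the group of elements congruent to almost unramified units modulo elements of norm `≤ θ` -/
def GG (C : Type) [NormedField C] [IsUltrametricDist C] (p : ℕ) [hpf : Fact p.Prime] (θ : ℝ)
    (h0 : 0 ≤ θ) (h1 : θ < 1) : Subgroup Cˣ where
  carrier := {x | ∃ w ∈ Nr C p, ‖w‖ = 1 ∧ ‖(x : C) - w‖ ≤ θ}
  mul_mem' := by
    rintro a b ⟨w, hw, hw1, hwa⟩ ⟨v, hv, hv1, hva⟩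
    refine ⟨w * v, mul_mem hw hv, by rw [norm_mul, hw1, hv1, one_mul], ?_⟩
    rw [Units.val_mul]
    exact nmul_sub_mul (neq_one (hwa.trans_lt h1) hw1).le hv1.le hwa hva
  one_mem' := ⟨1, one_mem _, norm_one, by simpa using h0⟩
  inv_mem' := by
    rintro a ⟨w, hw, hw1, hwa⟩
    refine ⟨w⁻¹, Nr_inv hw hw1, by rw [norm_inv, hw1, inv_one], ?_⟩
    have ha1 := neq_one (hwa.trans_lt h1) hw1
    have hw0 : w ≠ 0 := norm_pos_iff.1 (by rw [hw1]; exact one_pos)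
    have e : ((a⁻¹ : Cˣ) : C) - w⁻¹ = -(((a : C) - w) * ((a : C)⁻¹ * w⁻¹)) := by
      rw [Units.val_inv_eq_inv_val]
      field_simp
      ring
    rw [e, norm_neg]
    refine nmul_le' hwa ?_
    rw [norm_mul, norm_inv, norm_inv, ha1, hw1, inv_one, one_mul]

theorem mem_GG {θ : ℝ} {h0 : 0 ≤ θ} {h1 : θ < 1} {x : Cˣ} :
    x ∈ GG C p θ h0 h1 ↔ ∃ w ∈ Nr C p, ‖w‖ = 1 ∧ ‖(x : C) - w‖ ≤ θ := Iff.rfl

theorem GG_norm {θ : ℝ} {h0 : 0 ≤ θ} {h1 : θ < 1} {x : Cˣ} (h : x ∈ GG C p θ h0 h1) :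
    ‖(x : C)‖ = 1 := by
  obtain ⟨w, -, hw, hwa⟩ := h
  exact neq_one (hwa.trans_lt h1) hw

theorem GG_mono {θ θ' : ℝ} {h0 : 0 ≤ θ} {h1 : θ < 1} {h0' : 0 ≤ θ'} {h1' : θ' < 1} (hle : θ ≤ θ')
    {x : Cˣ} (h : x ∈ GG C p θ h0 h1) : x ∈ GG C p θ' h0' h1' := by
  obtain ⟨w, hw, hw1, hwa⟩ := h
  exact ⟨w, hw, hw1, hwa.trans hle⟩

theorem GG_pow_p {θ θ' : ℝ} {h0 : 0 ≤ θ} {h1 : θ < 1} {h0' : 0 ≤ θ'} {h1' : θ' < 1}
    (hle : θ ^ p ≤ θ') (hle' : ‖(p : C)‖ * θ ≤ θ')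
    {x : Cˣ} (h : x ∈ GG C p θ h0 h1) : x ^ p ∈ GG C p θ' h0' h1' := by
  obtain ⟨w, hw, hw1, hwa⟩ := h
  refine ⟨w ^ p, pow_mem hw _, by rw [norm_pow, hw1, one_pow], ?_⟩
  obtain ⟨r, hr, he⟩ := nadd_pow_prime hpf.out (x := w) (y := (x : C) - w) hw1.le
    (hwa.trans h1.le) 1
  rw [pow_one, add_sub_cancel] at he
  rw [Units.val_pow_eq_pow_val, he]
  have e : w ^ p + ((x : C) - w) ^ p + p * w * ((x : C) - w) * r - w ^ p =
    ((x : C) - w) ^ p + p * w * ((x : C) - w) * r := by ring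
  rw [e]
  refine nadd_le ?_ ?_
  · rw [norm_pow]
    exact (pow_le_pow_left₀ (norm_nonneg _) hwa p).trans hle
  · refine nmul_le' ?_ hr
    rw [norm_mul]
    refine le_trans ?_ hle'
    gcongr
    exact nmul_le' le_rfl hw1.le

/-- `p`-power powers of elements of `GG` -/
theorem GG_pow_pow {θ : ℝ} {h0 : 0 ≤ θ} {h1 : θ < 1} (hpos : 0 < θ) (k : ℕ) {θ' : ℝ}
    {h0' : 0 ≤ θ'} {h1' : θ' < 1} (hθ' : θ ^ p ^ k ≤ θ')
    (hle : ∀ i < k, ‖(p : C)‖ ≤ θ ^ (p ^ i * (p - 1)))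
    {x : Cˣ} (h : x ∈ GG C p θ h0 h1) : x ^ p ^ k ∈ GG C p θ' h0' h1' := by
  induction k generalizing θ' with
  | zero =>
    rw [pow_zero, pow_one] at hθ' ⊢
    exact GG_mono hθ' h
  | succ k ih =>
    have hlt : θ ^ p ^ k < 1 := pow_lt_one₀ h0 h1 (pow_pos hpf.out.pos k).ne'
    have h2 := ih (θ' := θ ^ p ^ k) (h0' := by positivity) (h1' := hlt) le_rfl
      (fun i hi => hle i (by omega))
    rw [pow_succ, pow_mul]
    refine GG_pow_p ?_ ?_ h2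
    · rwa [← pow_mul, ← pow_succ]
    · refine le_trans ?_ hθ'
      have h3 := hle k (by omega)
      calc ‖(p : C)‖ * θ ^ p ^ k ≤ θ ^ (p ^ k * (p - 1)) * θ ^ p ^ k := by gcongr
        _ = θ ^ p ^ (k + 1) := by
          rw [← pow_add, pow_succ]
          congr 1
          have := hpf.out.one_lt
          obtain ⟨q, rfl⟩ : ∃ q, p = q + 1 := ⟨p - 1, by omega⟩
          rw [Nat.add_sub_cancel]
          ring

end Pool.Agent.Y226
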