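import Pool.Agent.Y226.ZP.LocalMain

/-!
# Embeddings of the algebraic numbers and large primes
-/

set_option autoImplicit false
set_option linter.unusedSectionVars false

open Polynomial

namespace Pool.Agent.Y226

/-- the field of algebraic numbers -/
noncomputable abbrev QA : IntermediateField ℚ ℂ := algebraicClosure ℚ ℂ

theorem mem_QA {x : ℂ} : x ∈ QA ↔ IsAlgebraic ℚ x := mem_algebraicClosure_iff

instance : IsAlgClosed QA := (algebraicClosure.isAlgClosure ℚ ℂ).isAlgClosed

instance : Algebra.IsAlgebraic ℚ QA := algebraicClosure.isAlgebraic ℚ ℂ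

theorem algZ {x : ℂ} (h : IsAlgebraic ℚ x) : IsAlgebraic ℤ x :=
  (IsFractionRing.isAlgebraic_iff ℤ ℚ ℂ).2 h

theorem int_hom {R : Type*} [NonAssocRing R] (f g : ℤ →+* R) : f = g := RingHom.ext_int f g

/-- the inclusion of the algebraic integers -/
noncomputable def iA : ZZ →+* QA where
  toFun z := ⟨(z : ℂ), mem_QA.2 ((z.2 : IsIntegral ℤ (z : ℂ)).tower_top (A := ℚ)).isAlgebraic⟩
  map_one' := rfl
  map_mul' _ _ := rfl
  map_zero' := rfl
  map_add' _ _ := rfl

/-- the inclusion into the complex numbers -/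
noncomputable def rA : QA →+* ℂ := algebraMap QA ℂ

theorem rA_apply (x : QA) : rA x = (x : ℂ) := rfl

theorem rA_comp : rA.comp iA = ιZ := rfl

theorem exists_padic (p : ℕ) [hp : Fact p.Prime] : ∃ (C : Type) (_ : NormedField C)
    (_ : IsUltrametricDist C) (_ : CompleteSpace C) (_ : CharZero C) (_ : IsAlgClosed C)
    (_ : QA →+* C), ‖(p : C)‖ = (p : ℝ)⁻¹ := by
  refine ⟨ℂ_[p], inferInstance, inferInstance, inferInstance, inferInstance, inferInstance,
    (IsAlgClosed.lift (R := ℚ) (S := QA) (M := ℂ_[p])).toRingHom, ?_⟩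
  have h := PadicComplex.norm_extends' (p := p) (p : ℚ_[p])
  rw [Padic.norm_p] at h
  rw [← h]
  congr 1
  simp

section

variable {C : Type} [NormedField C] [IsUltrametricDist C]

/-- integral elements have norm at most one -/
theorem norm_le_one_of_integral {x : C} {P : ℤ[X]} (hP : P.Monic)
    (h : P.eval₂ (Int.castRingHom C) x = 0) : ‖x‖ ≤ 1 := by
  by_contra hcon
  push Not at hcon
  rw [eval₂_eq_sum_range, Finset.sum_range_succ, hP.coeff_natDegree] at h
  have hx0 : x ≠ 0 := norm_pos_iff.1 (one_pos.trans hcon)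
  have hn : P.natDegree ≠ 0 := by
    intro h0
    rw [h0] at h
    simp at h
  obtain ⟨m, hm⟩ : ∃ m, P.natDegree = m + 1 := ⟨P.natDegree - 1, by omega⟩
  rw [hm] at h
  have h1 : x ^ (m + 1) = -∑ i ∈ Finset.range (m + 1), (Int.castRingHom C) (P.coeff i) * x ^ i := by
    simp only [map_one, one_mul] at h
    linear_combination h
  have h2 : ‖x ^ (m + 1)‖ ≤ ‖x‖ ^ m := by
    rw [h1, norm_neg]
    refine nsum_le _ _ (by positivity) fun i hi => ?_
    rw [norm_mul, norm_pow]
    have h3 : ‖(Int.castRingHom C) (P.coeff i)‖ ≤ 1 := nint _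
    calc ‖(Int.castRingHom C) (P.coeff i)‖ * ‖x‖ ^ i ≤ 1 * ‖x‖ ^ m := by
          gcongr
          · exact hcon.le
          · exact Nat.lt_succ_iff.1 (Finset.mem_range.1 hi)
      _ = ‖x‖ ^ m := one_mul _
  rw [norm_pow] at h2
  have h3 : ‖x‖ ^ m < ‖x‖ ^ (m + 1) := pow_lt_pow_right₀ hcon (Nat.lt_succ_self m)
  exact absurd h2 (not_le.2 h3)

theorem norm_le_one_of_isIntegral {K : Type*} [Field K] (φ : K →+* C) {x : K}
    (h : IsIntegral ℤ x) : ‖φ x‖ ≤ 1 := by
  obtain ⟨P, hP, hPx⟩ := h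
  refine norm_le_one_of_integral hP ?_
  have h1 := congrArg φ hPx
  rw [map_zero, hom_eval₂, int_hom (φ.comp _) (Int.castRingHom C)] at h1
  exact h1

theorem psi_norm (φ : QA →+* C) (z : ZZ) : ‖(φ.comp iA) z‖ ≤ 1 := by
  apply norm_le_one_of_isIntegral φ (x := iA z)
  obtain ⟨P, hP, hPz⟩ : IsIntegral ℤ (z : ℂ) := z.2
  refine ⟨P, hP, ?_⟩
  apply rA.injective
  rw [hom_eval₂, map_zero, int_hom (rA.comp _) (algebraMap ℤ ℂ)]
  exact hPz

variable {p : ℕ} [hpf : Fact p.Prime]

theorem int_unit (hp1 : ‖(p : C)‖ < 1) {a : ℤ} (ha : ¬ (p : ℤ) ∣ a) : ‖(a : C)‖ = 1 := by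
  have hco : IsCoprime a (p : ℤ) := by
    rw [Int.isCoprime_iff_nat_coprime, Int.natAbs_natCast, Nat.coprime_comm,
      Nat.Prime.coprime_iff_not_dvd hpf.out]
    intro h
    exact ha (Int.natCast_dvd.2 h)
  obtain ⟨u, v, huv⟩ := hco
  have h2 : (u : C) * (a : C) - 1 = -(v * p) := by
    have := congrArg (Int.cast : ℤ → C) huv
    push_cast at this
    linear_combination this
  have h3 : ‖(u : C) * (a : C)‖ = 1 := by
    refine neq_one (y := 1) ?_ norm_one
    rw [h2, norm_neg]
    exact (nmul_le (nint v) le_rfl).trans_lt hp1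
  rw [norm_mul] at h3
  have h4 := nint (C := C) u
  have h5 := nint (C := C) a
  have h6 := norm_nonneg (u : C)
  have h7 := norm_nonneg (a : C)
  nlinarith

theorem int_large {a : ℤ} (ha : a ≠ 0) (h : a.natAbs < p) : ¬ (p : ℤ) ∣ a := by
  intro hd
  have := Nat.le_of_dvd (Int.natAbs_pos.2 ha) (Int.natCast_dvd.1 hd)
  omega

end

/-- algebraic numbers are `p`-integral for large `p` -/
theorem integral_large (α : QA) : ∃ D : ℕ, ∀ (p : ℕ) [Fact p.Prime], D < p → ∀ (C : Type)
    [NormedField C] [IsUltrametricDist C] (φ : QA →+* C), ‖(p : C)‖ < 1 → ‖φ α‖ ≤ 1 := by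
  have h1 : IsAlgebraic ℤ (α : ℂ) := algZ (mem_QA.1 α.2)
  obtain ⟨a, ha, hint⟩ := h1.exists_integral_multiple
  refine ⟨a.natAbs, fun p _ hp C _ _ φ hp1 => ?_⟩
  have h2 : ‖φ (a * α)‖ ≤ 1 := by
    apply norm_le_one_of_isIntegral φ
    obtain ⟨P, hP, hPz⟩ := hint
    refine ⟨P, hP, ?_⟩
    apply rA.injective
    have : rA (a * α) = a • (α : ℂ) := by
      rw [map_mul, map_intCast, rA_apply, zsmul_eq_mul]
    rw [hom_eval₂, map_zero, this, int_hom (rA.comp _) (algebraMap ℤ ℂ)]
    exact hPz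
  rw [map_mul, map_intCast, norm_mul, int_unit hp1 (int_large ha hp), one_mul] at h2
  exact h2

section RT

variable {C : Type} [NormedField C] [IsUltrametricDist C] {p : ℕ} [hpf : Fact p.Prime]

/-- elements of the residue field algebraic over the prime field -/
theorem frob_periodic {k : Type} [Field k] [CharP k p] {x : k} {h : ℤ[X]}
    (hh : h.map (Int.castRingHom (ZMod p)) ≠ 0) (hx : h.eval₂ (Int.castRingHom k) x = 0) :
    ∃ f : ℕ, 0 < f ∧ x ^ p ^ f = x := by
  letI : Algebra (ZMod p) k := ZMod.algebra k p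
  have halg : IsAlgebraic (ZMod p) x := by
    refine ⟨h.map (Int.castRingHom (ZMod p)), hh, ?_⟩
    rw [aeval_def, eval₂_map, int_hom (RingHom.comp _ _) (Int.castRingHom k)]
    exact hx
  have hint : IsIntegral (ZMod p) x := halg.isIntegral
  set F := IntermediateField.adjoin (ZMod p) {x} with hF
  haveI : FiniteDimensional (ZMod p) F := IntermediateField.adjoin.finiteDimensional hint
  haveI : Finite F := Module.finite_of_finite (ZMod p)
  haveI : Fintype F := Fintype.ofFinite F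
  have hcard : Fintype.card F = p ^ Module.finrank (ZMod p) F := by
    rw [Module.card_eq_pow_finrank (K := ZMod p) (V := F), ZMod.card]
  refine ⟨Module.finrank (ZMod p) F, Module.finrank_pos, ?_⟩
  have hxF : x ∈ F := IntermediateField.mem_adjoin_simple_self (ZMod p) x
  have h1 := FiniteField.pow_card (⟨x, hxF⟩ : F)
  rw [hcard] at h1
  exact congrArg Subtype.val h1

/-- an integral polynomial not vanishing modulo `p` -/
theorem exists_primitive_int (α : QA) : ∃ h : ℤ[X], h.IsPrimitive ∧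
    h.eval₂ (Int.castRingHom QA) α = 0 := by
  have h1 : IsAlgebraic ℤ (α : ℂ) := algZ (mem_QA.1 α.2)
  obtain ⟨h, hh, hα⟩ := h1
  refine ⟨h.primPart, h.isPrimitive_primPart, ?_⟩
  have h2 : h.eval₂ (Int.castRingHom QA) α = 0 := by
    apply rA.injective
    rw [hom_eval₂, map_zero, int_hom (rA.comp _) (algebraMap ℤ ℂ)]
    exact hα
  rw [h.eq_C_content_mul_primPart, eval₂_mul, eval₂_C] at h2
  rcases mul_eq_zero.1 h2 with h3 | h3
  · exfalso
    have h4 : h.content ≠ 0 := by rwa [Ne, content_eq_zero_iff]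
    apply h4
    have : ((h.content : ℤ) : QA) = 0 := h3
    exact_mod_cast this
  · exact h3

theorem primitive_map_ne {h : ℤ[X]} (hh : h.IsPrimitive) :
    h.map (Int.castRingHom (ZMod p)) ≠ 0 := by
  intro h0
  have h1 : C (p : ℤ) ∣ h := by
    rw [C_dvd_iff_dvd_coeff]
    intro i
    have := congrArg (fun f => coeff f i) h0
    simp only [coeff_map, coeff_zero] at this
    rw [← ZMod.intCast_zmod_eq_zero_iff_dvd]
    exact this
  have h2 := hh _ h1
  rw [Int.isUnit_iff] at h2
  have := hpf.out.one_lt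
  omega

/-- Teichmüller points near algebraic points -/
theorem exists_near [IsAlgClosed C] (hp1 : ‖(p : C)‖ < 1) (φ : QA →+* C) (α : QA)
    (hα : ‖φ α‖ ≤ 1) : ∃ (t₀ : C) (f : ℕ), 0 < f ∧ t₀ ^ p ^ f = t₀ ∧ ‖φ α - t₀‖ < 1 := by
  obtain ⟨h, hh, hhα⟩ := exists_primitive_int α
  obtain ⟨k, hk1, hk2, red, hker⟩ := exists_residue (C := C) (p := p) hp1
  set x : OO C := ⟨φ α, hα⟩ with hx
  have h1 : h.eval₂ (Int.castRingHom (OO C)) x = 0 := by
    apply Subtype.ext
    have h2 := hom_eval₂ h (Int.castRingHom (OO C)) (OO C).subtype x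
    have h3 : h.eval₂ (Int.castRingHom C) (φ α) = 0 := by
      have h4 := congrArg φ hhα
      rw [map_zero, hom_eval₂, int_hom (φ.comp _) (Int.castRingHom C)] at h4
      exact h4
    show (OO C).subtype _ = 0
    rw [h2, int_hom ((OO C).subtype.comp _) (Int.castRingHom C)]
    exact h3
  have h2 : h.eval₂ (Int.castRingHom k) (red x) = 0 := by
    have h3 := congrArg red h1
    rw [map_zero, hom_eval₂, int_hom (red.comp _) (Int.castRingHom k)] at h3
    exact h3
  obtain ⟨f, hf, hff⟩ := frob_periodic (p := p) (primitive_map_ne hh) h2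
  have h3 : ‖φ α ^ p ^ f - φ α‖ < 1 := by
    have : red (x ^ p ^ f - x) = 0 := by rw [map_sub, map_pow, hff, sub_self]
    rw [hker] at this
    exact this
  obtain ⟨ζ, hζ, hlt⟩ := exists_fixed hf h3
  exact ⟨ζ, f, hf, hζ, hlt⟩

end RT

end Pool.Agent.Y226
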