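import Pool.Agent.Y226.ZP.Emb

/-!
# Construction of the local data for large primes
-/

set_option autoImplicit false
set_option linter.unusedSectionVars false

open Polynomial

namespace Pool.Agent.Y226

section

variable {C : Type} [NormedField C] [IsUltrametricDist C] {p : ℕ} [hpf : Fact p.Prime]

/-- the Frobenius congruence for integral polynomials -/
theorem int_frob (h : ℤ[X]) {x : C} (hx : ‖x‖ ≤ 1) :
    ‖h.eval₂ (Int.castRingHom C) x ^ p - h.eval₂ (Int.castRingHom C) (x ^ p)‖ ≤ ‖(p : C)‖ := by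
  have h1 : Polynomial.C (p : ℤ) ∣ h ^ p - expand ℤ p h := by
    rw [C_dvd_iff_dvd_coeff]
    intro i
    rw [← ZMod.intCast_zmod_eq_zero_iff_dvd]
    have h2 : (h ^ p - expand ℤ p h).map (Int.castRingHom (ZMod p)) = 0 := by
      rw [Polynomial.map_sub, Polynomial.map_pow, map_expand, ZMod.expand_card, sub_self]
    have h3 := congrArg (fun f => coeff f i) h2
    simp only [coeff_map, coeff_zero] at h3
    exact h3
  obtain ⟨g, hg⟩ := h1
  have h2 := congrArg (eval₂ (Int.castRingHom C) x) hg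
  have h3 : eval₂ (Int.castRingHom C) x (expand ℤ p h) = eval₂ (Int.castRingHom C) (x ^ p) h := by
    rw [eval₂_eq_eval_map, map_expand, expand_eval, ← eval₂_eq_eval_map]
  rw [eval₂_sub, eval₂_pow, eval₂_mul, eval₂_C, h3] at h2
  rw [h2]
  refine nmul_le' ?_ ?_
  · simp
  · rw [eval₂_eq_sum_range]
    refine nsum_le _ _ zero_le_one fun i _ => nmul_le (nint _) (npow_le hx _)

theorem eval₂_sub_le (h : ℤ[X]) {x y : C} {δ : ℝ} (hx : ‖x‖ ≤ 1) (hy : ‖y‖ ≤ 1)
    (hxy : ‖x - y‖ ≤ δ) :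
    ‖h.eval₂ (Int.castRingHom C) x - h.eval₂ (Int.castRingHom C) y‖ ≤ δ := by
  rw [eval₂_eq_sum_range, eval₂_eq_sum_range, ← Finset.sum_sub_distrib]
  refine nsum_le _ _ ((norm_nonneg _).trans hxy) fun i _ => ?_
  rw [← mul_sub]
  exact nmul_le (nint _) (npow_sub_pow hx hy hxy i)

/-- a simple root is almost unramified -/
theorem Nr_of_simple_root (hp1 : ‖(p : C)‖ < 1) (h : ℤ[X]) {x : C} (hx : ‖x‖ ≤ 1)
    (h0 : h.eval₂ (Int.castRingHom C) x = 0)
    (h1 : ‖(derivative h).eval₂ (Int.castRingHom C) x‖ = 1) {t₀ : C} {f : ℕ} (hf : 0 < f)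
    (ht₀ : t₀ ^ p ^ f = t₀) (hnear : ‖x - t₀‖ < 1) : x ∈ Nr C p := by
  have hz : ∀ m, ‖h.eval₂ (Int.castRingHom C) (x ^ p ^ m)‖ ≤ ‖(p : C)‖ := by
    intro m
    induction m with
    | zero => rw [pow_zero, pow_one, h0, norm_zero]; exact norm_nonneg _
    | succ m ih =>
      have h2 := int_frob (p := p) h (npow_le hx (p ^ m))
      rw [pow_succ, pow_mul]
      have h3 : h.eval₂ (Int.castRingHom C) ((x ^ p ^ m) ^ p) =
          h.eval₂ (Int.castRingHom C) (x ^ p ^ m) ^ p -
          (h.eval₂ (Int.castRingHom C) (x ^ p ^ m) ^ p -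
            h.eval₂ (Int.castRingHom C) ((x ^ p ^ m) ^ p)) := by ring
      rw [h3]
      refine nsub_le ?_ h2
      rw [norm_pow]
      refine (pow_le_pow_left₀ (norm_nonneg _) ih p).trans ?_
      exact pow_le_of_le_one (norm_nonneg _) hp1.le hpf.out.ne_zero
  refine ⟨hx, f, hf, ?_⟩
  set y := x ^ p ^ f with hy
  have hyn : ‖y‖ ≤ 1 := npow_le hx _
  have ht₀n : ‖t₀‖ ≤ 1 := (Nr_of_fixed hf ht₀).1
  have hyx : ‖y - x‖ < 1 := by
    have e : y - x = (x ^ p ^ f - t₀ ^ p ^ f) - (x - t₀) := by rw [ht₀]; ring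
    rw [e]
    exact nsub_lt ((npow_sub_pow hx ht₀n le_rfl _).trans_lt hnear) hnear
  by_contra hcon
  push Not at hcon
  -- Taylor expansion
  set H : (OO C)[X] := h.map (Int.castRingHom (OO C)) with hH
  set xO : OO C := ⟨x, hx⟩ with hxO
  set yO : OO C := ⟨y, hyn⟩ with hyO
  obtain ⟨c, hc⟩ := binomExpansion H xO (yO - xO)
  rw [add_sub_cancel] at hc
  have hval : ∀ (g : ℤ[X]) (z : OO C), (((g.map (Int.castRingHom (OO C))).eval z : OO C) : C) =
      g.eval₂ (Int.castRingHom C) (z : C) := by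
    intro g z
    rw [eval_map]
    have := hom_eval₂ g (Int.castRingHom (OO C)) (OO C).subtype z
    rw [int_hom ((OO C).subtype.comp _) (Int.castRingHom C)] at this
    exact this
  have hcC := congrArg (Subtype.val) hc
  rw [hH, derivative_map] at hcC
  have hcC' : h.eval₂ (Int.castRingHom C) y = h.eval₂ (Int.castRingHom C) x +
      (derivative h).eval₂ (Int.castRingHom C) x * (y - x) + (c : C) * (y - x) ^ 2 := by
    rw [← hval h yO, ← hval h xO, ← hval (derivative h) xO]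
    exact hcC
  rw [h0, zero_add] at hcC'
  have h5 : ‖(derivative h).eval₂ (Int.castRingHom C) x * (y - x)‖ = ‖y - x‖ := by
    rw [norm_mul, h1, one_mul]
  have h6 : (derivative h).eval₂ (Int.castRingHom C) x * (y - x) =
      h.eval₂ (Int.castRingHom C) y - (c : C) * (y - x) ^ 2 := by rw [hcC']; ring
  have h7 : ‖(derivative h).eval₂ (Int.castRingHom C) x * (y - x)‖ < ‖y - x‖ := by
    rw [h6]
    refine nsub_lt ((hz f).trans_lt hcon) ?_
    refine lt_of_le_of_lt (nmul_le c.2 le_rfl) ?_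
    rw [norm_pow, sq]
    have h8 : 0 < ‖y - x‖ := (norm_nonneg _).trans_lt hcon
    nlinarith
  rw [h5] at h7
  exact lt_irrefl _ h7

end

/-- a polynomial of minimal degree -/
theorem exists_min_poly (α : QA) : ∃ h : ℤ[X], h ≠ 0 ∧ h.eval₂ (Int.castRingHom QA) α = 0 ∧
    (derivative h).eval₂ (Int.castRingHom QA) α ≠ 0 := by
  classical
  have hex : ∃ m : ℕ, ∃ h : ℤ[X], h ≠ 0 ∧ h.eval₂ (Int.castRingHom QA) α = 0 ∧
      h.natDegree = m := by
    obtain ⟨h, hh, hα⟩ := exists_primitive_int α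
    exact ⟨_, h, hh.ne_zero, hα, rfl⟩
  obtain ⟨h, hh, hα, hdeg⟩ := Nat.find_spec hex
  refine ⟨h, hh, hα, fun hd => ?_⟩
  have hn0 : h.natDegree ≠ 0 := by
    intro h0
    rw [eq_C_of_natDegree_eq_zero h0, eval₂_C] at hα
    have h2 : ((h.coeff 0 : ℤ) : QA) = 0 := hα
    have h3 : h.coeff 0 = 0 := by exact_mod_cast h2
    apply hh
    rw [eq_C_of_natDegree_eq_zero h0, h3, C_0]
  have hd0 : derivative h ≠ 0 := by
    intro h0
    exact hn0 (natDegree_eq_zero_of_derivative_eq_zero h0)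
  have hlt : (derivative h).natDegree < h.natDegree := natDegree_derivative_lt hn0
  rw [hdeg] at hlt
  exact Nat.find_min hex hlt ⟨derivative h, hd0, hd, rfl⟩

/-- algebraic numbers are almost unramified for large `p` -/
theorem nr_large (α : QA) : ∃ D : ℕ, ∀ (p : ℕ) [Fact p.Prime], D < p → ∀ (C : Type)
    [NormedField C] [IsUltrametricDist C] [IsAlgClosed C] (φ : QA →+* C), ‖(p : C)‖ < 1 →
    φ α ∈ Nr C p := by
  obtain ⟨h, hh, hα, hd⟩ := exists_min_poly α
  obtain ⟨D₁, hD₁⟩ := integral_large α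
  obtain ⟨D₂, hD₂⟩ := integral_large ((derivative h).eval₂ (Int.castRingHom QA) α)⁻¹
  refine ⟨D₁ + D₂, fun p _ hp C _ _ _ φ hp1 => ?_⟩
  have h1 := hD₁ p (by omega) C φ hp1
  have h2 := hD₂ p (by omega) C φ hp1
  obtain ⟨t₀, f, hf, ht₀, hnear⟩ := exists_near hp1 φ α h1
  have h3 : h.eval₂ (Int.castRingHom C) (φ α) = 0 := by
    have := congrArg φ hα
    rwa [map_zero, hom_eval₂, int_hom (φ.comp _) (Int.castRingHom C)] at this
  have h4 : φ ((derivative h).eval₂ (Int.castRingHom QA) α) =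
      (derivative h).eval₂ (Int.castRingHom C) (φ α) := by
    rw [hom_eval₂, int_hom (φ.comp _) (Int.castRingHom C)]
  refine Nr_of_simple_root hp1 h h1 h3 ?_ hf ht₀ hnear
  rw [map_inv₀, norm_inv, h4] at h2
  refine le_antisymm ?_ ?_
  · rw [eval₂_eq_sum_range]
    exact nsum_le _ _ zero_le_one fun i _ => nmul_le (nint _) (npow_le h1 _)
  · have hpos : 0 < ‖(derivative h).eval₂ (Int.castRingHom C) (φ α)‖ := by
      rw [norm_pos_iff, ← h4]
      exact (map_ne_zero φ).2 hd
    exact (inv_le_one₀ hpos).1 h2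

/-- for polynomials -/
theorem nr_large_poly (P : QA[X]) : ∃ D : ℕ, ∀ (p : ℕ) [Fact p.Prime], D < p → ∀ (C : Type)
    [NormedField C] [IsUltrametricDist C] [IsAlgClosed C] (φ : QA →+* C), ‖(p : C)‖ < 1 →
    P.map φ ∈ PS (Nr C p) := by
  choose D hD using nr_large
  refine ⟨∑ i ∈ P.support, D (P.coeff i), fun p _ hp C _ _ _ φ hp1 => ?_⟩
  rw [mem_PS]
  intro i
  rw [coeff_map]
  by_cases hi : i ∈ P.support
  · refine hD _ p (lt_of_le_of_lt ?_ hp) C φ hp1
    exact Finset.single_le_sum (f := fun i => D (P.coeff i)) (fun _ _ => Nat.zero_le _) hi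
  · rw [notMem_support_iff.1 hi, map_zero]
    exact zero_mem _

/-- construction of the local data -/
theorem exists_pdata {n d : ℕ} (a b : Fin n → QA[X]) (ha : ∀ i, (a i).natDegree ≤ d)
    (hb : ∀ i, (b i).natDegree ≤ d) (hc : ∀ i, IsCoprime (a i) (b i))
    (hc' : ∀ i j, i ≠ j → IsCoprime (a i * b i) (a j * b j))
    (hr : ∀ i, ∃ x, (a i * b i).eval x = 0) :
    ∃ D : ℕ, ∀ (p : ℕ) [Fact p.Prime], D < p → ∀ (C : Type)
    [NormedField C] [IsUltrametricDist C] [IsAlgClosed C] (φ : QA →+* C), ‖(p : C)‖ < 1 →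
    ∃ 𝒟 : PData C p n d, (∀ i, 𝒟.A i = (a i).map φ) ∧ (∀ i, 𝒟.B i = (b i).map φ) := by
  choose Dp hDp using nr_large_poly
  choose Di hDi using integral_large
  choose u v huv using hc
  have hc2 : ∀ i j, ∃ u v : QA[X], i ≠ j → u * (a i * b i) + v * (a j * b j) = 1 := by
    intro i j
    by_cases h : i = j
    · exact ⟨0, 0, fun h' => absurd h h'⟩
    · obtain ⟨u, v, huv⟩ := hc' i j h
      exact ⟨u, v, fun _ => huv⟩
  choose u' v' huv' using hc2
  choose x hx using hr
  refine ⟨(∑ i, (Dp (a i) + Dp (b i) + Dp (u i) + Dp (v i) + Di (x i))) +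
    ∑ i, ∑ j, (Dp (u' i j) + Dp (v' i j)), fun p _ hp C _ _ _ φ hp1 => ?_⟩
  have hle1 : ∀ i, Dp (a i) + Dp (b i) + Dp (u i) + Dp (v i) + Di (x i) < p := by
    intro i
    have := Finset.single_le_sum (f := fun i => Dp (a i) + Dp (b i) + Dp (u i) + Dp (v i) + Di (x i))
      (fun _ _ => Nat.zero_le _) (Finset.mem_univ i)
    omega
  have hle2 : ∀ i j, Dp (u' i j) + Dp (v' i j) < p := by
    intro i j
    have h1 := Finset.single_le_sum (f := fun j => Dp (u' i j) + Dp (v' i j))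
      (fun _ _ => Nat.zero_le _) (Finset.mem_univ j)
    have h2 := Finset.single_le_sum (f := fun i => ∑ j, (Dp (u' i j) + Dp (v' i j)))
      (fun _ _ => Nat.zero_le _) (Finset.mem_univ i)
    omega
  have hbz : ∀ {U V F G : QA[X]}, U * F + V * G = 1 → U.map φ ∈ PS (Nr C p) →
      V.map φ ∈ PS (Nr C p) → F.map φ ∈ PS (Nr C p) → G.map φ ∈ PS (Nr C p) →
      ∀ z : C, ‖z‖ ≤ 1 → ‖(F.map φ).eval z‖ = 1 ∨ ‖(G.map φ).eval z‖ = 1 := by
    intro U V F G hUV hU hV hF hG z hz
    by_contra hcon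
    push Not at hcon
    have h1 : ‖(F.map φ).eval z‖ < 1 :=
      lt_of_le_of_ne (eval_norm_le (PS_Nr_le hF) hz) hcon.1
    have h2 : ‖(G.map φ).eval z‖ < 1 :=
      lt_of_le_of_ne (eval_norm_le (PS_Nr_le hG) hz) hcon.2
    have h3 := congrArg (fun P => (P.map φ).eval z) hUV
    simp only [Polynomial.map_add, Polynomial.map_mul, eval_add, eval_mul, Polynomial.map_one,
      eval_one] at h3
    have h4 : ‖(1 : C)‖ < 1 := by
      rw [← h3]
      refine nadd_lt ?_ ?_
      · exact (nmul_le (eval_norm_le (PS_Nr_le hU) hz) le_rfl).trans_lt h1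
      · exact (nmul_le (eval_norm_le (PS_Nr_le hV) hz) le_rfl).trans_lt h2
    rw [norm_one] at h4
    exact lt_irrefl _ h4
  have hA : ∀ i, (a i).map φ ∈ PS (Nr C p) := fun i =>
    hDp (a i) p (by have := hle1 i; omega) C φ hp1
  have hB : ∀ i, (b i).map φ ∈ PS (Nr C p) := fun i =>
    hDp (b i) p (by have := hle1 i; omega) C φ hp1
  refine ⟨{ A := fun i => (a i).map φ
            B := fun i => (b i).map φ
            hA := hA
            hB := hB
            dA := fun i => natDegree_map_le.trans (ha i)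
            dB := fun i => natDegree_map_le.trans (hb i)
            g1 := ?_
            g2 := ?_
            g3 := ?_ }, fun _ => rfl, fun _ => rfl⟩
  · intro z hz i j hij
    have h1 := hbz (huv' i j hij) (hDp _ p (by have := hle2 i j; omega) C φ hp1)
      (hDp _ p (by have := hle2 i j; omega) C φ hp1)
      (by rw [Polynomial.map_mul]; exact mul_mem (hA i) (hB i))
      (by rw [Polynomial.map_mul]; exact mul_mem (hA j) (hB j)) z hz
    simpa only [Polynomial.map_mul, eval_mul] using h1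
  · intro z hz i
    exact hbz (huv i) (hDp _ p (by have := hle1 i; omega) C φ hp1)
      (hDp _ p (by have := hle1 i; omega) C φ hp1) (hA i) (hB i) z hz
  · intro i
    refine ⟨φ (x i), hDi (x i) p (by have := hle1 i; omega) C φ hp1, ?_⟩
    have h1 := congrArg φ (hx i)
    rw [map_zero, eval_mul, map_mul, ← eval_map_apply, ← eval_map_apply] at h1
    rw [h1, norm_zero]
    exact one_pos

end Pool.Agent.Y226
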