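import Pool.Agent.Y226.ZP.Tame
import Pool.Agent.Y226.ZP.Modular

/-!
# The local statement: bounded isogeny degree
-/

set_option autoImplicit false
set_option linter.unusedSectionVars false

open UpperHalfPlane H294ZP Polynomial

namespace Pool.Agent.Y226

variable {C : Type} [NormedField C] [IsUltrametricDist C] [CompleteSpace C] [CharZero C]
  [IsAlgClosed C]
variable {p : ℕ} [hpf : Fact p.Prime]
variable {ψ : ZZ →+* C} {K₀ : Type} [Field K₀] {i₀ : ZZ →+* K₀} {ρ : K₀ →+* ℂ} {φ : K₀ →+* C}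

namespace PData

variable {n d : ℕ} (𝒟 : PData C p n d)

theorem coord_good {Λ : Cˣ} {X : Fin n → K₀} {t : C}
    (hX : ∀ i, (𝒟.B i).eval t * φ (X i) = Λ * (𝒟.A i).eval t) {Y : Fin n → Cˣ} {j : Fin n}
    (hj : 𝒟.Val t Y j) : φ (X j) = Λ * Y j := by
  obtain ⟨⟨-, hB⟩, hY⟩ := hj
  have hB0 : (𝒟.B j).eval t ≠ 0 := norm_pos_iff.1 (by rw [hB]; exact one_pos)
  apply mul_left_cancel₀ hB0
  rw [hX j, hY]
  ring

theorem Y_norm {t : C} {Y : Fin n → Cˣ} {j : Fin n} (hj : 𝒟.Val t Y j) : ‖((Y j : Cˣ) : C)‖ = 1 := by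
  obtain ⟨⟨hA, hB⟩, hY⟩ := hj
  rw [hY, norm_mul, hB, mul_one] at hA
  exact hA

/-- the relation between two good coordinates of the same class -/
theorem pair_info (hψ : ∀ z, ‖ψ z‖ ≤ 1) (hρ : ρ.comp i₀ = ιZ) (hφ : φ.comp i₀ = ψ)
    (hp0 : 0 < ‖(p : C)‖) (hp1 : ‖(p : C)‖ < 1) {Λ : Cˣ} {e : ℕ} (he : 0 < e)
    (hΛn : ‖(Λ : C)‖ = ‖(p : C)‖⁻¹ ^ e) {κ : OO C} (hκ : (p : C) * κ * Λ = ψ (cj 1))
    {X : Fin n → K₀} {t : C}
    (hX : ∀ i, (𝒟.B i).eval t * φ (X i) = Λ * (𝒟.A i).eval t) {Y : Fin n → Cˣ} {j k : Fin n}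
    (hj : 𝒟.Val t Y j) (hk : 𝒟.Val t Y k) {τ w : ℍ} {a b c d' : ℤ} (hdet : 0 < a * d' - b * c)
    (hw : (w : ℂ) * (c * τ + d') = a * τ + b) (hjτ : ρ (X j) = jj τ) (hkw : ρ (X k) = jj w) :
    ∃ (g' s : ℕ) (ζ' ε : Cˣ), 0 < g' ∧ g'.Coprime p ∧ IsPrimitiveRoot (ζ' : C) g' ∧
      IsPrimitiveRoot (ε : C) (p ^ s) ∧
      ‖((Y k * (Y j)⁻¹ * (ζ' * ε) : Cˣ) : C) -
        (1 + p * κ * (((Y k : Cˣ) : C)⁻¹ - ((Y j : Cˣ) : C)⁻¹))‖ ≤ ‖(p : C)‖ ^ 2 ∧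
      PsiE ιZ (mP ((g' * p ^ s) ^ 2)) (mD ((g' * p ^ s) ^ 2)) (ρ (X j)) (ρ (X k)) = 0 := by
  have hxj := 𝒟.coord_good hX hj
  have hxk := 𝒟.coord_good hX hk
  have hYj := 𝒟.Y_norm hj
  have hYk := 𝒟.Y_norm hk
  have hpe : ‖(p : C)‖ ^ e < 1 := pow_lt_one₀ (norm_nonneg _) hp1 he.ne'
  have hpe0 : 0 < ‖(p : C)‖ ^ e := pow_pos hp0 e
  have hΛ1 : 1 < ‖(Λ : C)‖ := by
    rw [hΛn, inv_pow]; exact (one_lt_inv₀ hpe0).2 hpe
  have hnj : ‖φ (X j)‖ = ‖(Λ : C)‖ := by rw [hxj, norm_mul, hYj, mul_one]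
  have hnk : ‖φ (X k)‖ = ‖(Λ : C)‖ := by rw [hxk, norm_mul, hYk, mul_one]
  have hj1 : 1 < ‖φ (X j)‖ := by rw [hnj]; exact hΛ1
  have hk1 : 1 < ‖φ (X k)‖ := by rw [hnk]; exact hΛ1
  obtain ⟨A, B, g, ζ, hA, hB, hAB, hg, hζ, hq, -, hΨ⟩ :=
    tate_rel hψ hρ hφ hdet hw hjτ hkw hj1
  -- `A = B = 1`
  have hζn : ‖ζ‖ = 1 := by
    have h1 : ‖ζ‖ ^ g = 1 := by rw [← norm_pow, hζ.pow_eq_one, norm_one]
    exact (pow_eq_one_iff_of_nonneg (norm_nonneg _) hg.ne').1 h1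
  have hABe : A = B := by
    have h1 := congrArg norm hq
    rw [norm_mul, norm_pow, norm_pow, hζn, one_mul, qT_norm hψ hk1, qT_norm hψ hj1, hnj, hnk] at h1
    have h2 : 0 < ‖(Λ : C)‖⁻¹ := inv_pos.2 (one_pos.trans hΛ1)
    have h3 : ‖(Λ : C)‖⁻¹ < 1 := inv_lt_one_of_one_lt₀ hΛ1
    exact (pow_right_injective₀ h2 h3.ne h1).symm
  subst hABe
  have hA1 : A = 1 := by
    have := hAB
    rwa [Nat.coprime_self] at this
  subst hA1
  rw [pow_one, pow_one] at hq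
  obtain ⟨g', s, ζ', ε, hgg, hg'p, hζ', hε, hζe⟩ := root_decomp (p := p) hg hζ
  have hg'0 : 0 < g' := Nat.pos_of_ne_zero (by
    rintro rfl
    rw [zero_mul] at hgg
    omega)
  have hζ'0 : ζ' ≠ 0 := hζ'.ne_zero hg'0.ne'
  have hε0 : ε ≠ 0 := hε.ne_zero (pow_pos hpf.out.pos _).ne'
  refine ⟨g', s, Units.mk0 ζ' hζ'0, Units.mk0 ε hε0, hg'0, hg'p, hζ', hε, ?_, ?_⟩
  · -- second order expansion
    set qj := qT ψ (φ (X j)) with hqj
    set qk := qT ψ (φ (X k)) with hqk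
    have ej := qT_expand hψ hj1
    have ek := qT_expand hψ hk1
    have ej' := qT_expand' hψ hj1
    rw [← hqj] at ej ej'
    rw [← hqk] at ek
    rw [hnj] at ej ej'
    rw [hnk] at ek
    have hΛinv : ‖(Λ : C)‖⁻¹ = ‖(p : C)‖ ^ e := by rw [hΛn, inv_pow, inv_inv]
    rw [hΛinv] at ej ej' ek
    have hpe2 : (‖(p : C)‖ ^ e) ^ 2 ≤ ‖(p : C)‖ ^ 2 := by
      apply pow_le_pow_left₀ hpe0.le
      exact pow_le_of_le_one (norm_nonneg _) hp1.le he.ne'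
    have hpe1 : ‖(p : C)‖ ^ e ≤ ‖(p : C)‖ := pow_le_of_le_one (norm_nonneg _) hp1.le he.ne'
    have hxj0 : φ (X j) ≠ 0 := norm_pos_iff.1 (one_pos.trans hj1)
    have hxk0 : φ (X k) ≠ 0 := norm_pos_iff.1 (one_pos.trans hk1)
    have hqj0 : qj ≠ 0 := qT_ne hψ hj1
    have hΛ0 : (Λ : C) ≠ 0 := Λ.ne_zero
    set uj := qj * φ (X j) with huj
    set uk := qk * φ (X k) with huk
    have huj1 : ‖uj‖ = 1 := neq_one (ej'.trans_lt (hpe1.trans_lt hp1)) norm_one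
    have huj0 : uj ≠ 0 := norm_pos_iff.1 (by rw [huj1]; exact one_pos)
    set cj' : C := ψ (cj 1) * (φ (X j))⁻¹ with hcj'
    set ck' : C := ψ (cj 1) * (φ (X k))⁻¹ with hck'
    have hYj0 : ((Y j : Cˣ) : C) ≠ 0 := (Y j).ne_zero
    have hYk0 : ((Y k : Cˣ) : C) ≠ 0 := (Y k).ne_zero
    have e1 : (p : C) * κ * (((Y k : Cˣ) : C)⁻¹ - ((Y j : Cˣ) : C)⁻¹) = ck' - cj' := by
      rw [hcj', hck', ← hκ, hxj, hxk]
      field_simp
    have hcn : ‖ck' - cj'‖ ≤ ‖(p : C)‖ := by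
      rw [← e1, mul_assoc]
      refine nmul_le' le_rfl (nmul_le κ.2 (nsub_le ?_ ?_))
      · rw [norm_inv, hYk, inv_one]
      · rw [norm_inv, hYj, inv_one]
    have e2 : ((Y k * (Y j)⁻¹ * (Units.mk0 ζ' hζ'0 * Units.mk0 ε hε0) : Cˣ) : C) = uk * uj⁻¹ := by
      rw [Units.val_mul, Units.val_mul, Units.val_mul, Units.val_inv_eq_inv_val, Units.val_mk0,
        Units.val_mk0, ← hζe, huk, huj, hq, hxj, hxk]
      field_simp
    rw [e1, e2]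
    have e3 : uk * uj⁻¹ - (1 + (ck' - cj')) =
        ((uk - (1 + ck')) - (uj - (1 + cj')) - (uj - 1) * (ck' - cj')) * uj⁻¹ := by
      field_simp
      ring
    rw [e3]
    refine nmul_le' (nsub_le (nsub_le (ek.trans hpe2) (ej.trans hpe2)) ?_) ?_
    · rw [norm_mul, sq]
      have := norm_nonneg (uj - 1)
      gcongr
      exact ej'.trans hpe1
    · rw [norm_inv, huj1, inv_one]
  · rw [hjτ, hkw]
    rw [one_mul, one_mul] at hΨ
    rw [← hgg]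
    exact hΨ

/-- membership in `GG` from the expansion -/
theorem pair_GG (hp1 : ‖(p : C)‖ < 1) {κ : OO C} {t : C} {Y : Fin n → Cˣ} {j k : Fin n}
    (hj : 𝒟.Val t Y j) (hk : 𝒟.Val t Y k) {g' : ℕ} (hg' : 0 < g') (hcop : g'.Coprime p)
    {ζ' ε : Cˣ} (hζ' : IsPrimitiveRoot (ζ' : C) g')
    (h : ‖((Y k * (Y j)⁻¹ * (ζ' * ε) : Cˣ) : C) -
        (1 + p * κ * (((Y k : Cˣ) : C)⁻¹ - ((Y j : Cˣ) : C)⁻¹))‖ ≤ ‖(p : C)‖ ^ 2) :
    Y k * (Y j)⁻¹ * ε ∈ GG C p ‖(p : C)‖ (norm_nonneg _) hp1 := by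
  have hYj := 𝒟.Y_norm hj
  have hYk := 𝒟.Y_norm hk
  have h1 : Y k * (Y j)⁻¹ * (ζ' * ε) ∈ GG C p ‖(p : C)‖ (norm_nonneg _) hp1 := by
    refine GG_of_close (one_mem _) norm_one ?_
    have e1 : ((Y k * (Y j)⁻¹ * (ζ' * ε) : Cˣ) : C) - 1 =
        (((Y k * (Y j)⁻¹ * (ζ' * ε) : Cˣ) : C) -
        (1 + p * κ * (((Y k : Cˣ) : C)⁻¹ - ((Y j : Cˣ) : C)⁻¹))) +
        p * (κ * (((Y k : Cˣ) : C)⁻¹ - ((Y j : Cˣ) : C)⁻¹)) := by ring
    rw [e1]
    refine nadd_le (h.trans (pow_le_of_le_one (norm_nonneg _) hp1.le two_ne_zero)) ?_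
    refine nmul_le' le_rfl (nmul_le κ.2 (nsub_le ?_ ?_))
    · rw [norm_inv, hYk, inv_one]
    · rw [norm_inv, hYj, inv_one]
  have h2 : ζ' ∈ GG C p ‖(p : C)‖ (norm_nonneg _) hp1 := by
    obtain ⟨f', hf', hff⟩ := fixed_of_pow_eq_one hcop hζ'.pow_eq_one
    refine GG_of_close (w := (ζ' : C)) (Nr_of_fixed hf' hff) ?_ (by simp)
    have h1 : ‖(ζ' : C)‖ ^ g' = 1 := by rw [← norm_pow, hζ'.pow_eq_one, norm_one]
    exact (pow_eq_one_iff_of_nonneg (norm_nonneg _) hg'.ne').1 h1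
  have e2 : Y k * (Y j)⁻¹ * ε = (Y k * (Y j)⁻¹ * (ζ' * ε)) * ζ'⁻¹ := by
    have : (Y k * (Y j)⁻¹ * (ζ' * ε)) * ζ'⁻¹ = (Y k * (Y j)⁻¹ * ε) * (ζ' * ζ'⁻¹) := by ac_rfl
    rw [this, mul_inv_cancel, mul_one]
  rw [e2]
  exact mul_mem h1 (inv_mem h2)

/-- the order of tame torsion is bounded when `t` reduces to a root of a fixed polynomial -/
theorem tame_bound (hp1 : ‖(p : C)‖ < 1) {k : Type} [Field k] [CharP k p] (red : OO C →+* k)
    (hker : ∀ x : OO C, red x = 0 ↔ ‖(x : C)‖ < 1) {Pp : k[X]} (hPp : Pp ≠ 0) :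
    ∃ G : ℕ, ∀ (t : OO C), Pp.eval (red t) = 0 → ∀ (Y : Fin n → Cˣ) (j l : Fin n),
      𝒟.Val (t : C) Y j → 𝒟.Val (t : C) Y l → ∀ (g' : ℕ) (ζ' : Cˣ), 0 < g' → g'.Coprime p →
      IsPrimitiveRoot (ζ' : C) g' → ‖((Y l * (Y j)⁻¹ * ζ' : Cˣ) : C) - 1‖ < 1 → g' ≤ G := by
  classical
  let c : k → Fin n → Fin n → k := fun x j l =>
    (((𝒟.aO j).map red).eval x * ((𝒟.bO l).map red).eval x) /
      (((𝒟.bO j).map red).eval x * ((𝒟.aO l).map red).eval x)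
  refine ⟨∑ x ∈ Pp.roots.toFinset, ∑ j, ∑ l, orderOf (c x j l), ?_⟩
  intro t ht Y j l hj hl g' ζ' hg' hcop hζ' hclose
  have hmem : red t ∈ Pp.roots.toFinset := by
    rw [Multiset.mem_toFinset, mem_roots hPp]; exact ht
  have h1 : ‖(ζ' : C)‖ ^ g' = 1 := by rw [← norm_pow, hζ'.pow_eq_one, norm_one]
  have hζn : ‖(ζ' : C)‖ = 1 := (pow_eq_one_iff_of_nonneg (norm_nonneg _) hg'.ne').1 h1
  set Z : OO C := ⟨(ζ' : C), hζn.le⟩ with hZ
  have hord : orderOf (red Z) = g' := by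
    refine IsPrimitiveRoot.eq_orderOf ?_ |>.symm
    refine ⟨?_, fun m hm => ?_⟩
    · rw [← map_pow]
      have : Z ^ g' = 1 := Subtype.ext hζ'.pow_eq_one
      rw [this, map_one]
    · apply hζ'.dvd_of_pow_eq_one
      rw [← map_pow, ← sub_eq_zero, ← map_one red, ← map_sub, hker] at hm
      have hm' : ‖(ζ' : C) ^ m - 1‖ < 1 := hm
      refine tame_eq_one (m := g') ?_ ?_ hm'
      · -- `g'` is a unit
        have hco : IsCoprime (g' : ℤ) (p : ℤ) := Nat.isCoprime_iff_coprime.2 hcop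
        obtain ⟨u, v, huv⟩ := hco
        have h2 : (u : C) * (g' : C) - 1 = -(v * p) := by
          have := congrArg (Int.cast : ℤ → C) huv
          push_cast at this
          linear_combination this
        have h3 : ‖(u : C) * (g' : C)‖ = 1 := by
          refine neq_one (y := 1) ?_ norm_one
          rw [h2, norm_neg]
          exact (nmul_le (nint v) le_rfl).trans_lt hp1
        rw [norm_mul] at h3
        have h4 := nint (C := C) u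
        have h5 := nnat (C := C) g'
        have h6 := norm_nonneg (u : C)
        have h7 := norm_nonneg (g' : C)
        nlinarith
      · rw [← pow_mul, mul_comm, pow_mul, hζ'.pow_eq_one, one_pow]
  have hval : red Z = c (red t) j l := by
    have hYj := 𝒟.Y_norm hj
    have hYl := 𝒟.Y_norm hl
    obtain ⟨⟨hAj, hBj⟩, hYj'⟩ := hj
    obtain ⟨⟨hAl, hBl⟩, hYl'⟩ := hl
    have haj := red_ne red hker (x := (𝒟.aO j).eval t) (by rw [aO_eval]; exact hAj)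
    have hbj := red_ne red hker (x := (𝒟.bO j).eval t) (by rw [bO_eval]; exact hBj)
    have hal := red_ne red hker (x := (𝒟.aO l).eval t) (by rw [aO_eval]; exact hAl)
    have hbl := red_ne red hker (x := (𝒟.bO l).eval t) (by rw [bO_eval]; exact hBl)
    show red Z = (((𝒟.aO j).map red).eval (red t) * ((𝒟.bO l).map red).eval (red t)) /
      (((𝒟.bO j).map red).eval (red t) * ((𝒟.aO l).map red).eval (red t))
    rw [eval_map_apply, eval_map_apply, eval_map_apply, eval_map_apply,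
      eq_div_iff (mul_ne_zero hbj hal), ← map_mul, ← map_mul, ← map_mul]
    apply red_eq red hker
    show ‖(ζ' : C) * ((((𝒟.bO j).eval t : OO C) : C) * (((𝒟.aO l).eval t : OO C) : C)) -
      (((𝒟.aO j).eval t : OO C) : C) * (((𝒟.bO l).eval t : OO C) : C)‖ < 1
    rw [aO_eval, aO_eval, bO_eval, bO_eval, hYj', hYl']
    have hYj0 : ((Y j : Cˣ) : C) ≠ 0 := (Y j).ne_zero
    have e1 : (ζ' : C) * ((𝒟.B j).eval (t : C) * (Y l * (𝒟.B l).eval (t : C))) -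
        Y j * (𝒟.B j).eval (t : C) * (𝒟.B l).eval (t : C) =
        (((Y l * (Y j)⁻¹ * ζ' : Cˣ) : C) - 1) * (Y j * (𝒟.B j).eval (t : C) *
          (𝒟.B l).eval (t : C)) := by
      rw [Units.val_mul, Units.val_mul, Units.val_inv_eq_inv_val]
      field_simp
    rw [e1, norm_mul, norm_mul, norm_mul, hYj, hBj, hBl]
    simpa using hclose
  rw [← hord, hval]
  calc orderOf (c (red t) j l) ≤ ∑ l, orderOf (c (red t) j l) :=
        Finset.single_le_sum (f := fun l => orderOf (c (red t) j l)) (fun _ _ => Nat.zero_le _)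
          (Finset.mem_univ l)
    _ ≤ ∑ j, ∑ l, orderOf (c (red t) j l) :=
        Finset.single_le_sum (f := fun j => ∑ l, orderOf (c (red t) j l))
          (fun _ _ => Nat.zero_le _) (Finset.mem_univ j)
    _ ≤ _ := Finset.single_le_sum (f := fun x => ∑ j, ∑ l, orderOf (c x j l))
          (fun _ _ => Nat.zero_le _) hmem

end PData

end Pool.Agent.Y226
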