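import Pool.Agent.Y226.ZP.Local

/-!
# The local theorem: a point of an unlikely intersection has two coordinates related by an isogeny
of bounded degree
-/

set_option autoImplicit false
set_option linter.unusedSectionVars false

open UpperHalfPlane H294ZP Polynomial

namespace Pool.Agent.Y226

/-- two coordinates of the same class -/
theorem class_rel {n r : ℕ} (Z : SpecialDatum n r) {x : Fin n → ℂ}
    (hx : x ∈ Z.locus) {i i' : Fin n} {k : Fin r} (hi : Z.cls i = some k)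
    (hi' : Z.cls i' = some k) : ∃ (w w' : ℍ) (a b c d : ℤ), 0 < a * d - b * c ∧
      (w' : ℂ) * (c * w + d) = a * w + b ∧ x i = jj w ∧ x i' = jj w' := by
  obtain ⟨z, hz⟩ := hx
  obtain ⟨w, hw, hxw⟩ := (hz i).2 k hi
  obtain ⟨w', hw', hxw'⟩ := (hz i').2 k hi'
  have hdet := Z.det_pos i
  have hdet' := Z.det_pos i'
  rw [Matrix.det_fin_two] at hdet hdet'
  set a := Z.mat i 0 0
  set b := Z.mat i 0 1
  set c := Z.mat i 1 0
  set d := Z.mat i 1 1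
  set a' := Z.mat i' 0 0
  set b' := Z.mat i' 0 1
  set c' := Z.mat i' 1 0
  set d' := Z.mat i' 1 1
  have hn := denom_ne (z := z k) hdet
  refine ⟨w, w', a' * d - b' * c, -(a' * b) + b' * a, c' * d - d' * c, -(c' * b) + d' * a,
    ?_, ?_, hxw, hxw'⟩
  · have : (a' * d - b' * c) * (-(c' * b) + d' * a) - (-(a' * b) + b' * a) * (c' * d - d' * c) =
        (a * d - b * c) * (a' * d' - b' * c') := by ring
    rw [this]
    exact mul_pos hdet hdet'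
  · have key : (w' : ℂ) * (((c' * d - d' * c : ℤ) : ℂ) * w + ((-(c' * b) + d' * a : ℤ) : ℂ)) *
        ((c : ℂ) * z k + d) =
        (((a' * d - b' * c : ℤ) : ℂ) * w + ((-(a' * b) + b' * a : ℤ) : ℂ)) *
        ((c : ℂ) * z k + d) := by
      push_cast
      linear_combination ((w' : ℂ) * ((c' : ℂ) * d - d' * c) - ((a' : ℂ) * d - b' * c)) * hw +
        ((a : ℂ) * d - b * c) * hw'
    exact mul_right_cancel₀ hn key

/-- collisions -/
theorem coll {n r : ℕ} (cls : Fin n → Option (Fin r)) (S : Finset (Fin n)) (hS : r < S.card)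
    (hn : ∀ x ∈ S, cls x ≠ none) :
    ∃ j ∈ S, ∃ k ∈ S, j ≠ k ∧ ∃ c, cls j = some c ∧ cls k = some c := by
  classical
  let T : Finset (Option (Fin r)) := Finset.univ.image some
  have hT : T.card = r := by
    rw [Finset.card_image_of_injective _ (Option.some_injective _)]
    simp
  obtain ⟨j, hj, k, hk, hjk, he⟩ := Finset.exists_ne_map_eq_of_card_lt_of_maps_to
    (s := S) (t := T) (f := cls) (by rw [hT]; exact hS) (by
      intro x hx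
      obtain ⟨c, hc⟩ := Option.ne_none_iff_exists'.1 (hn x hx)
      rw [hc]
      exact Finset.mem_image_of_mem _ (Finset.mem_univ c))
  obtain ⟨c, hc⟩ := Option.ne_none_iff_exists'.1 (hn j hj)
  exact ⟨j, hj, k, hk, hjk, c, hc, by rw [← he, hc]⟩

variable {C : Type} [NormedField C] [IsUltrametricDist C] [CompleteSpace C] [CharZero C]
  [IsAlgClosed C]
variable {p : ℕ} [hpf : Fact p.Prime]
variable {ψ : ZZ →+* C} {K₀ : Type} [Field K₀] {i₀ : ZZ →+* K₀} {ρ : K₀ →+* ℂ} {φ : K₀ →+* C}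

/-- singular moduli are integral -/
theorem cm_norm (hψ : ∀ z, ‖ψ z‖ ≤ 1) (hρ : ρ.comp i₀ = ιZ) (hφ : φ.comp i₀ = ψ) {x : K₀}
    {τ : ℍ} (hτ : IsCM τ) (hx : ρ x = jj τ) : ‖φ x‖ ≤ 1 := by
  have h1 : IsIntegral ℤ (jj τ) := singular_modulus_integral τ hτ
  have h2 : x = i₀ ⟨jj τ, h1⟩ := by
    apply ρ.injective
    rw [hx, ← RingHom.comp_apply, hρ]
    rfl
  rw [h2, ← RingHom.comp_apply, hφ]
  exact hψ _

namespace PData

variable {n d : ℕ} (𝒟 : PData C p n d)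

theorem local_main (hψ : ∀ z, ‖ψ z‖ ≤ 1) (hρ : ρ.comp i₀ = ιZ) (hφ : φ.comp i₀ = ψ)
    (hpD : 16 * (d + 1) ^ 4 < p) (hp0 : 0 < ‖(p : C)‖) (hp1 : ‖(p : C)‖ < 1) {Λ : Cˣ} {e : ℕ}
    (he : 0 < e) {pu : Cˣ} (hpu : (pu : C) = p)
    (hΛ : Λ * pu ^ (e : ℤ) ∈ GG C p 0 le_rfl one_pos) :
    ∃ G : ℕ, ∀ (X : Fin n → K₀) (t : C), ‖t‖ ≤ 1 →
      (∃ (t₀ : C) (f : ℕ), 0 < f ∧ t₀ ^ p ^ f = t₀ ∧ ‖t - t₀‖ < 1) →
      (∀ i, (𝒟.B i).eval t ≠ 0) →
      (∀ i, (𝒟.B i).eval t * φ (X i) = Λ * (𝒟.A i).eval t) →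
      ∀ (r : ℕ) (Z : SpecialDatum n r), r + 2 ≤ n → (fun i => ρ (X i)) ∈ Z.locus →
      ∃ j k : Fin n, j ≠ k ∧ ∃ N : ℕ, 0 < N ∧ N ≤ G ∧
        PsiE ιZ (mP N) (mD N) (ρ (X j)) (ρ (X k)) = 0 := by
  classical
  -- the norm of `Λ`
  have hΛn : ‖(Λ : C)‖ = ‖(p : C)‖⁻¹ ^ e := by
    have h1 := GG_norm hΛ
    rw [Units.val_mul, norm_mul, Units.val_zpow_eq_zpow_val, norm_zpow, hpu, zpow_natCast] at h1
    rw [inv_pow]
    exact eq_inv_of_mul_eq_one_left h1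
  have hpe0 : 0 < ‖(p : C)‖ ^ e := pow_pos hp0 e
  have hpe : ‖(p : C)‖ ^ e < 1 := pow_lt_one₀ (norm_nonneg _) hp1 he.ne'
  have hpe1 : ‖(p : C)‖ ^ e ≤ ‖(p : C)‖ := pow_le_of_le_one (norm_nonneg _) hp1.le he.ne'
  have hΛ1 : 1 < ‖(Λ : C)‖ := by
    rw [hΛn, inv_pow]; exact (one_lt_inv₀ hpe0).2 hpe
  have hΛinv : ‖(Λ : C)‖⁻¹ = ‖(p : C)‖ ^ e := by rw [hΛn, inv_pow, inv_inv]
  have hpC : (p : C) ≠ 0 := norm_pos_iff.1 hp0
  have hΛ0 : (Λ : C) ≠ 0 := Λ.ne_zero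
  -- `κ`
  obtain ⟨κ, hκ⟩ : ∃ κ : OO C, (p : C) * κ * Λ = ψ (cj 1) := by
    refine ⟨⟨ψ (cj 1) / (p * Λ), ?_⟩, ?_⟩
    · rw [mem_OO, norm_div, norm_mul, div_eq_mul_inv, mul_inv, hΛinv]
      calc ‖ψ (cj 1)‖ * (‖(p : C)‖⁻¹ * ‖(p : C)‖ ^ e) ≤ 1 * (‖(p : C)‖⁻¹ * ‖(p : C)‖) := by
            gcongr
            exact hψ _
        _ = 1 := by field_simp
    · show (p : C) * (ψ (cj 1) / (p * Λ)) * Λ = ψ (cj 1)
      field_simp
  by_cases hn2 : n < 2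
  · exact ⟨0, fun X t _ _ _ _ r Z hr => by omega⟩
  push Not at hn2
  obtain ⟨k, hk1, hk2, red, hker⟩ := exists_residue (C := C) (p := p) hp1
  -- the polynomial
  have hQ : ∀ q : Fin n × Fin n × Fin n × Fin n, ∃ Pp : k[X], Pp ≠ 0 ∧
      (q.1 ≠ q.2.1 → q.2.2.1 ≠ q.2.2.2 →
        ¬ ((q.2.2.1 = q.1 ∧ q.2.2.2 = q.2.1) ∨ (q.2.2.1 = q.2.1 ∧ q.2.2.2 = q.1)) →
        ∀ (t t₀ : OO C) (f : ℕ) (Y : Fin n → Cˣ) (ζ ζ' : OO C) (ζu ζu' : Cˣ)
      (f₁ f₂ : ℕ), 0 < f → t₀ ^ p ^ f = t₀ → ‖(t : C) - t₀‖ < 1 → 𝒟.Val (t : C) Y q.1 →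
      𝒟.Val (t : C) Y q.2.1 → 𝒟.Val (t : C) Y q.2.2.1 → 𝒟.Val (t : C) Y q.2.2.2 → (ζu : C) = ζ →
      (ζu' : C) = ζ' → 0 < f₁ → ζ ^ p ^ f₁ = ζ → 0 < f₂ → ζ' ^ p ^ f₂ = ζ' →
      Rel2 (p := p) κ Y q.1 q.2.1 ζu → Rel2 (p := p) κ Y q.2.2.1 q.2.2.2 ζu' →
      Pp.eval (red t) = 0) := by
    rintro ⟨j, l, j', l'⟩
    by_cases h : j ≠ l ∧ j' ≠ l' ∧ ¬ ((j' = j ∧ l' = l) ∨ (j' = l ∧ l' = j))
    · obtain ⟨Pp, h1, h2⟩ := 𝒟.tame_main red hpD hp0 hp1 hker κ h.1 h.2.1 h.2.2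
      exact ⟨Pp, h1, fun _ _ _ => h2⟩
    · exact ⟨1, one_ne_zero, fun h1 h2 h3 => absurd ⟨h1, h2, h3⟩ h⟩
  choose Q hQ0 hQ1 using hQ
  set Big : k[X] := (∏ q, Q q) * ∏ i, ((𝒟.aO i).map red * (𝒟.bO i).map red) with hBig
  have hBig0 : Big ≠ 0 := by
    refine mul_ne_zero (Finset.prod_ne_zero_iff.2 fun q _ => hQ0 q)
      (Finset.prod_ne_zero_iff.2 fun i _ => ?_)
    obtain ⟨i', hi'⟩ : ∃ i' : Fin n, i ≠ i' := by
      by_cases h : (i : ℕ) = 0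
      · exact ⟨⟨1, by omega⟩, fun h' => by rw [h'] at h; simp at h⟩
      · exact ⟨⟨0, by omega⟩, fun h' => h (by rw [h'])⟩
    exact mul_ne_zero (𝒟.aO_ne red hker hi') (𝒟.bO_ne red hker hi')
  obtain ⟨G₁, hG₁⟩ := 𝒟.tame_bound hp1 red hker hBig0
  refine ⟨(G₁ * p ^ 2) ^ 2, ?_⟩
  intro X t ht ⟨t₀, f, hf, ht₀, htt⟩ hB0 hX r Z hr hZ
  have ht₀Nr : t₀ ∈ Nr C p := Nr_of_fixed hf ht₀
  set tO : OO C := ⟨t, ht⟩ with htO
  set t₀O : OO C := ⟨t₀, Nr_le ht₀Nr⟩ with ht₀O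
  -- the units
  have hYex : ∀ i, ∃ y : Cˣ, 𝒟.Good t i → (𝒟.A i).eval t = y * (𝒟.B i).eval t := by
    intro i
    by_cases h : 𝒟.Good t i
    · have hA : (𝒟.A i).eval t ≠ 0 := norm_pos_iff.1 (by rw [h.1]; exact one_pos)
      refine ⟨Units.mk0 ((𝒟.A i).eval t / (𝒟.B i).eval t) (div_ne_zero hA (hB0 i)), fun _ => ?_⟩
      rw [Units.val_mk0]
      have := hB0 i
      field_simp
    · exact ⟨1, fun h' => absurd h' h⟩
  choose Y hY using hYex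
  have hVal : ∀ i, 𝒟.Good t i → 𝒟.Val t Y i := fun i hi => ⟨hi, hY i hi⟩
  have hgood1 : ∀ i, 𝒟.Good t i → 1 < ‖φ (X i)‖ := by
    intro i hi
    rw [𝒟.coord_good hX (hVal i hi), norm_mul, 𝒟.Y_norm (hVal i hi), mul_one]
    exact hΛ1
  have hcm : ∀ i, Z.cls i = none → ‖φ (X i)‖ ≤ 1 := by
    intro i hi
    obtain ⟨z, hz⟩ := hZ
    exact cm_norm hψ hρ hφ (Z.isCM i) ((hz i).1 hi)
  have hnone : ∀ i, 𝒟.Good t i → Z.cls i ≠ none := by
    intro i hi h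
    exact absurd (hgood1 i hi) (not_lt.2 (hcm i h))
  -- information on pairs of good coordinates of the same class
  have hinfo : ∀ j l, 𝒟.Good t j → 𝒟.Good t l → (∃ c, Z.cls j = some c ∧ Z.cls l = some c) →
      ∃ (g' s : ℕ) (ζ' ε : Cˣ), 0 < g' ∧ g'.Coprime p ∧ IsPrimitiveRoot (ζ' : C) g' ∧
      IsPrimitiveRoot (ε : C) (p ^ s) ∧
      ‖((Y l * (Y j)⁻¹ * (ζ' * ε) : Cˣ) : C) -
        (1 + p * κ * (((Y l : Cˣ) : C)⁻¹ - ((Y j : Cˣ) : C)⁻¹))‖ ≤ ‖(p : C)‖ ^ 2 ∧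
      Y l * (Y j)⁻¹ * ε ∈ GG C p ‖(p : C)‖ (norm_nonneg _) hp1 ∧
      PsiE ιZ (mP ((g' * p ^ s) ^ 2)) (mD ((g' * p ^ s) ^ 2)) (ρ (X j)) (ρ (X l)) = 0 := by
    intro j l hj hl ⟨c, hcj, hcl⟩
    obtain ⟨w, w', a, b, c', d', hdet, hrel, hw, hw'⟩ := class_rel Z hZ hcj hcl
    obtain ⟨g', s, ζ', ε, h1, h2, h3, h4, h5, h6⟩ := 𝒟.pair_info hψ hρ hφ hp0 hp1 he hΛn hκ hX
      (hVal j hj) (hVal l hl) hdet hrel hw hw'
    exact ⟨g', s, ζ', ε, h1, h2, h3, h4, h5,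
      𝒟.pair_GG hp1 (hVal j hj) (hVal l hl) h1 h2 h3 h5, h6⟩
  -- from the tame bound to the conclusion
  have hfin : ∀ j l, j ≠ l → 𝒟.Good t j → 𝒟.Good t l → Big.eval (red tO) = 0 →
      ∀ (g' s : ℕ) (ζ' ε : Cˣ), 0 < g' → g'.Coprime p → IsPrimitiveRoot (ζ' : C) g' →
      IsPrimitiveRoot (ε : C) (p ^ s) →
      ‖((Y l * (Y j)⁻¹ * (ζ' * ε) : Cˣ) : C) -
        (1 + p * κ * (((Y l : Cˣ) : C)⁻¹ - ((Y j : Cˣ) : C)⁻¹))‖ ≤ ‖(p : C)‖ ^ 2 →
      PsiE ιZ (mP ((g' * p ^ s) ^ 2)) (mD ((g' * p ^ s) ^ 2)) (ρ (X j)) (ρ (X l)) = 0 →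
      s ≤ 2 → ∃ j k : Fin n, j ≠ k ∧ ∃ N : ℕ, 0 < N ∧ N ≤ (G₁ * p ^ 2) ^ 2 ∧
        PsiE ιZ (mP N) (mD N) (ρ (X j)) (ρ (X k)) = 0 := by
    intro j l hjl hj hl hbig g' s ζ' ε hg' hcop hζ' hε h5 hΨ hs
    refine ⟨j, l, hjl, (g' * p ^ s) ^ 2, ?_, ?_, hΨ⟩
    · have := hpf.out.pos
      positivity
    · have hYj := 𝒟.Y_norm (hVal j hj)
      have hYl := 𝒟.Y_norm (hVal l hl)
      have hζn : ‖(ζ' : C)‖ = 1 := by
        have h1 : ‖(ζ' : C)‖ ^ g' = 1 := by rw [← norm_pow, hζ'.pow_eq_one, norm_one]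
        exact (pow_eq_one_iff_of_nonneg (norm_nonneg _) hg'.ne').1 h1
      have hεlt : ‖(ε : C) - 1‖ < 1 := ppow_root_lt hp1 hε.pow_eq_one
      have hεn : ‖(ε : C)‖ = 1 := neq_one hεlt norm_one
      have hclose : ‖((Y l * (Y j)⁻¹ * ζ' : Cˣ) : C) - 1‖ < 1 := by
        have e1 : ((Y l * (Y j)⁻¹ * ζ' : Cˣ) : C) - 1 =
            (((Y l * (Y j)⁻¹ * (ζ' * ε) : Cˣ) : C) -
            (1 + p * κ * (((Y l : Cˣ) : C)⁻¹ - ((Y j : Cˣ) : C)⁻¹))) +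
            p * (κ * (((Y l : Cˣ) : C)⁻¹ - ((Y j : Cˣ) : C)⁻¹)) -
            ((Y l * (Y j)⁻¹ * ζ' : Cˣ) : C) * ((ε : C) - 1) := by
          simp only [Units.val_mul]; ring
        rw [e1]
        refine nsub_lt (nadd_lt (h5.trans_lt (pow_lt_one₀ (norm_nonneg _) hp1 two_ne_zero)) ?_) ?_
        · refine (nmul_le' le_rfl (nmul_le κ.2 (nsub_le ?_ ?_))).trans_lt hp1
          · rw [norm_inv, hYl, inv_one]
          · rw [norm_inv, hYj, inv_one]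
        · rw [norm_mul, Units.val_mul, Units.val_mul, Units.val_inv_eq_inv_val, norm_mul, norm_mul,
            norm_inv, hYl, hYj, hζn]
          simpa using hεlt
      have hg1 := hG₁ tO hbig Y j l (hVal j hj) (hVal l hl) g' ζ' hg' hcop hζ' hclose
      apply Nat.pow_le_pow_left
      exact Nat.mul_le_mul hg1 (Nat.pow_le_pow_right hpf.out.pos hs)
  -- a bad coordinate
  have hbadBig : ∀ i, ¬ 𝒟.Good t i → Big.eval (red tO) = 0 := by
    intro i hi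
    rw [hBig, eval_mul, eval_prod, eval_prod, mul_eq_zero]
    right
    refine Finset.prod_eq_zero (Finset.mem_univ i) ?_
    rw [eval_mul, eval_map_apply, eval_map_apply, ← map_mul, hker]
    show ‖(((𝒟.aO i).eval tO : OO C) : C) * (((𝒟.bO i).eval tO : OO C) : C)‖ < 1
    rw [aO_eval, bO_eval]
    rw [good_iff 𝒟 ht] at hi
    exact lt_of_le_of_ne (nmul_le (𝒟.An i ht) (𝒟.Bn i ht)) hi
  -- Claim D : two distinct pairs
  have hclaimD : ∀ j l j' l', j ≠ l → j' ≠ l' → ¬ ((j' = j ∧ l' = l) ∨ (j' = l ∧ l' = j)) →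
      𝒟.Good t j → 𝒟.Good t l → 𝒟.Good t j' → 𝒟.Good t l' →
      (∃ c, Z.cls j = some c ∧ Z.cls l = some c) →
      (∃ c, Z.cls j' = some c ∧ Z.cls l' = some c) →
      ∃ j k : Fin n, j ≠ k ∧ ∃ N : ℕ, 0 < N ∧ N ≤ (G₁ * p ^ 2) ^ 2 ∧
        PsiE ιZ (mP N) (mD N) (ρ (X j)) (ρ (X k)) = 0 := by
    intro j l j' l' hjl hjl' hne hj hl hj' hl' hc hc'
    obtain ⟨g₁, s₁, ζ₁, ε₁, a1, a2, a3, a4, a5, a6, a7⟩ := hinfo j l hj hl hc
    obtain ⟨g₂, s₂, ζ₂, ε₂, b1, b2, b3, b4, b5, b6, b7⟩ := hinfo j' l' hj' hl' hc'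
    have hs₁ : s₁ = 0 ∧ s₂ = 0 := by
      by_contra hcon
      rcases le_total s₂ s₁ with h12 | h12
      · have hs : s₁ ≠ 0 := by rintro rfl; exact hcon ⟨rfl, by omega⟩
        obtain ⟨s, rfl⟩ : ∃ s, s₁ = s + 1 := ⟨s₁ - 1, by omega⟩
        refine 𝒟.no_wild hpD hp0 hp1 ht₀Nr htt (hVal j hj) (hVal l hl) (hVal j' hj')
          (hVal l' hl') hjl hjl' hne a4 ?_ a6 b6
        obtain ⟨x, hx⟩ := Nat.pow_dvd_pow p h12
        rw [hx, pow_mul, b4.pow_eq_one, one_pow]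
      · have hs : s₂ ≠ 0 := by rintro rfl; exact hcon ⟨by omega, rfl⟩
        obtain ⟨s, rfl⟩ : ∃ s, s₂ = s + 1 := ⟨s₂ - 1, by omega⟩
        refine 𝒟.no_wild hpD hp0 hp1 ht₀Nr htt (hVal j' hj') (hVal l' hl') (hVal j hj)
          (hVal l hl) hjl' hjl ?_ b4 ?_ b6 a6
        · rintro (⟨h1, h2⟩ | ⟨h1, h2⟩)
          · exact hne (Or.inl ⟨h1.symm, h2.symm⟩)
          · exact hne (Or.inr ⟨h2.symm, h1.symm⟩)
        · obtain ⟨x, hx⟩ := Nat.pow_dvd_pow p h12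
          rw [hx, pow_mul, a4.pow_eq_one, one_pow]
    obtain ⟨rfl, rfl⟩ := hs₁
    have hε₁ : ε₁ = 1 := Units.ext (by
      have := a4.pow_eq_one
      simpa using this)
    have hε₂ : ε₂ = 1 := Units.ext (by
      have := b4.pow_eq_one
      simpa using this)
    refine hfin j l hjl hj hl ?_ g₁ 0 ζ₁ ε₁ a1 a2 a3 a4 a5 a7 (by norm_num)
    -- the tame equation
    have hZO : ∀ (g : ℕ) (ζ : Cˣ), 0 < g → g.Coprime p → IsPrimitiveRoot (ζ : C) g →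
        ∃ (z : OO C) (f₁ : ℕ), ((ζ⁻¹ : Cˣ) : C) = z ∧ 0 < f₁ ∧ z ^ p ^ f₁ = z := by
      intro g ζ hg hcop hζ
      have h1 : ‖(ζ : C)‖ ^ g = 1 := by rw [← norm_pow, hζ.pow_eq_one, norm_one]
      have h2 : ‖(ζ : C)‖ = 1 := (pow_eq_one_iff_of_nonneg (norm_nonneg _) hg.ne').1 h1
      obtain ⟨f₁, hf₁, hff⟩ := fixed_of_pow_eq_one (p := p) hcop hζ.pow_eq_one
      refine ⟨⟨((ζ⁻¹ : Cˣ) : C), ?_⟩, f₁, rfl, hf₁, Subtype.ext ?_⟩
      · rw [mem_OO, Units.val_inv_eq_inv_val, norm_inv, h2, inv_one]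
      · show ((ζ⁻¹ : Cˣ) : C) ^ p ^ f₁ = ((ζ⁻¹ : Cˣ) : C)
        rw [Units.val_inv_eq_inv_val, inv_pow, hff]
    obtain ⟨z₁, f₁, hz₁, hf₁, hzf₁⟩ := hZO g₁ ζ₁ a1 a2 a3
    obtain ⟨z₂, f₂, hz₂, hf₂, hzf₂⟩ := hZO g₂ ζ₂ b1 b2 b3
    have hrel₁ : Rel2 (p := p) κ Y j l ζ₁⁻¹ := by
      unfold Rel2
      rw [inv_inv]
      rw [hε₁, mul_one] at a5
      exact a5
    have hrel₂ : Rel2 (p := p) κ Y j' l' ζ₂⁻¹ := by
      unfold Rel2
      rw [inv_inv]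
      rw [hε₂, mul_one] at b5
      exact b5
    have h0 := hQ1 (j, l, j', l') hjl hjl' hne tO t₀O f Y z₁ z₂ ζ₁⁻¹ ζ₂⁻¹ f₁ f₂ hf
      (Subtype.ext ht₀) htt (hVal j hj) (hVal l hl) (hVal j' hj') (hVal l' hl') hz₁ hz₂ hf₁ hzf₁
      hf₂ hzf₂ hrel₁ hrel₂
    rw [hBig, eval_mul, eval_prod, Finset.prod_eq_zero (Finset.mem_univ (j, l, j', l')) h0,
      zero_mul]
  -- the combinatorics
  by_cases hall : ∀ i, 𝒟.Good t i
  · obtain ⟨j, -, l, -, hjl, hc⟩ := coll Z.cls Finset.univ (by simp; omega)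
      (fun x _ => hnone x (hall x))
    obtain ⟨j', hj', l', hl', hjl', hc'⟩ := coll Z.cls (Finset.univ.erase l)
      (by rw [Finset.card_erase_of_mem (Finset.mem_univ l)]; simp; omega)
      (fun x _ => hnone x (hall x))
    have h1 := Finset.ne_of_mem_erase hj'
    have h2 := Finset.ne_of_mem_erase hl'
    exact hclaimD j l j' l' hjl hjl' (by
      rintro (⟨-, h⟩ | ⟨h, -⟩)
      · exact h2 h
      · exact h1 h) (hall j) (hall l) (hall j') (hall l') hc hc'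
  · push Not at hall
    obtain ⟨i, hi⟩ := hall
    have hg : ∀ j, j ≠ i → 𝒟.Good t j := fun j hj => 𝒟.good_of_ne ht hi hj
    obtain ⟨j, hj, l, hl, hjl, hc⟩ := coll Z.cls (Finset.univ.erase i)
      (by rw [Finset.card_erase_of_mem (Finset.mem_univ i)]; simp; omega)
      (fun x hx => hnone x (hg x (Finset.ne_of_mem_erase hx)))
    have hji := Finset.ne_of_mem_erase hj
    have hli := Finset.ne_of_mem_erase hl
    obtain ⟨g₁, s₁, ζ₁, ε₁, a1, a2, a3, a4, a5, a6, a7⟩ := hinfo j l (hg j hji) (hg l hli) hc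
    by_cases hcls : Z.cls i = none
    · -- the exceptional coordinate is a singular modulus
      have hs₁ : s₁ = 0 := by
        by_contra hs
        obtain ⟨s, rfl⟩ : ∃ s, s₁ = s + 1 := ⟨s₁ - 1, by omega⟩
        refine 𝒟.no_wild_cm hpD hp0 hp1 ht₀Nr htt (hVal j (hg j hji)) (hVal l (hg l hli))
          (i := i) ?_ hji a4 a6
        have h1 := hcm i hcls
        have h2 := congrArg norm (hX i)
        rw [norm_mul, norm_mul] at h2
        have h3 := 𝒟.Bn i ht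
        have h4 : ‖(Λ : C)‖ * ‖(𝒟.A i).eval t‖ ≤ 1 := by
          rw [← h2]
          have := norm_nonneg ((𝒟.B i).eval t)
          have := norm_nonneg (φ (X i))
          nlinarith
        have h5 : ‖(𝒟.A i).eval t‖ ≤ ‖(Λ : C)‖⁻¹ := by
          rw [← one_div, le_div_iff₀ (one_pos.trans hΛ1), mul_comm]
          exact h4
        rw [hΛinv] at h5
        exact h5.trans hpe1
      exact hfin j l hjl (hg j hji) (hg l hli) (hbadBig i hi) g₁ s₁ ζ₁ ε₁ a1 a2 a3 a4 a5 a7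
        (by omega)
    · have hnone' : ∀ x, Z.cls x ≠ none := by
        intro x
        by_cases hx : x = i
        · rw [hx]; exact hcls
        · exact hnone x (hg x hx)
      -- Claim AB
      have hAB : ∀ m, m ≠ i → (∃ c, Z.cls m = some c ∧ Z.cls i = some c) →
          ∃ j k : Fin n, j ≠ k ∧ ∃ N : ℕ, 0 < N ∧ N ≤ (G₁ * p ^ 2) ^ 2 ∧
            PsiE ιZ (mP N) (mD N) (ρ (X j)) (ρ (X k)) = 0 := by
        intro m hmi ⟨c, hcm', hci⟩
        refine hfin j l hjl (hg j hji) (hg l hli) (hbadBig i hi) g₁ s₁ ζ₁ ε₁ a1 a2 a3 a4 a5 a7 ?_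
        by_contra hs
        obtain ⟨s, rfl⟩ : ∃ s, s₁ = s + 1 := ⟨s₁ - 1, by omega⟩
        have hm := hg m hmi
        obtain ⟨w, w', a, b, c', d', hdet, hrel, hw, hw'⟩ := class_rel Z hZ hcm' hci
        obtain ⟨A', B', g, ζ, hA', hB', hAB', hg0, hζ, hq, hi1, -⟩ :=
          tate_rel hψ hρ hφ hdet hrel hw hw' (hgood1 m hm)
        have hxi0 : φ (X i) ≠ 0 := norm_pos_iff.1 (one_pos.trans hi1)
        have hAi0 : (𝒟.A i).eval t ≠ 0 := by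
          intro h0
          have := hX i
          rw [h0, mul_zero] at this
          exact (mul_ne_zero (hB0 i) hxi0) this
        have hxi : φ (X i) = Λ * ((𝒟.A i).eval t * ((𝒟.B i).eval t)⁻¹) := by
          have h1 := hX i
          have h2 := hB0 i
          field_simp
          linear_combination h1
        have hxm := 𝒟.coord_good hX (hVal m hm)
        have hqi0 := qT_ne hψ hi1
        have hqm0 := qT_ne hψ (hgood1 m hm)
        have hζ0 : ζ ≠ 0 := hζ.ne_zero hg0.ne'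
        have hle := 𝒟.wild_exc hpD hp0 hp1 ht ht₀Nr htt (hVal j (hg j hji)) (hVal l (hg l hli))
          (hVal m hm) hjl hi (Ai := Units.mk0 _ hAi0) (Bi := Units.mk0 _ (hB0 i)) rfl rfl he hpu
          hΛ (qi := Units.mk0 _ hqi0) (ql := Units.mk0 _ hqm0)
          (by
            have h1 := qT_expand' hψ hi1
            simp only [Units.val_mul, Units.val_inv_eq_inv_val, Units.val_mk0]
            rw [mul_assoc, ← hxi]
            exact h1)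
          (by
            have h1 := qT_expand' hψ (hgood1 m hm)
            rw [Units.val_mul, Units.val_mul, Units.val_mul, Units.val_mk0, mul_assoc, ← hxm]
            exact h1)
          (by
            rw [Units.val_mul, Units.val_mul, Units.val_inv_eq_inv_val, Units.val_mk0,
              Units.val_mk0, ← hxi]
            exact hi1)
          hAB' hB' (ζ := Units.mk0 ζ hζ0) hg0 (Units.ext hζ.pow_eq_one)
          (Units.ext (by
            rw [Units.val_mul, Units.val_pow_eq_pow_val, Units.val_pow_eq_pow_val]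
            exact hq)) a4 a6
        omega
      obtain ⟨j', hj', l', hl', hjl', hc'⟩ := coll Z.cls (Finset.univ.erase l)
        (by rw [Finset.card_erase_of_mem (Finset.mem_univ l)]; simp; omega)
        (fun x _ => hnone' x)
      have h1 := Finset.ne_of_mem_erase hj'
      have h2 := Finset.ne_of_mem_erase hl'
      by_cases hj'i : j' = i
      · subst hj'i
        obtain ⟨c, hc1, hc2⟩ := hc'
        exact hAB l' hjl'.symm ⟨c, hc2, hc1⟩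
      · by_cases hl'i : l' = i
        · subst hl'i
          obtain ⟨c, hc1, hc2⟩ := hc'
          exact hAB j' hjl' ⟨c, hc1, hc2⟩
        · exact hclaimD j l j' l' hjl hjl' (by
            rintro (⟨-, h⟩ | ⟨h, -⟩)
            · exact h2 h
            · exact h1 h) (hg j hji) (hg l hli) (hg j' hj'i) (hg l' hl'i) hc hc'

end PData

end Pool.Agent.Y226
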