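import Pool.Agent.Y226.ZP.Contact

/-!
# Monomials in the coordinates
-/

set_option autoImplicit false
set_option linter.unusedSectionVars false

open Polynomial

namespace Pool.Agent.Y226

/-- Thue's lemma -/
theorem thue (M : ℕ) (hM : 0 < M) (γ : ℤ) : ∃ n₁ n₂ : ℤ, (n₁, n₂) ≠ (0, 0) ∧
    n₁.natAbs ^ 2 ≤ M ∧ n₂.natAbs ^ 2 ≤ M ∧ (M : ℤ) ∣ n₁ + γ * n₂ := by
  classical
  set r := Nat.sqrt M with hr
  have : NeZero M := ⟨hM.ne'⟩
  let F : Fin (r + 1) × Fin (r + 1) → ZMod M := fun x => ((x.1 : ℕ) : ZMod M) + γ * ((x.2 : ℕ) : ZMod M)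
  have hcard : Fintype.card (ZMod M) < Fintype.card (Fin (r + 1) × Fin (r + 1)) := by
    rw [ZMod.card, Fintype.card_prod, Fintype.card_fin]
    exact Nat.lt_succ_sqrt M
  obtain ⟨x, y, hne, hxy⟩ := Fintype.exists_ne_map_eq_of_card_lt F hcard
  have hb : ∀ a b : Fin (r + 1), (((a : ℕ) : ℤ) - ((b : ℕ) : ℤ)).natAbs ^ 2 ≤ M := by
    intro a b
    have h1 : (((a : ℕ) : ℤ) - ((b : ℕ) : ℤ)).natAbs ≤ r := by
      have := a.2; have := b.2; omega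
    calc (((a : ℕ) : ℤ) - ((b : ℕ) : ℤ)).natAbs ^ 2 ≤ r ^ 2 := Nat.pow_le_pow_left h1 2
      _ ≤ M := Nat.sqrt_le' M
  refine ⟨((x.1 : ℕ) : ℤ) - ((y.1 : ℕ) : ℤ), ((x.2 : ℕ) : ℤ) - ((y.2 : ℕ) : ℤ), ?_, hb _ _, hb _ _,
    ?_⟩
  · intro h
    apply hne
    rw [Prod.mk.injEq] at h
    refine Prod.ext (Fin.ext ?_) (Fin.ext ?_)
    · have := h.1; omega
    · have := h.2; omega
  · have h2 : ((x.1 : ℕ) : ZMod M) + γ * ((x.2 : ℕ) : ZMod M) =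
      ((y.1 : ℕ) : ZMod M) + γ * ((y.2 : ℕ) : ZMod M) := hxy
    rw [← ZMod.intCast_zmod_eq_zero_iff_dvd]
    push_cast
    linear_combination h2

variable {C : Type} [NormedField C] [IsUltrametricDist C]
variable {p : ℕ} [hpf : Fact p.Prime]

/-- The local data. -/
structure PData (C : Type) [NormedField C] [IsUltrametricDist C] (p : ℕ) [hpf : Fact p.Prime]
    (n d : ℕ) where
  A : Fin n → C[X]
  B : Fin n → C[X]
  hA : ∀ i, A i ∈ PS (Nr C p)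
  hB : ∀ i, B i ∈ PS (Nr C p)
  dA : ∀ i, (A i).natDegree ≤ d
  dB : ∀ i, (B i).natDegree ≤ d
  g1 : ∀ x, ‖x‖ ≤ 1 → ∀ i j, i ≠ j → ‖(A i).eval x * (B i).eval x‖ = 1 ∨
    ‖(A j).eval x * (B j).eval x‖ = 1
  g2 : ∀ x, ‖x‖ ≤ 1 → ∀ i, ‖(A i).eval x‖ = 1 ∨ ‖(B i).eval x‖ = 1
  g3 : ∀ i, ∃ x, ‖x‖ ≤ 1 ∧ ‖(A i).eval x * (B i).eval x‖ < 1

namespace PData

variable {n d : ℕ} (𝒟 : PData C p n d)

/-- `i` is good at `t`: both `A_i(t)` and `B_i(t)` are units. -/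
def Good (t : C) (i : Fin n) : Prop := ‖(𝒟.A i).eval t‖ = 1 ∧ ‖(𝒟.B i).eval t‖ = 1

theorem An (i : Fin n) {t : C} (ht : ‖t‖ ≤ 1) : ‖(𝒟.A i).eval t‖ ≤ 1 :=
  eval_norm_le (PS_Nr_le (𝒟.hA i)) ht

theorem Bn (i : Fin n) {t : C} (ht : ‖t‖ ≤ 1) : ‖(𝒟.B i).eval t‖ ≤ 1 :=
  eval_norm_le (PS_Nr_le (𝒟.hB i)) ht

theorem good_iff {t : C} (ht : ‖t‖ ≤ 1) (i : Fin n) :
    𝒟.Good t i ↔ ‖(𝒟.A i).eval t * (𝒟.B i).eval t‖ = 1 := by
  rw [norm_mul]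
  constructor
  · rintro ⟨h1, h2⟩; rw [h1, h2, one_mul]
  · intro h
    have h1 := 𝒟.An i ht
    have h2 := 𝒟.Bn i ht
    have h3 := norm_nonneg ((𝒟.A i).eval t)
    have h4 := norm_nonneg ((𝒟.B i).eval t)
    exact ⟨by nlinarith, by nlinarith⟩

theorem good_of_ne {t : C} (ht : ‖t‖ ≤ 1) {i : Fin n} (hi : ¬ 𝒟.Good t i) {j : Fin n}
    (hj : j ≠ i) : 𝒟.Good t j := by
  rw [good_iff 𝒟 ht] at hi ⊢
  rcases 𝒟.g1 t ht i j hj.symm with h | h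
  · exact absurd h hi
  · exact h

/-- the numerators of monomials -/
noncomputable def Num (v : Fin n → ℤ) : C[X] :=
  ∏ i, (𝒟.A i ^ (v i).toNat * 𝒟.B i ^ (-v i).toNat)

theorem Num_mem (v : Fin n → ℤ) : 𝒟.Num v ∈ PS (Nr C p) :=
  prod_mem fun i _ => mul_mem (pow_mem (𝒟.hA i) _) (pow_mem (𝒟.hB i) _)

theorem Num_natDegree (v : Fin n → ℤ) : (𝒟.Num v).natDegree ≤ d * ∑ i, (v i).natAbs := by
  unfold Num
  refine (natDegree_prod_le _ _).trans ?_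
  rw [Finset.mul_sum]
  refine Finset.sum_le_sum fun i _ => ?_
  refine natDegree_mul_le.trans ?_
  have h1 : (𝒟.A i ^ (v i).toNat).natDegree ≤ (v i).toNat * d :=
    natDegree_pow_le.trans (Nat.mul_le_mul_left _ (𝒟.dA i))
  have h2 : (𝒟.B i ^ (-v i).toNat).natDegree ≤ (-v i).toNat * d :=
    natDegree_pow_le.trans (Nat.mul_le_mul_left _ (𝒟.dB i))
  have h3 : (v i).natAbs = (v i).toNat + (-v i).toNat := by omega
  rw [h3, mul_add, mul_comm d, mul_comm d]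
  omega

theorem Num_eval (v : Fin n → ℤ) (t : C) : (𝒟.Num v).eval t =
    ∏ i, ((𝒟.A i).eval t ^ (v i).toNat * (𝒟.B i).eval t ^ (-v i).toNat) := by
  unfold Num
  rw [eval_prod]
  simp only [eval_mul, eval_pow]

/-- some evaluation of `Num v - w Num (-v)` is a unit -/
theorem exists_eval {v : Fin n → ℤ} (hv : v ≠ 0) {w : C} (hw : ‖w‖ = 1) :
    ∃ x, ‖x‖ ≤ 1 ∧ ‖(𝒟.Num v - Polynomial.C w * 𝒟.Num (-v)).eval x‖ = 1 := by
  obtain ⟨i, hi⟩ := Function.ne_iff.1 hv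
  rw [Pi.zero_apply] at hi
  obtain ⟨x, hx, hlt⟩ := 𝒟.g3 i
  refine ⟨x, hx, ?_⟩
  have hbad : ¬ 𝒟.Good x i := by
    rw [good_iff 𝒟 hx]; exact hlt.ne
  have hval : ∀ u : Fin n → ℤ, ‖(𝒟.Num u).eval x‖ =
      ‖(𝒟.A i).eval x‖ ^ (u i).toNat * ‖(𝒟.B i).eval x‖ ^ (-u i).toNat := by
    intro u
    rw [Num_eval, norm_prod, Finset.prod_eq_single i]
    · rw [norm_mul, norm_pow, norm_pow]
    · intro j _ hj
      obtain ⟨h1, h2⟩ := 𝒟.good_of_ne hx hbad hj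
      rw [norm_mul, norm_pow, norm_pow, h1, h2, one_pow, one_pow, one_mul]
    · intro h; exact absurd (Finset.mem_univ i) h
  rw [eval_sub, eval_mul, eval_C]
  have h1 := hval v
  have h2 := hval (-v)
  rw [Pi.neg_apply, neg_neg] at h2
  have hA := 𝒟.An i hx
  have hB := 𝒟.Bn i hx
  -- one of the two is a unit, the other is not
  have key : (‖(𝒟.Num v).eval x‖ = 1 ∧ ‖(𝒟.Num (-v)).eval x‖ < 1) ∨
      (‖(𝒟.Num v).eval x‖ < 1 ∧ ‖(𝒟.Num (-v)).eval x‖ = 1) := by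
    rcases lt_or_gt_of_ne hi with hneg | hpos
    · obtain ⟨m, hm⟩ : ∃ m : ℕ, v i = -((m : ℤ) + 1) := ⟨(-v i - 1).toNat, by omega⟩
      rw [hm, show (-((m : ℤ) + 1)).toNat = 0 by omega, show (-(-((m : ℤ) + 1))).toNat = m + 1 by omega,
        pow_zero, one_mul] at h1
      rw [hm, show (-((m : ℤ) + 1)).toNat = 0 by omega, show (-(-((m : ℤ) + 1))).toNat = m + 1 by omega,
        pow_zero, mul_one] at h2
      rw [h1, h2]
      rcases 𝒟.g2 x hx i with h3 | h3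
      · right
        have h4 : ‖(𝒟.B i).eval x‖ < 1 := lt_of_le_of_ne hB fun h => hbad ⟨h3, h⟩
        exact ⟨pow_lt_one₀ (norm_nonneg _) h4 (by omega), by rw [h3, one_pow]⟩
      · left
        have h4 : ‖(𝒟.A i).eval x‖ < 1 := lt_of_le_of_ne hA fun h => hbad ⟨h, h3⟩
        exact ⟨by rw [h3, one_pow], pow_lt_one₀ (norm_nonneg _) h4 (by omega)⟩
    · obtain ⟨m, hm⟩ : ∃ m : ℕ, v i = (m : ℤ) + 1 := ⟨(v i - 1).toNat, by omega⟩
      rw [hm, show (-((m : ℤ) + 1)).toNat = 0 by omega, show ((m : ℤ) + 1).toNat = m + 1 by omega,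
        pow_zero, mul_one] at h1
      rw [hm, show (-((m : ℤ) + 1)).toNat = 0 by omega, show ((m : ℤ) + 1).toNat = m + 1 by omega,
        pow_zero, one_mul] at h2
      rw [h1, h2]
      rcases 𝒟.g2 x hx i with h3 | h3
      · left
        have h4 : ‖(𝒟.B i).eval x‖ < 1 := lt_of_le_of_ne hB fun h => hbad ⟨h3, h⟩
        exact ⟨by rw [h3, one_pow], pow_lt_one₀ (norm_nonneg _) h4 (by omega)⟩
      · right
        have h4 : ‖(𝒟.A i).eval x‖ < 1 := lt_of_le_of_ne hA fun h => hbad ⟨h, h3⟩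
        exact ⟨pow_lt_one₀ (norm_nonneg _) h4 (by omega), by rw [h3, one_pow]⟩
  rcases key with ⟨h3, h4⟩ | ⟨h3, h4⟩
  · rw [sub_eq_add_neg, neq_of_add_lt, h3]
    rw [norm_neg, norm_mul, hw, one_mul, h3]
    exact h4
  · rw [sub_eq_add_neg, add_comm, neq_of_add_lt, norm_neg, norm_mul, hw, one_mul, h4]
    rw [norm_neg, norm_mul, hw, one_mul, h4]
    exact h3

/-- `Y` gives the values of the coordinates of the good indices in `s` -/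
def Val (t : C) (Y : Fin n → Cˣ) (i : Fin n) : Prop :=
  𝒟.Good t i ∧ (𝒟.A i).eval t = Y i * (𝒟.B i).eval t

theorem num_eq {t : C} {Y : Fin n → Cˣ} {v : Fin n → ℤ} (hY : ∀ i, v i ≠ 0 → 𝒟.Val t Y i) :
    (𝒟.Num v).eval t = ((∏ i, Y i ^ v i : Cˣ) : C) * (𝒟.Num (-v)).eval t := by
  rw [Num_eval, Num_eval, Units.coe_prod, ← Finset.prod_mul_distrib]
  refine Finset.prod_congr rfl fun i _ => ?_
  rw [Pi.neg_apply, neg_neg]
  by_cases hi : v i = 0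
  · rw [hi]; simp
  · obtain ⟨⟨h1, h2⟩, h3⟩ := hY i hi
    rw [h3]
    rcases lt_or_gt_of_ne hi with hneg | hpos
    · obtain ⟨m, hm⟩ : ∃ m : ℕ, v i = -((m : ℤ) + 1) := ⟨(-v i - 1).toNat, by omega⟩
      rw [hm, show (-((m : ℤ) + 1)).toNat = 0 by omega, show (-(-((m : ℤ) + 1))).toNat = m + 1 by omega,
        zpow_neg, show ((m : ℤ) + 1) = ((m + 1 : ℕ) : ℤ) by push_cast; ring, zpow_natCast]
      have h4 : (Y i : C) ^ (m + 1) ≠ 0 := pow_ne_zero _ (Y i).ne_zero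
      rw [Units.val_inv_eq_inv_val, Units.val_pow_eq_pow_val, mul_pow]
      field_simp
      ring
    · obtain ⟨m, hm⟩ : ∃ m : ℕ, v i = (m : ℤ) + 1 := ⟨(v i - 1).toNat, by omega⟩
      rw [hm, show (-((m : ℤ) + 1)).toNat = 0 by omega, show ((m : ℤ) + 1).toNat = m + 1 by omega,
        show ((m : ℤ) + 1) = ((m + 1 : ℕ) : ℤ) by push_cast; ring, zpow_natCast]
      rw [Units.val_pow_eq_pow_val, mul_pow]
      ring

theorem num_unit {t : C} {v : Fin n → ℤ} (hY : ∀ i, v i ≠ 0 → 𝒟.Good t i) :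
    ‖(𝒟.Num v).eval t‖ = 1 := by
  rw [Num_eval, norm_prod]
  refine Finset.prod_eq_one fun i _ => ?_
  by_cases hi : v i = 0
  · rw [hi]; simp
  · obtain ⟨h1, h2⟩ := hY i hi
    rw [norm_mul, norm_pow, norm_pow, h1, h2, one_pow, one_pow, one_mul]

/-- the monomial bound -/
theorem monomial_bound (hp1 : ‖(p : C)‖ < 1) {v : Fin n → ℤ} (hv : v ≠ 0) {t t₀ : C}
    (ht₀ : t₀ ∈ Nr C p) (h : ‖t - t₀‖ < 1) {Y : Fin n → Cˣ}
    (hY : ∀ i, v i ≠ 0 → 𝒟.Val t Y i) {θ : ℝ} {h0 : 0 ≤ θ} {h1 : θ < 1}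
    (hθ : ‖(p : C)‖ ≤ θ) (hθ0 : 0 < θ) (hG : (∏ i, Y i ^ v i) ∈ GG C p θ h0 h1) {D : ℕ}
    (hD : d * ∑ i, (v i).natAbs ≤ D) :
    ‖t - t₀‖ ^ D ≤ θ := by
  obtain ⟨w, hw, hw1, hwl⟩ := hG
  obtain ⟨x, hx, hEx⟩ := 𝒟.exists_eval hv hw1
  refine contact_le hp1 (E := 𝒟.Num v - Polynomial.C w * 𝒟.Num (-v)) ?_ ?_ hx hEx ht₀ h hθ hθ0 ?_
  · exact sub_mem (𝒟.Num_mem v) (mul_mem (C_mem_PS hw) (𝒟.Num_mem _))
  · refine (natDegree_sub_le _ _).trans (max_le ((𝒟.Num_natDegree v).trans hD) ?_)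
    refine (natDegree_C_mul_le _ _).trans ((𝒟.Num_natDegree _).trans ?_)
    simpa using hD
  · rw [eval_sub, eval_mul, eval_C, 𝒟.num_eq hY, ← sub_mul]
    refine nmul_le' hwl ?_
    exact (𝒟.num_unit fun i hi => (hY i (by simpa using hi)).1).le

end PData

end Pool.Agent.Y226
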