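import Pool.Agent.Y226.ZP.Teich

/-!
# Tame torsion
-/

set_option autoImplicit false
set_option linter.unusedSectionVars false

open Polynomial

namespace Pool.Agent.Y226

variable {C : Type} [NormedField C] [IsUltrametricDist C]
variable {p : ℕ} [hpf : Fact p.Prime]

theorem exists_tsplit [IsAlgClosed C] (hp0 : 0 < ‖(p : C)‖) (hp1 : ‖(p : C)‖ < 1) (F : (OO C)[X])
    (hF : ∀ i, ((F.coeff i : OO C) : C) ∈ Nr C p) : Nonempty (TSplit (OO C) p F) := by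
  classical
  have hpC : (p : C) ≠ 0 := norm_pos_iff.1 hp0
  have h1 : ∀ i, ∃ (τ : OO C) (v : OO C) (f : ℕ), 0 < f ∧ τ ^ p ^ f = τ ∧
      F.coeff i = τ + p * v := by
    intro i
    obtain ⟨τ, f, hf, hτ, hle⟩ := exists_teich hp1 (hF i)
    refine ⟨⟨τ, (Nr_of_fixed hf hτ).1⟩, ⟨(((F.coeff i : OO C) : C) - τ) / p, ?_⟩, f, hf,
      Subtype.ext hτ, Subtype.ext ?_⟩
    · rw [mem_OO, norm_div]
      exact div_le_one_of_le₀ hle (norm_nonneg _)
    · show ((F.coeff i : OO C) : C) = τ + ((p : OO C) : C) * ((((F.coeff i : OO C) : C) - τ) / p)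
      have : ((p : OO C) : C) = (p : C) := by simp
      rw [this]
      field_simp
      ring
  choose τ v f hf hτ hFe using h1
  refine ⟨{ T := ∑ i ∈ F.support, Polynomial.C (τ i) * X ^ i
            V := ∑ i ∈ F.support, Polynomial.C (v i) * X ^ i
            eq := ?_, teich := ?_ }⟩
  · conv_lhs => rw [F.as_sum_support_C_mul_X_pow]
    rw [Finset.mul_sum, ← Finset.sum_add_distrib]
    refine Finset.sum_congr rfl fun i _ => ?_
    rw [hFe i, C_add, C_mul]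
    ring
  · intro i
    by_cases hi : i ∈ F.support
    · refine ⟨f i, hf i, ?_⟩
      rw [finsetSum_coeff, Finset.sum_eq_single i]
      · simpa using hτ i
      · intro j _ hj
        rw [coeff_C_mul, coeff_X_pow, if_neg hj.symm, mul_zero]
      · intro h; exact absurd hi h
    · refine ⟨1, one_pos, ?_⟩
      rw [finsetSum_coeff, Finset.sum_eq_zero]
      · simp [hpf.out.ne_zero]
      · intro j hj
        rw [coeff_C_mul, coeff_X_pow, if_neg (by rintro rfl; exact hi hj), mul_zero]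

theorem tame_final {k : Type} [Field k] [CharP k p] (W W' Ω Ω' S S' : k[X]) (x e : k)
    (h : Ω.eval x + (e * W.eval x + S.eval x) ^ p = 0)
    (h' : Ω'.eval x + (e * W'.eval x + S'.eval x) ^ p = 0) :
    W.eval x * (W' ^ p * (Ω + S ^ p) - W ^ p * (Ω' + S' ^ p)).eval x = 0 := by
  have hadd : ∀ a b : k, (a + b) ^ p = a ^ p + b ^ p := fun a b => by
    have := map_add (frobenius k p) a b
    simpa [frobenius_def] using this
  rw [hadd, mul_pow] at h h'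
  simp only [eval_sub, eval_mul, eval_add, eval_pow]
  linear_combination (W.eval x * W'.eval x ^ p) * h - (W.eval x * W.eval x ^ p) * h'

theorem exists_lift_OO {F : C[X]} (hF : F ∈ PS (OO C)) : ∃ G : (OO C)[X],
    G.map (OO C).subtype = F := hF

namespace PData

variable {n d : ℕ} (𝒟 : PData C p n d)

/-- `A_i` over the valuation ring -/
noncomputable def aO (i : Fin n) : (OO C)[X] := (exists_lift_OO (PS_Nr_le (𝒟.hA i))).choose

noncomputable def bO (i : Fin n) : (OO C)[X] := (exists_lift_OO (PS_Nr_le (𝒟.hB i))).choose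

theorem aO_map (i : Fin n) : (𝒟.aO i).map (OO C).subtype = 𝒟.A i :=
  (exists_lift_OO (PS_Nr_le (𝒟.hA i))).choose_spec

theorem bO_map (i : Fin n) : (𝒟.bO i).map (OO C).subtype = 𝒟.B i :=
  (exists_lift_OO (PS_Nr_le (𝒟.hB i))).choose_spec

theorem aO_eval (i : Fin n) (t : OO C) : (((𝒟.aO i).eval t : OO C) : C) = (𝒟.A i).eval (t : C) := by
  rw [← aO_map]
  exact (eval_map_apply (f := (OO C).subtype) t).symm

theorem bO_eval (i : Fin n) (t : OO C) : (((𝒟.bO i).eval t : OO C) : C) = (𝒟.B i).eval (t : C) := by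
  rw [← bO_map]
  exact (eval_map_apply (f := (OO C).subtype) t).symm

theorem aO_deg (i : Fin n) : (𝒟.aO i).natDegree ≤ d := by
  rw [← natDegree_map_eq_of_injective (f := (OO C).subtype) Subtype.val_injective, aO_map]
  exact 𝒟.dA i

theorem bO_deg (i : Fin n) : (𝒟.bO i).natDegree ≤ d := by
  rw [← natDegree_map_eq_of_injective (f := (OO C).subtype) Subtype.val_injective, bO_map]
  exact 𝒟.dB i

theorem coeff_Nr {F G : (OO C)[X]} (h : (F * G).map (OO C).subtype ∈ PS (Nr C p)) (i : ℕ) :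
    (((F * G).coeff i : OO C) : C) ∈ Nr C p := by
  have := mem_PS.1 h i
  rwa [coeff_map] at this

theorem UU_Nr (j k : Fin n) (i : ℕ) : (((𝒟.bO j * 𝒟.aO k).coeff i : OO C) : C) ∈ Nr C p := by
  apply coeff_Nr
  rw [Polynomial.map_mul, aO_map, bO_map]
  exact mul_mem (𝒟.hB j) (𝒟.hA k)

theorem VV_Nr (j k : Fin n) (i : ℕ) : (((𝒟.aO j * 𝒟.bO k).coeff i : OO C) : C) ∈ Nr C p := by
  apply coeff_Nr
  rw [Polynomial.map_mul, aO_map, bO_map]
  exact mul_mem (𝒟.hA j) (𝒟.hB k)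

/-- the relation between two coordinates, to second order -/
def Rel2 (κ : OO C) (Y : Fin n → Cˣ) (j k : Fin n) (ζ : Cˣ) : Prop :=
  ‖((Y k * (Y j)⁻¹ * ζ⁻¹ : Cˣ) : C) - (1 + p * κ * (((Y k : Cˣ) : C)⁻¹ - ((Y j : Cˣ) : C)⁻¹))‖ ≤
    ‖(p : C)‖ ^ 2

variable {k : Type} [Field k] [CharP k p] (red : OO C →+* k)

theorem red_ne (hker : ∀ x : OO C, red x = 0 ↔ ‖(x : C)‖ < 1) {x : OO C} (hx : ‖(x : C)‖ = 1) :
    red x ≠ 0 := by
  rw [Ne, hker, hx]
  exact lt_irrefl 1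

theorem red_eq (hker : ∀ x : OO C, red x = 0 ↔ ‖(x : C)‖ < 1) {x y : OO C}
    (h : ‖(x : C) - y‖ < 1) : red x = red y := by
  rw [← sub_eq_zero, ← map_sub, hker]
  exact h

/-- from `Rel2` to the valuation ring -/
theorem rel2_OO (hker : ∀ x : OO C, red x = 0 ↔ ‖(x : C)‖ < 1) (hp0 : 0 < ‖(p : C)‖)
    {κ : OO C} {Y : Fin n → Cˣ} {j l : Fin n} {ζ : OO C} {ζu : Cˣ} (hζ : (ζu : C) = ζ)
    {t : OO C} (hj : 𝒟.Val (t : C) Y j) (hl : 𝒟.Val (t : C) Y l)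
    (hrel : Rel2 (p := p) κ Y j l ζu) : ∃ r ρ : OO C,
    (𝒟.bO j * 𝒟.aO l).eval t = ζ * (𝒟.aO j * 𝒟.bO l).eval t + p * r + p ^ 2 * ρ ∧
    red r * ((𝒟.aO j * 𝒟.bO l).map red).eval (red t) =
      (Polynomial.C (red κ) * ((𝒟.aO j * 𝒟.bO l).map red - (𝒟.bO j * 𝒟.aO l).map red) *
        ((𝒟.bO j).map red * (𝒟.bO l).map red)).eval (red t) := by
  have hpC : (p : C) ≠ 0 := norm_pos_iff.1 hp0
  obtain ⟨⟨hAj, hBj⟩, hYj⟩ := hj
  obtain ⟨⟨hAl, hBl⟩, hYl⟩ := hl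
  set Aj := (𝒟.A j).eval (t : C) with hAjd
  set Bj := (𝒟.B j).eval (t : C) with hBjd
  set Al := (𝒟.A l).eval (t : C) with hAld
  set Bl := (𝒟.B l).eval (t : C) with hBld
  have hAj0 : Aj ≠ 0 := norm_pos_iff.1 (by rw [hAj]; exact one_pos)
  have hBj0 : Bj ≠ 0 := norm_pos_iff.1 (by rw [hBj]; exact one_pos)
  have hAl0 : Al ≠ 0 := norm_pos_iff.1 (by rw [hAl]; exact one_pos)
  have hBl0 : Bl ≠ 0 := norm_pos_iff.1 (by rw [hBl]; exact one_pos)
  have hζ0 : (ζ : C) ≠ 0 := by rw [← hζ]; exact ζu.ne_zero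
  have eYj : (Y j : C) = Aj / Bj := by rw [hYj]; field_simp
  have eYl : (Y l : C) = Al / Bl := by rw [hYl]; field_simp
  set δ : C := ((Y l * (Y j)⁻¹ * ζu⁻¹ : Cˣ) : C) -
    (1 + p * κ * (((Y l : Cˣ) : C)⁻¹ - ((Y j : Cˣ) : C)⁻¹)) with hδ
  have hδn : ‖δ‖ ≤ ‖(p : C)‖ ^ 2 := hrel
  have hδe : (ζ : C) * (Aj * Bl) * δ = Bj * Al - ζ * (Aj * Bl) -
      p * (κ * ζ * (Aj * Bl) * (Bl / Al - Bj / Aj)) := by
    rw [hδ, Units.val_mul, Units.val_mul, Units.val_inv_eq_inv_val, Units.val_inv_eq_inv_val,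
      eYj, eYl, hζ]
    field_simp
    ring
  have hVn : ‖Aj * Bl‖ ≤ 1 := nmul_le hAj.le hBl.le
  have hrn : ‖(κ : C) * ζ * (Aj * Bl) * (Bl / Al - Bj / Aj)‖ ≤ 1 := by
    refine nmul_le (nmul_le (nmul_le κ.2 ζ.2) hVn) (nsub_le ?_ ?_)
    · rw [norm_div, hAl, hBl, div_one]
    · rw [norm_div, hAj, hBj, div_one]
  have hρn : ‖(ζ : C) * (Aj * Bl) * δ / p ^ 2‖ ≤ 1 := by
    rw [norm_div, norm_pow]
    refine div_le_one_of_le₀ ?_ (by positivity)
    exact nmul_le (nmul_le ζ.2 hVn) hδn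
  have hcoe : ((p : OO C) : C) = (p : C) := by simp
  refine ⟨⟨_, hrn⟩, ⟨_, hρn⟩, Subtype.ext ?_, ?_⟩
  · rw [eval_mul, eval_mul]
    show ((((𝒟.bO j).eval t : OO C) : C) * (((𝒟.aO l).eval t : OO C) : C)) =
      (ζ : C) * ((((𝒟.aO j).eval t : OO C) : C) * (((𝒟.bO l).eval t : OO C) : C)) +
        ((p : OO C) : C) * ((κ : C) * ζ * (Aj * Bl) * (Bl / Al - Bj / Aj)) +
        ((p : OO C) : C) ^ 2 * ((ζ : C) * (Aj * Bl) * δ / p ^ 2)
    rw [hcoe, aO_eval, aO_eval, bO_eval, bO_eval]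
    rw [← hAjd, ← hBjd, ← hAld, ← hBld]
    have e2 : (p : C) ^ 2 * ((ζ : C) * (Aj * Bl) * δ / p ^ 2) = (ζ : C) * (Aj * Bl) * δ := by
      field_simp
    rw [e2, hδe]
    ring
  · -- in the residue field
    set r : OO C := ⟨_, hrn⟩ with hr
    set ρ : OO C := ⟨_, hρn⟩ with hρ
    have hredp : red (p : OO C) = 0 := by rw [map_natCast]; exact CharP.cast_eq_zero k p
    set a1 := (𝒟.aO j).eval t with ha1
    set b1 := (𝒟.bO j).eval t with hb1
    set a2 := (𝒟.aO l).eval t with ha2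
    set b2 := (𝒟.bO l).eval t with hb2
    have ca1 : (a1 : C) = Aj := 𝒟.aO_eval j t
    have cb1 : (b1 : C) = Bj := 𝒟.bO_eval j t
    have ca2 : (a2 : C) = Al := 𝒟.aO_eval l t
    have cb2 : (b2 : C) = Bl := 𝒟.bO_eval l t
    have h1 : r * (a1 * a2) = κ * ζ * (a1 * b2) * (b2 * a1 - b1 * a2) := by
      apply Subtype.ext
      show ((κ : C) * ζ * (Aj * Bl) * (Bl / Al - Bj / Aj)) * ((a1 : C) * a2) =
        (κ : C) * ζ * ((a1 : C) * b2) * ((b2 : C) * a1 - b1 * a2)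
      rw [ca1, cb1, ca2, cb2]
      field_simp
    have h2 : b1 * a2 = ζ * (a1 * b2) + p * r + p ^ 2 * ρ := by
      apply Subtype.ext
      show ((b1 : C) * (a2 : C)) = (ζ : C) * ((a1 : C) * (b2 : C)) +
        ((p : OO C) : C) * ((κ : C) * ζ * (Aj * Bl) * (Bl / Al - Bj / Aj)) +
        ((p : OO C) : C) ^ 2 * ((ζ : C) * (Aj * Bl) * δ / p ^ 2)
      rw [hcoe, ca1, cb1, ca2, cb2]
      have e2 : (p : C) ^ 2 * ((ζ : C) * (Aj * Bl) * δ / p ^ 2) = (ζ : C) * (Aj * Bl) * δ := by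
        field_simp
      rw [e2, hδe]
      ring
    have h1' := congrArg red h1
    have h2' := congrArg red h2
    simp only [map_mul, map_sub, map_add, map_pow, hredp, zero_mul, add_zero,
      zero_pow two_ne_zero] at h1' h2'
    have hra2 : red a2 ≠ 0 := red_ne red hker (by rw [ca2]; exact hAl)
    have h3 : red r * red a1 = red κ * red b1 * (red b2 * red a1 - red b1 * red a2) := by
      apply mul_right_cancel₀ hra2
      linear_combination h1' - red κ * (red b2 * red a1 - red b1 * red a2) * h2'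
    simp only [Polynomial.map_mul, eval_mul, eval_sub, eval_C, eval_map_apply]
    rw [← ha1, ← hb1, ← ha2, ← hb2]
    linear_combination (red b2) * h3

/-- a point where exactly one of the two polynomials of a pair vanishes -/
theorem exists_excl (hker : ∀ x : OO C, red x = 0 ↔ ‖(x : C)‖ < 1) (i : Fin n) :
    ∃ x₀ : k, (∀ j l : Fin n, j ≠ l → (i = j ∨ i = l) →
      ((((𝒟.bO j * 𝒟.aO l).map red).eval x₀ = 0 ∧ ((𝒟.aO j * 𝒟.bO l).map red).eval x₀ ≠ 0) ∨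
      (((𝒟.bO j * 𝒟.aO l).map red).eval x₀ ≠ 0 ∧ ((𝒟.aO j * 𝒟.bO l).map red).eval x₀ = 0))) ∧
      (∀ j l : Fin n, i ≠ j → i ≠ l → ((𝒟.bO j * 𝒟.aO l).map red).eval x₀ ≠ 0 ∧
        ((𝒟.aO j * 𝒟.bO l).map red).eval x₀ ≠ 0) := by
  obtain ⟨x, hx, hlt⟩ := 𝒟.g3 i
  have hbad : ¬ 𝒟.Good x i := by
    rw [good_iff 𝒟 hx]; exact hlt.ne
  set X₀ : OO C := ⟨x, hx⟩ with hX₀
  have hgood : ∀ j, j ≠ i → red ((𝒟.aO j).eval X₀) ≠ 0 ∧ red ((𝒟.bO j).eval X₀) ≠ 0 := by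
    intro j hj
    obtain ⟨h1, h2⟩ := 𝒟.good_of_ne hx hbad hj
    exact ⟨red_ne red hker (by rw [aO_eval]; exact h1), red_ne red hker (by rw [bO_eval]; exact h2)⟩
  have hone : (red ((𝒟.aO i).eval X₀) = 0 ∧ red ((𝒟.bO i).eval X₀) ≠ 0) ∨
      (red ((𝒟.aO i).eval X₀) ≠ 0 ∧ red ((𝒟.bO i).eval X₀) = 0) := by
    rcases 𝒟.g2 x hx i with h | h
    · right
      refine ⟨red_ne red hker (by rw [aO_eval]; exact h), ?_⟩
      rw [hker, bO_eval]
      exact lt_of_le_of_ne (𝒟.Bn i hx) fun h' => hbad ⟨h, h'⟩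
    · left
      refine ⟨?_, red_ne red hker (by rw [bO_eval]; exact h)⟩
      rw [hker, aO_eval]
      exact lt_of_le_of_ne (𝒟.An i hx) fun h' => hbad ⟨h', h⟩
  refine ⟨red X₀, ?_, ?_⟩
  · intro j l hjl hi
    simp only [Polynomial.map_mul, eval_mul, eval_map_apply]
    rcases hi with rfl | rfl
    · obtain ⟨h1, h2⟩ := hgood l hjl.symm
      rcases hone with ⟨h3, h4⟩ | ⟨h3, h4⟩
      · right; exact ⟨mul_ne_zero h4 h1, by rw [h3, zero_mul]⟩
      · left; exact ⟨by rw [h4, zero_mul], mul_ne_zero h3 h2⟩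
    · obtain ⟨h1, h2⟩ := hgood j hjl
      rcases hone with ⟨h3, h4⟩ | ⟨h3, h4⟩
      · left; exact ⟨by rw [h3, mul_zero], mul_ne_zero h1 h4⟩
      · right; exact ⟨mul_ne_zero h2 h3, by rw [h4, mul_zero]⟩
  · intro j l hj hl
    simp only [Polynomial.map_mul, eval_mul, eval_map_apply]
    obtain ⟨h1, h2⟩ := hgood j hj.symm
    obtain ⟨h3, h4⟩ := hgood l hl.symm
    exact ⟨mul_ne_zero h2 h3, mul_ne_zero h1 h4⟩

theorem UU_deg (j l : Fin n) : ((𝒟.bO j * 𝒟.aO l).map red).natDegree ≤ 2 * d := by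
  refine (natDegree_map_le).trans (natDegree_mul_le.trans ?_)
  have := 𝒟.bO_deg j
  have := 𝒟.aO_deg l
  omega

theorem VV_deg (j l : Fin n) : ((𝒟.aO j * 𝒟.bO l).map red).natDegree ≤ 2 * d := by
  refine (natDegree_map_le).trans (natDegree_mul_le.trans ?_)
  have := 𝒟.aO_deg j
  have := 𝒟.bO_deg l
  omega

theorem aO_ne (hker : ∀ x : OO C, red x = 0 ↔ ‖(x : C)‖ < 1) {i j : Fin n} (h : i ≠ j) :
    (𝒟.aO i).map red ≠ 0 := by
  obtain ⟨x, hx, hlt⟩ := 𝒟.g3 j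
  have hbad : ¬ 𝒟.Good x j := by
    rw [good_iff 𝒟 hx]; exact hlt.ne
  obtain ⟨h1, h2⟩ := 𝒟.good_of_ne hx hbad h
  intro h0
  have h3 := red_ne red hker (x := (𝒟.aO i).eval ⟨x, hx⟩) (by rw [aO_eval]; exact h1)
  rw [← eval_map_apply, h0, eval_zero] at h3
  exact h3 rfl

theorem bO_ne (hker : ∀ x : OO C, red x = 0 ↔ ‖(x : C)‖ < 1) {i j : Fin n} (h : i ≠ j) :
    (𝒟.bO i).map red ≠ 0 := by
  obtain ⟨x, hx, hlt⟩ := 𝒟.g3 j
  have hbad : ¬ 𝒟.Good x j := by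
    rw [good_iff 𝒟 hx]; exact hlt.ne
  obtain ⟨h1, h2⟩ := 𝒟.good_of_ne hx hbad h
  intro h0
  have h3 := red_ne red hker (x := (𝒟.bO i).eval ⟨x, hx⟩) (by rw [bO_eval]; exact h2)
  rw [← eval_map_apply, h0, eval_zero] at h3
  exact h3 rfl

theorem UU_ne (hker : ∀ x : OO C, red x = 0 ↔ ‖(x : C)‖ < 1) {a b : Fin n} (h : a ≠ b) :
    (𝒟.bO a * 𝒟.aO b).map red ≠ 0 := by
  rw [Polynomial.map_mul]
  exact mul_ne_zero (𝒟.bO_ne red hker h) (𝒟.aO_ne red hker h.symm)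

theorem VV_ne (hker : ∀ x : OO C, red x = 0 ↔ ‖(x : C)‖ < 1) {a b : Fin n} (h : a ≠ b) :
    (𝒟.aO a * 𝒟.bO b).map red ≠ 0 := by
  rw [Polynomial.map_mul]
  exact mul_ne_zero (𝒟.aO_ne red hker h) (𝒟.bO_ne red hker h.symm)

/-- the tame equation: the residue of `t` is a root of a fixed nonzero polynomial -/
theorem tame_main [IsAlgClosed C] (hpD : 16 * (d + 1) ^ 4 < p) (hp0 : 0 < ‖(p : C)‖)
    (hp1 : ‖(p : C)‖ < 1) (hker : ∀ x : OO C, red x = 0 ↔ ‖(x : C)‖ < 1) (κ : OO C)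
    {j l j' l' : Fin n} (hjl : j ≠ l) (hjl' : j' ≠ l')
    (hne : ¬ ((j' = j ∧ l' = l) ∨ (j' = l ∧ l' = j))) :
    ∃ Pp : k[X], Pp ≠ 0 ∧ ∀ (t t₀ : OO C) (f : ℕ) (Y : Fin n → Cˣ) (ζ ζ' : OO C) (ζu ζu' : Cˣ)
      (f₁ f₂ : ℕ), 0 < f → t₀ ^ p ^ f = t₀ → ‖(t : C) - t₀‖ < 1 → 𝒟.Val (t : C) Y j →
      𝒟.Val (t : C) Y l → 𝒟.Val (t : C) Y j' → 𝒟.Val (t : C) Y l' → (ζu : C) = ζ →
      (ζu' : C) = ζ' → 0 < f₁ → ζ ^ p ^ f₁ = ζ → 0 < f₂ → ζ' ^ p ^ f₂ = ζ' →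
      Rel2 (p := p) κ Y j l ζu → Rel2 (p := p) κ Y j' l' ζu' → Pp.eval (red t) = 0 := by
  have hd2 : 2 * d < p := by
    have hd1 : (d + 1) ^ 1 ≤ (d + 1) ^ 4 := Nat.pow_le_pow_right (Nat.succ_pos d) (by norm_num)
    rw [pow_one] at hd1
    omega
  have hpC : (p : C) ≠ 0 := norm_pos_iff.1 hp0
  have hcoe : ((p : OO C) : C) = (p : C) := by simp
  have hpO : (p : OO C) ≠ 0 := by
    intro h
    apply hpC
    rw [← hcoe, h]
    rfl
  have hredp : red (p : OO C) = 0 := by rw [map_natCast]; exact CharP.cast_eq_zero k p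
  obtain ⟨sU⟩ := exists_tsplit hp0 hp1 _ (𝒟.UU_Nr j l)
  obtain ⟨sV⟩ := exists_tsplit hp0 hp1 _ (𝒟.VV_Nr j l)
  obtain ⟨sU'⟩ := exists_tsplit hp0 hp1 _ (𝒟.UU_Nr j' l')
  obtain ⟨sV'⟩ := exists_tsplit hp0 hp1 _ (𝒟.VV_Nr j' l')
  have hTeq : ∀ {F : (OO C)[X]} (s : TSplit (OO C) p F), s.T.map red = F.map red := by
    intro F s
    conv_rhs => rw [s.eq]
    rw [Polynomial.map_add, Polynomial.map_mul, Polynomial.map_C, hredp, C_0, zero_mul, add_zero]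
  have hWne : ∀ a b : Fin n, a ≠ b →
      derivative ((𝒟.bO a * 𝒟.aO b).map red) * (𝒟.aO a * 𝒟.bO b).map red -
        (𝒟.bO a * 𝒟.aO b).map red * derivative ((𝒟.aO a * 𝒟.bO b).map red) ≠ 0 := by
    intro a b hab
    obtain ⟨x₀, h1, -⟩ := 𝒟.exists_excl red hker a
    exact (wronskian_mult (p := p) (𝒟.UU_ne red hker hab) (𝒟.VV_ne red hker hab)
      ((𝒟.UU_deg red a b).trans_lt hd2) ((𝒟.VV_deg red a b).trans_lt hd2)
      (h1 a b hab (Or.inl rfl))).1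
  -- an index of the first pair outside the second
  obtain ⟨i, hi1, hi2, hi3⟩ : ∃ i, (i = j ∨ i = l) ∧ i ≠ j' ∧ i ≠ l' := by
    by_cases h1 : j ≠ j' ∧ j ≠ l'
    · exact ⟨j, Or.inl rfl, h1.1, h1.2⟩
    · refine ⟨l, Or.inr rfl, ?_, ?_⟩
      · intro h2
        apply hne
        right
        refine ⟨h2.symm, ?_⟩
        by_contra h3
        exact h1 ⟨fun h4 => hjl (h4.trans h2.symm), fun h4 => h3 h4.symm⟩
      · intro h2
        apply hne
        left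
        refine ⟨?_, h2.symm⟩
        by_contra h3
        exact h1 ⟨fun h4 => h3 h4.symm, fun h4 => hjl (h4.trans h2.symm)⟩
  obtain ⟨x₀, hx1, hx2⟩ := 𝒟.exists_excl red hker i
  obtain ⟨hx3, hx4⟩ := hx2 j' l' hi2 hi3
  have hne2 := tame_ne_zero (p := p) (x₀ := x₀)
    (Us₂ := (sharp (p := p) sU.T).map red) (Vs₂ := (sharp (p := p) sV.T).map red)
    (Us₃ := (sharp (p := p) sU'.T).map red) (Vs₃ := (sharp (p := p) sV'.T).map red)
    (U₂ := (𝒟.bO j * 𝒟.aO l).map red) (V₂ := (𝒟.aO j * 𝒟.bO l).map red)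
    (U₃ := (𝒟.bO j' * 𝒟.aO l').map red) (V₃ := (𝒟.aO j' * 𝒟.bO l').map red)
    (S₂ := sU.V.map red * (𝒟.aO j * 𝒟.bO l).map red - (𝒟.bO j * 𝒟.aO l).map red * sV.V.map red -
      Polynomial.C (red κ) * ((𝒟.aO j * 𝒟.bO l).map red - (𝒟.bO j * 𝒟.aO l).map red) *
        ((𝒟.bO j).map red * (𝒟.bO l).map red))
    (S₃ := sU'.V.map red * (𝒟.aO j' * 𝒟.bO l').map red -
      (𝒟.bO j' * 𝒟.aO l').map red * sV'.V.map red -
      Polynomial.C (red κ) * ((𝒟.aO j' * 𝒟.bO l').map red - (𝒟.bO j' * 𝒟.aO l').map red) *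
        ((𝒟.bO j').map red * (𝒟.bO l').map red))
    (by rw [← hTeq sU]; exact sharp_derivative red hpO sU.T)
    (by rw [← hTeq sV]; exact sharp_derivative red hpO sV.T)
    (by rw [← hTeq sU']; exact sharp_derivative red hpO sU'.T)
    (by rw [← hTeq sV']; exact sharp_derivative red hpO sV'.T)
    (𝒟.UU_ne red hker hjl) (𝒟.VV_ne red hker hjl)
    ((𝒟.UU_deg red j l).trans_lt hd2) ((𝒟.VV_deg red j l).trans_lt hd2)
    (hx1 j l hjl hi1) hx3 hx4 (hWne j' l' hjl')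
  refine ⟨_, mul_ne_zero (hWne j l hjl) hne2, ?_⟩
  intro t t₀ f Y ζ ζ' ζu ζu' f₁ f₂ hf ht₀ htt hj hl hj' hl' hζ hζ' hf₁ hfζ hf₂ hfζ' hr hr'
  rw [eval_mul]
  by_cases hWx : (derivative ((𝒟.bO j * 𝒟.aO l).map red) * (𝒟.aO j * 𝒟.bO l).map red -
        (𝒟.bO j * 𝒟.aO l).map red * derivative ((𝒟.aO j * 𝒟.bO l).map red)).eval (red t) = 0
  · rw [hWx, zero_mul]
  obtain ⟨r, ρ, h1, h2⟩ := 𝒟.rel2_OO red hker hp0 hζ hj hl hr
  obtain ⟨r', ρ', h1', h2'⟩ := 𝒟.rel2_OO red hker hp0 hζ' hj' hl' hr'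
  have hxx : red t = red t₀ := red_eq red hker htt
  -- the distance is at most `‖p‖`
  have hdist : ‖(t : C) - t₀‖ ≤ ‖(p : C)‖ := by
    set E : (OO C)[X] := 𝒟.bO j * 𝒟.aO l - Polynomial.C ζ * (𝒟.aO j * 𝒟.bO l) with hE
    obtain ⟨c, hc⟩ := binomExpansion E t₀ (t - t₀)
    rw [add_sub_cancel] at hc
    have hEt : ‖((E.eval t : OO C) : C)‖ ≤ ‖(p : C)‖ := by
      have : E.eval t = p * (r + p * ρ) := by
        rw [hE, eval_sub, eval_mul (p := Polynomial.C ζ), eval_C, h1]; ring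
      rw [this, Subring.coe_mul, hcoe]
      exact nmul_le' le_rfl (r + p * ρ).2
    have hEred : red (E.eval t) = 0 := by
      rw [hker]; exact hEt.trans_lt hp1
    have hEt₀r : red (E.eval t₀) = 0 := by
      rw [← eval_map_apply] at hEred ⊢
      rw [← hxx]
      exact hEred
    have hENr : ((E.eval t₀ : OO C) : C) ∈ Nr C p := by
      have hmap : E.map (OO C).subtype ∈ PS (Nr C p) := by
        rw [hE, Polynomial.map_sub, Polynomial.map_mul, Polynomial.map_mul, Polynomial.map_mul,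
          Polynomial.map_C, aO_map, bO_map, aO_map, bO_map]
        refine sub_mem (mul_mem (𝒟.hB j) (𝒟.hA l)) (mul_mem (C_mem_PS ?_)
          (mul_mem (𝒟.hA j) (𝒟.hB l)))
        exact Nr_of_fixed hf₁ (congrArg Subtype.val hfζ)
      have := eval_mem hmap (Nr_of_fixed hf (congrArg Subtype.val ht₀))
      have e : ((E.eval t₀ : OO C) : C) = (E.map (OO C).subtype).eval (t₀ : C) :=
        (eval_map_apply (f := (OO C).subtype) t₀).symm
      rw [e]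
      exact this
    have hEt₀ : ‖((E.eval t₀ : OO C) : C)‖ ≤ ‖(p : C)‖ := Nr_gap hENr ((hker _).1 hEt₀r)
    have hE' : ‖(((derivative E).eval t₀ : OO C) : C)‖ = 1 := by
      refine le_antisymm ((derivative E).eval t₀).2 (not_lt.1 fun h => ?_)
      rw [← hker, ← eval_map_apply, ← hxx, ← derivative_map, hE] at h
      apply hWx
      rw [Polynomial.map_sub, Polynomial.map_mul (p := Polynomial.C ζ), Polynomial.map_C,
        derivative_sub, derivative_mul (f := Polynomial.C (red ζ)), derivative_C, zero_mul,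
        zero_add, eval_sub, eval_mul, eval_C] at h
      have huv : ((𝒟.bO j * 𝒟.aO l).map red).eval (red t) =
          red ζ * ((𝒟.aO j * 𝒟.bO l).map red).eval (red t) := by
        rw [eval_map_apply, eval_map_apply, h1]
        simp only [map_add, map_mul, map_pow, hredp]
        ring
      rw [eval_sub, eval_mul, eval_mul, huv]
      linear_combination ((𝒟.aO j * 𝒟.bO l).map red).eval (red t) * h
    by_contra hcon
    push Not at hcon
    have hcC : ((E.eval t : OO C) : C) = ((E.eval t₀ : OO C) : C) +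
        (((derivative E).eval t₀ : OO C) : C) * ((t : C) - t₀) + (c : C) * ((t : C) - t₀) ^ 2 :=
      congrArg Subtype.val hc
    have h5 : ‖(((derivative E).eval t₀ : OO C) : C) * ((t : C) - t₀)‖ = ‖(t : C) - t₀‖ := by
      rw [norm_mul, hE', one_mul]
    have h6 : (((derivative E).eval t₀ : OO C) : C) * ((t : C) - t₀) =
        (((E.eval t : OO C) : C) - ((E.eval t₀ : OO C) : C)) - (c : C) * ((t : C) - t₀) ^ 2 := by
      rw [hcC]; ring
    have h7 : ‖(((derivative E).eval t₀ : OO C) : C) * ((t : C) - t₀)‖ < ‖(t : C) - t₀‖ := by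
      rw [h6]
      refine nsub_lt ((nsub_le hEt hEt₀).trans_lt hcon) ?_
      refine lt_of_le_of_lt (nmul_le c.2 le_rfl) ?_
      rw [norm_pow, sq]
      have h8 : 0 < ‖(t : C) - t₀‖ := (norm_nonneg _).trans_lt hcon
      nlinarith
    rw [h5] at h7
    exact lt_irrefl _ h7
  obtain ⟨η, hη⟩ : ∃ η : OO C, t = t₀ + p * η := by
    refine ⟨⟨((t : C) - t₀) / p, ?_⟩, Subtype.ext ?_⟩
    · rw [mem_OO, norm_div]
      exact div_le_one_of_le₀ hdist (norm_nonneg _)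
    · show (t : C) = t₀ + ((p : OO C) : C) * (((t : C) - t₀) / p)
      rw [hcoe]
      field_simp
      ring
  rw [hxx] at h2 h2' ⊢
  rw [hη] at h1 h1'
  have k1 := tame_identity red hpO sU sV hf hf₁ ht₀ hfζ h1 h2
  have k2 := tame_identity red hpO sU' sV' hf hf₂ ht₀ hfζ' h1' h2'
  exact tame_final (p := p) _ _ _ _ _ _ _ _ k1 k2

end PData

end Pool.Agent.Y226
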