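import Pool.Agent.H294ZP.Main
import Pool.Agent.Y226.ZP.Basic

/-!
# The Tate parametrisation over a complete ultrametric field
-/

set_option autoImplicit false
set_option linter.unusedSectionVars false

open UpperHalfPlane H294ZP

namespace Pool.Agent.Y226

/-- the ring of algebraic integers -/
abbrev ZZ : Subalgebra ℤ ℂ := integralClosure ℤ ℂ

/-- the inclusion -/
noncomputable def ιZ : ZZ →+* ℂ := algebraMap ZZ ℂ

theorem ιZ_apply (z : ZZ) : ιZ z = (z : ℂ) := rfl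

section ev

variable {K : Type} [NormedField K] [CompleteSpace K] (φ : ZZ →+* K)

/-- evaluation of a power series with algebraic integer coefficients -/
def Ev (q : K) (F : PowerSeries ZZ) (S : K) : Prop :=
  HasSum (fun n => φ (PowerSeries.coeff n F) * q ^ n) S ∧
    Summable (fun n => ‖φ (PowerSeries.coeff n F) * q ^ n‖)

variable {φ} {q : K}

theorem Ev.unique {F : PowerSeries ZZ} {S T : K} (h : Ev φ q F S) (h' : Ev φ q F T) : S = T :=
  h.1.unique h'.1

theorem Ev.add {F G : PowerSeries ZZ} {S T : K} (h : Ev φ q F S) (h' : Ev φ q G T) :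
    Ev φ q (F + G) (S + T) := by
  have e : ∀ n, φ (PowerSeries.coeff n (F + G)) * q ^ n =
      φ (PowerSeries.coeff n F) * q ^ n + φ (PowerSeries.coeff n G) * q ^ n := by
    intro n; rw [map_add, map_add, add_mul]
  refine ⟨?_, ?_⟩
  · simp only [e]; exact h.1.add h'.1
  · simp only [e]
    exact Summable.of_nonneg_of_le (fun n => norm_nonneg _) (fun n => norm_add_le _ _)
      (h.2.add h'.2)

theorem Ev.mul {F G : PowerSeries ZZ} {S T : K} (h : Ev φ q F S) (h' : Ev φ q G T) :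
    Ev φ q (F * G) (S * T) := by
  have e : ∀ n, φ (PowerSeries.coeff n (F * G)) * q ^ n =
      ∑ kl ∈ Finset.HasAntidiagonal.antidiagonal n,
      (φ (PowerSeries.coeff kl.1 F) * q ^ kl.1) * (φ (PowerSeries.coeff kl.2 G) * q ^ kl.2) := by
    intro n
    rw [PowerSeries.coeff_mul, map_sum, Finset.sum_mul]
    refine Finset.sum_congr rfl fun kl hkl => ?_
    rw [← Finset.HasAntidiagonal.mem_antidiagonal.1 hkl, pow_add, map_mul]
    ring
  have h4 := summable_norm_sum_mul_antidiagonal_of_summable_norm h.2 h'.2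
  have h5 := tsum_mul_tsum_eq_tsum_sum_antidiagonal_of_summable_norm h.2 h'.2
  rw [h.1.tsum_eq, h'.1.tsum_eq] at h5
  refine ⟨?_, ?_⟩
  · simp only [e]; rw [h5]; exact h4.of_norm.hasSum
  · simp only [e]; exact h4

theorem Ev.C (a : ZZ) : Ev φ q (PowerSeries.C a) (φ a) := by
  have e : ∀ n, n ≠ 0 → φ (PowerSeries.coeff n (PowerSeries.C a)) * q ^ n = 0 := by
    intro n hn
    rw [PowerSeries.coeff_C, if_neg hn, map_zero, zero_mul]
  refine ⟨?_, ?_⟩
  · have := hasSum_single (f := fun n => φ (PowerSeries.coeff n (PowerSeries.C a)) * q ^ n) 0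
      (fun n hn => e n hn)
    simpa using this
  · refine summable_of_ne_finset_zero (s := {0}) fun n hn => ?_
    rw [e n (by simpa using hn), norm_zero]

theorem Ev.X : Ev φ q PowerSeries.X q := by
  have e : ∀ n, n ≠ 1 → φ (PowerSeries.coeff n (PowerSeries.X : PowerSeries ZZ)) * q ^ n = 0 := by
    intro n hn
    rw [PowerSeries.coeff_X, if_neg hn, map_zero, zero_mul]
  refine ⟨?_, ?_⟩
  · have := hasSum_single (f := fun n => φ (PowerSeries.coeff n
      (PowerSeries.X : PowerSeries ZZ)) * q ^ n) 1 (fun n hn => e n hn)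
    simpa using this
  · refine summable_of_ne_finset_zero (s := {1}) fun n hn => ?_
    rw [e n (by simpa using hn), norm_zero]

theorem Ev.Xpow (m : ℕ) : Ev φ q (PowerSeries.X ^ m) (q ^ m) := by
  induction m with
  | zero =>
    have := Ev.C (φ := φ) (q := q) 1
    simpa using this
  | succ m ih => rw [pow_succ, pow_succ]; exact ih.mul Ev.X

theorem Ev.neg {F : PowerSeries ZZ} {S : K} (h : Ev φ q F S) : Ev φ q (-F) (-S) := by
  have h1 := (Ev.C (φ := φ) (q := q) (-1)).mul h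
  simpa using h1

end ev

/-- identity theorem -/
theorem ev_zero {N : ℕ} (hN : 0 < N) {G : PowerSeries ZZ} (h : ∀ τ : ℍ, Ev ιZ (qq N τ) G 0) :
    G = 0 := by
  have hN0 : (N : ℂ) ≠ 0 := by exact_mod_cast hN.ne'
  set P : PowerSeries ℂ := PowerSeries.map ιZ G with hP
  have hR : TA2.R (1 + P) (fun _ => 1) := by
    intro τ
    obtain ⟨σ, hσ⟩ : ∃ σ : ℍ, qq N σ = qq 1 τ := by
      refine ⟨⟨(N : ℂ) * τ, ?_⟩, ?_⟩
      · rw [Complex.mul_im]
        simp only [Complex.natCast_re, Complex.natCast_im, zero_mul, add_zero]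
        exact mul_pos (by exact_mod_cast hN) τ.im_pos
      · unfold qq
        congr 1
        show 2 * Real.pi * Complex.I * ((N : ℂ) * τ) / N = 2 * Real.pi * Complex.I * τ / (1 : ℕ)
        field_simp
        simp
    have h1 := (h σ).1
    rw [hσ] at h1
    have h2 : HasSum (fun n => PowerSeries.coeff n (1 : PowerSeries ℂ) * qq 1 τ ^ n) 1 := by
      have := hasSum_single (f := fun n => PowerSeries.coeff n (1 : PowerSeries ℂ) * qq 1 τ ^ n) 0
        (fun n hn => by rw [PowerSeries.coeff_one, if_neg hn, zero_mul])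
      simpa using this
    have h3 := h2.add h1
    rw [add_zero] at h3
    convert h3 using 1
    funext n
    rw [map_add, hP, PowerSeries.coeff_map, add_mul]
  have hR1 : TA2.R (1 : PowerSeries ℂ) (fun _ => 1) := by
    intro τ
    have := hasSum_single (f := fun n => PowerSeries.coeff n (1 : PowerSeries ℂ) * qq 1 τ ^ n) 0
      (fun n hn => by rw [PowerSeries.coeff_one, if_neg hn, zero_mul])
    simpa using this
  have h4 := TA2.R_unique hR hR1
  have h5 : P = 0 := by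
    have : 1 + P = 1 + 0 := by rw [h4, add_zero]
    exact add_left_cancel this
  ext n
  have h6 := congrArg (PowerSeries.coeff n) h5
  rw [hP, PowerSeries.coeff_map, map_zero] at h6
  rw [map_zero]
  have h7 : ((PowerSeries.coeff n G : ZZ) : ℂ) = ((0 : ZZ) : ℂ) := h6
  exact h7

section rep

variable {C : Type} [NormedField C] [CompleteSpace C]
  (ψ : ZZ →+* C)

/-- `y` is the value at `Q` of the Laurent expansion of `f` -/
def Rep (N : ℕ) (Q : C) (f : ℍ → ℂ) (y : C) : Prop :=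
  ∃ (m : ℕ) (F : PowerSeries ZZ), (∀ τ, Ev ιZ (qq N τ) F (qq N τ ^ m * f τ)) ∧
    Ev ψ Q F (Q ^ m * y)

variable {ψ} {N : ℕ} {Q : C}

theorem Rep.unique (hN : 0 < N) (hQ : Q ≠ 0) {f : ℍ → ℂ} {y y' : C} (h : Rep ψ N Q f y)
    (h' : Rep ψ N Q f y') : y = y' := by
  obtain ⟨m, F, h1, h2⟩ := h
  obtain ⟨m', F', h1', h2'⟩ := h'
  have hG : F * PowerSeries.X ^ m' + -(F' * PowerSeries.X ^ m) = 0 := by
    apply ev_zero hN
    intro τ
    have h3 := ((h1 τ).mul (Ev.Xpow m')).add ((h1' τ).mul (Ev.Xpow m)).neg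
    convert h3 using 1
    ring
  have h4 := (h2.mul (Ev.Xpow m')).add (h2'.mul (Ev.Xpow m)).neg
  rw [hG] at h4
  have h5 : Ev ψ Q (0 : PowerSeries ZZ) 0 := by
    have := Ev.C (φ := ψ) (q := Q) 0
    simpa using this
  have h6 := h4.unique h5
  have hQm : Q ^ m * Q ^ m' ≠ 0 := mul_ne_zero (pow_ne_zero _ hQ) (pow_ne_zero _ hQ)
  have h7 : (Q ^ m * Q ^ m') * (y - y') = 0 := by linear_combination h6
  rcases mul_eq_zero.1 h7 with h8 | h8
  · exact absurd h8 hQm
  · exact sub_eq_zero.1 h8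

theorem Rep.const (a : ZZ) : Rep ψ N Q (fun _ => ιZ a) (ψ a) := by
  refine ⟨0, PowerSeries.C a, fun τ => ?_, ?_⟩
  · simpa using Ev.C (φ := ιZ) (q := qq N τ) a
  · simpa using Ev.C (φ := ψ) (q := Q) a

theorem Rep.add {f g : ℍ → ℂ} {y z : C} (h : Rep ψ N Q f y) (h' : Rep ψ N Q g z) :
    Rep ψ N Q (fun τ => f τ + g τ) (y + z) := by
  obtain ⟨m, F, h1, h2⟩ := h
  obtain ⟨m', F', h1', h2'⟩ := h'
  refine ⟨m + m', F * PowerSeries.X ^ m' + F' * PowerSeries.X ^ m, fun τ => ?_, ?_⟩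
  · have h3 := ((h1 τ).mul (Ev.Xpow m')).add ((h1' τ).mul (Ev.Xpow m))
    convert h3 using 1
    ring
  · have h3 := (h2.mul (Ev.Xpow m')).add (h2'.mul (Ev.Xpow m))
    convert h3 using 1
    ring

theorem Rep.mul {f g : ℍ → ℂ} {y z : C} (h : Rep ψ N Q f y) (h' : Rep ψ N Q g z) :
    Rep ψ N Q (fun τ => f τ * g τ) (y * z) := by
  obtain ⟨m, F, h1, h2⟩ := h
  obtain ⟨m', F', h1', h2'⟩ := h'
  refine ⟨m + m', F * F', fun τ => ?_, ?_⟩
  · have h3 := (h1 τ).mul (h1' τ)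
    convert h3 using 1
    ring
  · have h3 := h2.mul h2'
    convert h3 using 1
    ring

theorem Rep.pow {f : ℍ → ℂ} {y : C} (h : Rep ψ N Q f y) (n : ℕ) :
    Rep ψ N Q (fun τ => f τ ^ n) (y ^ n) := by
  induction n with
  | zero =>
    have := Rep.const (ψ := ψ) (N := N) (Q := Q) 1
    simpa using this
  | succ n ih =>
    have := ih.mul h
    simpa only [pow_succ] using this

theorem Rep.sum {ι : Type*} (s : Finset ι) {f : ι → ℍ → ℂ} {y : ι → C}
    (h : ∀ i ∈ s, Rep ψ N Q (f i) (y i)) :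
    Rep ψ N Q (fun τ => ∑ i ∈ s, f i τ) (∑ i ∈ s, y i) := by
  classical
  induction s using Finset.induction_on with
  | empty =>
    have := Rep.const (ψ := ψ) (N := N) (Q := Q) 0
    simpa using this
  | insert a s ha ih =>
    have := (h a (Finset.mem_insert_self _ _)).add
      (ih fun i hi => h i (Finset.mem_insert_of_mem hi))
    simpa only [Finset.sum_insert ha] using this

theorem Rep.prod {ι : Type*} (s : Finset ι) {f : ι → ℍ → ℂ} {y : ι → C}
    (h : ∀ i ∈ s, Rep ψ N Q (f i) (y i)) :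
    Rep ψ N Q (fun τ => ∏ i ∈ s, f i τ) (∏ i ∈ s, y i) := by
  classical
  induction s using Finset.induction_on with
  | empty =>
    have := Rep.const (ψ := ψ) (N := N) (Q := Q) 1
    simpa using this
  | insert a s ha ih =>
    have := (h a (Finset.mem_insert_self _ _)).mul
      (ih fun i hi => h i (Finset.mem_insert_of_mem hi))
    simpa only [Finset.prod_insert ha] using this

theorem Rep.poly {f : ℍ → ℂ} {y : C} (h : Rep ψ N Q f y) (P : Polynomial ZZ) :
    Rep ψ N Q (fun τ => P.eval₂ ιZ (f τ)) (P.eval₂ ψ y) := by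
  simp only [Polynomial.eval₂_eq_sum_range]
  exact Rep.sum _ fun i _ => (Rep.const _).mul (h.pow i)

end rep

/-- the coefficients of the expansion of `j`: `q j = 1 + c₁ q + ...` -/
noncomputable def cj (n : ℕ) : ZZ := ⟨ta2.choose n, ta2.choose_spec.2.1 n⟩

theorem cj_zero : cj 0 = 1 := Subtype.ext ta2.choose_spec.1

theorem cj_hasSum (τ : ℍ) : HasSum (fun n => ιZ (cj n) * qq 1 τ ^ n) (qq 1 τ ^ 1 * jj τ) :=
  ta2.choose_spec.2.2 τ

section padic

variable {C : Type} [NormedField C] [IsUltrametricDist C] [CompleteSpace C]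
  {ψ : ZZ →+* C} (hψ : ∀ z, ‖ψ z‖ ≤ 1)

include hψ

theorem summable_ev (c : ℕ → ZZ) {z : C} (hz : ‖z‖ < 1) : Summable (fun n => ‖ψ (c n) * z ^ n‖) := by
  refine Summable.of_nonneg_of_le (fun n => norm_nonneg _) (fun n => ?_)
    (summable_geometric_of_lt_one (norm_nonneg z) hz)
  rw [norm_mul, norm_pow]
  calc ‖ψ (c n)‖ * ‖z‖ ^ n ≤ 1 * ‖z‖ ^ n := by gcongr; exact hψ _
    _ = ‖z‖ ^ n := one_mul _

omit hψ in
variable (ψ) in
/-- `q j` as a function of `q` -/
noncomputable def cC (z : C) : C := ∑' n, ψ (cj n) * z ^ n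

theorem cC_hasSum {z : C} (hz : ‖z‖ < 1) : HasSum (fun n => ψ (cj n) * z ^ n) (cC ψ z) :=
  (summable_ev hψ cj hz).of_norm.hasSum

theorem cC_sub {z z' : C} (hz : ‖z‖ < 1) (hz' : ‖z'‖ < 1) :
    ‖cC ψ z - cC ψ z'‖ ≤ ‖z - z'‖ := by
  have h := (cC_hasSum hψ hz).sub (cC_hasSum hψ hz')
  rw [← h.tsum_eq]
  refine IsUltrametricDist.norm_tsum_le_of_forall_le_of_nonneg (norm_nonneg _) fun n => ?_
  rw [← mul_sub]
  exact nmul_le (hψ _) (npow_sub_pow hz.le hz'.le le_rfl n)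

theorem cC_one {z : C} (hz : ‖z‖ < 1) : ‖cC ψ z - (1 + ψ (cj 1) * z)‖ ≤ ‖z‖ ^ 2 := by
  have h := (cC_hasSum hψ hz)
  have h2 := (hasSum_nat_add_iff' 2).2 h
  rw [Finset.sum_range_succ, Finset.sum_range_one, pow_zero, pow_one, mul_one, cj_zero,
    map_one] at h2
  rw [← h2.tsum_eq]
  refine IsUltrametricDist.norm_tsum_le_of_forall_le_of_nonneg (by positivity) fun n => ?_
  refine nmul_le (hψ _) ?_
  rw [norm_pow]
  exact pow_le_pow_of_le_one (norm_nonneg _) hz.le (by omega)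

theorem cC_norm {z : C} (hz : ‖z‖ < 1) : ‖cC ψ z‖ = 1 := by
  refine neq_one (y := 1) ?_ norm_one
  have h := cC_one hψ hz
  have : cC ψ z - 1 = (cC ψ z - (1 + ψ (cj 1) * z)) + ψ (cj 1) * z := by ring
  rw [this]
  refine nadd_lt (h.trans_lt ?_) ((nmul_le (hψ _) le_rfl).trans_lt hz)
  exact pow_lt_one₀ (norm_nonneg _) hz two_ne_zero

/-- existence of the Tate parameter -/
theorem exists_q {x : C} (hx : 1 < ‖x‖) : ∃ z, ‖z‖ = ‖x‖⁻¹ ∧ z * x = cC ψ z := by
  have hx0 : x ≠ 0 := norm_pos_iff.1 (one_pos.trans hx)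
  set r : ℝ := ‖x‖⁻¹ with hr
  have hr0 : 0 ≤ r := inv_nonneg.2 (norm_nonneg _)
  have hr1 : r < 1 := inv_lt_one_of_one_lt₀ hx
  let f : C → C := fun z => cC ψ z * x⁻¹
  have hmaps : Set.MapsTo f (Metric.closedBall 0 r) (Metric.closedBall 0 r) := by
    intro z hz
    rw [mem_closedBall_zero_iff] at hz ⊢
    show ‖cC ψ z * x⁻¹‖ ≤ r
    rw [norm_mul, norm_inv, cC_norm hψ (hz.trans_lt hr1), one_mul]
  have hcontr : ContractingWith ⟨r, hr0⟩ (hmaps.restrict f _ _) := by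
    refine ⟨by exact_mod_cast hr1, LipschitzWith.of_dist_le_mul fun a b => ?_⟩
    have ha := mem_closedBall_zero_iff.1 a.2
    have hb := mem_closedBall_zero_iff.1 b.2
    rw [Subtype.dist_eq, Subtype.dist_eq, dist_eq_norm, dist_eq_norm]
    show ‖cC ψ a * x⁻¹ - cC ψ b * x⁻¹‖ ≤ r * ‖(a : C) - b‖
    rw [← sub_mul, norm_mul, norm_inv, mul_comm]
    exact mul_le_mul_of_nonneg_left (cC_sub hψ (ha.trans_lt hr1) (hb.trans_lt hr1)) hr0
  obtain ⟨z, hz, hfix, -⟩ := ContractingWith.exists_fixedPoint'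
    Metric.isClosed_closedBall.isComplete hmaps hcontr
    (x := 0) (by simpa using hr0) (edist_ne_top _ _)
  have hz1 : ‖z‖ < 1 := (mem_closedBall_zero_iff.1 hz).trans_lt hr1
  have hfix' : cC ψ z * x⁻¹ = z := hfix
  have hzx : z * x = cC ψ z := by
    rw [← hfix', mul_assoc, inv_mul_cancel₀ hx0, mul_one, hfix']
  refine ⟨z, ?_, hzx⟩
  have := congrArg norm hzx
  rw [norm_mul, cC_norm hψ hz1] at this
  exact eq_inv_of_mul_eq_one_left this

theorem q_unique {x z z' : C} (hx : 1 < ‖x‖) (hz : ‖z‖ < 1) (hz' : ‖z'‖ < 1)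
    (h : z * x = cC ψ z) (h' : z' * x = cC ψ z') : z = z' := by
  by_contra hne
  have h1 : 0 < ‖z - z'‖ := norm_pos_iff.2 (sub_ne_zero.2 hne)
  have h2 := cC_sub hψ hz hz'
  rw [← h, ← h', ← sub_mul, norm_mul] at h2
  nlinarith

omit hψ in
variable (ψ) in
/-- the Tate parameter -/
noncomputable def qT (x : C) : C :=
  open Classical in if h : ∃ z, ‖z‖ = ‖x‖⁻¹ ∧ z * x = cC ψ z then h.choose else 0

theorem qT_norm {x : C} (hx : 1 < ‖x‖) : ‖qT ψ x‖ = ‖x‖⁻¹ := by
  unfold qT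
  rw [dif_pos (exists_q hψ hx)]
  exact (exists_q hψ hx).choose_spec.1

theorem qT_eq {x : C} (hx : 1 < ‖x‖) : qT ψ x * x = cC ψ (qT ψ x) := by
  unfold qT
  rw [dif_pos (exists_q hψ hx)]
  exact (exists_q hψ hx).choose_spec.2

theorem qT_lt {x : C} (hx : 1 < ‖x‖) : ‖qT ψ x‖ < 1 := by
  rw [qT_norm hψ hx]; exact inv_lt_one_of_one_lt₀ hx

theorem qT_ne {x : C} (hx : 1 < ‖x‖) : qT ψ x ≠ 0 := by
  rw [← norm_pos_iff, qT_norm hψ hx]
  exact inv_pos.2 (one_pos.trans hx)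

theorem qT_unique {x z : C} (hx : 1 < ‖x‖) (hz : ‖z‖ < 1) (h : z * x = cC ψ z) : z = qT ψ x :=
  q_unique hψ hx hz (qT_lt hψ hx) h (qT_eq hψ hx)

/-- the expansion of the Tate parameter -/
theorem qT_expand {x : C} (hx : 1 < ‖x‖) :
    ‖qT ψ x * x - (1 + ψ (cj 1) * x⁻¹)‖ ≤ (‖x‖⁻¹) ^ 2 := by
  have hx0 : x ≠ 0 := norm_pos_iff.1 (one_pos.trans hx)
  have h1 := cC_one hψ (qT_lt hψ hx)
  rw [← qT_eq hψ hx, qT_norm hψ hx] at h1
  have h2 : qT ψ x * x - (1 + ψ (cj 1) * x⁻¹) = (qT ψ x * x - (1 + ψ (cj 1) * qT ψ x)) +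
      ψ (cj 1) * (x⁻¹ * (qT ψ x * x - 1)) := by
    field_simp
    ring
  rw [h2]
  refine nadd_le h1 (nmul_le (hψ _) ?_)
  rw [norm_mul, norm_inv, sq]
  refine mul_le_mul_of_nonneg_left ?_ (inv_nonneg.2 (norm_nonneg _))
  have h3 : qT ψ x * x - 1 = (qT ψ x * x - (1 + ψ (cj 1) * qT ψ x)) + ψ (cj 1) * qT ψ x := by ring
  rw [h3]
  refine nadd_le (h1.trans ?_) (nmul_le (hψ _) (qT_norm hψ hx).le)
  exact pow_le_of_le_one (inv_nonneg.2 (norm_nonneg _)) (inv_lt_one_of_one_lt₀ hx).le two_ne_zero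

theorem qT_expand' {x : C} (hx : 1 < ‖x‖) : ‖qT ψ x * x - 1‖ ≤ ‖x‖⁻¹ := by
  have h1 := qT_expand hψ hx
  have h3 : qT ψ x * x - 1 = (qT ψ x * x - (1 + ψ (cj 1) * x⁻¹)) + ψ (cj 1) * x⁻¹ := by ring
  rw [h3]
  refine nadd_le (h1.trans ?_) (nmul_le (hψ _) (norm_inv x).le)
  exact pow_le_of_le_one (inv_nonneg.2 (norm_nonneg _)) (inv_lt_one_of_one_lt₀ hx).le two_ne_zero

omit hψ in
variable (ψ) in
/-- `j` as a function of `q` -/
noncomputable def JC (z : C) : C := cC ψ z / z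

theorem JC_norm {z : C} (hz : ‖z‖ < 1) (hz0 : z ≠ 0) : 1 < ‖JC ψ z‖ := by
  unfold JC
  rw [norm_div, cC_norm hψ hz, one_div]
  exact (one_lt_inv₀ (norm_pos_iff.2 hz0)).2 hz

theorem qT_JC {z : C} (hz : ‖z‖ < 1) (hz0 : z ≠ 0) : qT ψ (JC ψ z) = z := by
  refine (qT_unique hψ (JC_norm hψ hz hz0) hz ?_).symm
  unfold JC
  field_simp

theorem JC_qT {x : C} (hx : 1 < ‖x‖) : JC ψ (qT ψ x) = x := by
  unfold JC
  rw [← qT_eq hψ hx]
  have := qT_ne hψ hx
  field_simp

/-- the expansion of `j ∘ g` when `q ∘ g = u q^m` -/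
theorem Rep.jfun {N m : ℕ} (hm : 0 < m) {Q : C} (hQ0 : Q ≠ 0) (hQ : ‖Q‖ < 1) {u u' : ZZ}
    (huu : u * u' = 1) {g : ℍ → ℍ} (hg : ∀ τ, qq 1 (g τ) = ιZ u * qq N τ ^ m) :
    Rep ψ N Q (fun τ => jj (g τ)) (JC ψ (ψ u * Q ^ m)) := by
  set F : PowerSeries ZZ := PowerSeries.mk fun k =>
    if m ∣ k then u' * (cj (k / m) * u ^ (k / m)) else 0 with hF
  have hinj : Function.Injective (fun n : ℕ => m * n) := by
    intro x y hxy
    exact Nat.eq_of_mul_eq_mul_left hm hxy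
  have key : ∀ {K : Type} [NormedField K] [CompleteSpace K] (φ : ZZ →+* K) (q z S : K),
      z = φ u * q ^ m → HasSum (fun n => φ (cj n) * z ^ n) S →
      Summable (fun n => ‖φ (cj n) * z ^ n‖) → Ev φ q F (φ u' * S) := by
    intro K _ _ φ q z S hz hS hsum
    have e1 : ∀ k, k ∉ Set.range (fun n : ℕ => m * n) →
        φ (PowerSeries.coeff k F) * q ^ k = 0 := by
      intro k hk
      have : ¬ m ∣ k := by
        rintro ⟨l, rfl⟩
        exact hk ⟨l, rfl⟩
      rw [hF, PowerSeries.coeff_mk, if_neg this, map_zero, zero_mul]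
    have e2 : ∀ n, φ (PowerSeries.coeff (m * n) F) * q ^ (m * n) =
        φ u' * (φ (cj n) * z ^ n) := by
      intro n
      rw [hF, PowerSeries.coeff_mk, if_pos (dvd_mul_right _ _), Nat.mul_div_cancel_left _ hm,
        map_mul, map_mul, map_pow, hz, mul_pow, pow_mul]
      ring
    refine ⟨?_, ?_⟩
    · rw [← hinj.hasSum_iff e1]
      simp only [Function.comp_def, e2]
      exact hS.mul_left _
    · rw [← hinj.summable_iff (f := fun k => ‖φ (PowerSeries.coeff k F) * q ^ k‖)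
        (fun k hk => by rw [e1 k hk, norm_zero])]
      simp only [Function.comp_def, e2, norm_mul (φ u')]
      exact hsum.mul_left _
  refine ⟨m, F, fun τ => ?_, ?_⟩
  · have h1 := cj_hasSum (g τ)
    rw [pow_one] at h1
    have h2 := key ιZ (qq N τ) (qq 1 (g τ)) _ (hg τ) h1 h1.summable.norm
    convert h2 using 1
    rw [hg τ]
    have : ιZ u * ιZ u' = 1 := by rw [← map_mul, huu, map_one]
    linear_combination (-qq N τ ^ m * jj (g τ)) * this
  · have hψu : ‖ψ u‖ ≤ 1 := hψ u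
    have huu' : ψ u * ψ u' = 1 := by rw [← map_mul, huu, map_one]
    have hu0 : ψ u ≠ 0 := left_ne_zero_of_mul_eq_one huu'
    have hz : ‖ψ u * Q ^ m‖ < 1 :=
      (nmul_le hψu le_rfl).trans_lt (by rw [norm_pow]; exact pow_lt_one₀ (norm_nonneg _) hQ hm.ne')
    have h2 := key ψ Q (ψ u * Q ^ m) _ rfl (cC_hasSum hψ hz) (summable_ev hψ cj hz)
    convert h2 using 1
    unfold JC
    have hQm : Q ^ m ≠ 0 := pow_ne_zero _ hQ0
    rw [div_eq_mul_inv, mul_inv]
    have e3 : (ψ u)⁻¹ = ψ u' := by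
      rw [inv_eq_iff_eq_inv]; exact eq_inv_of_mul_eq_one_left huu'
    rw [e3]
    field_simp

end padic

end Pool.Agent.Y226
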