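import Pool.Agent.Y226.ZP.Exc
import Pool.Agent.Y226.ZP.TameEq

/-!
# Teichmüller representatives and the residue field
-/

set_option autoImplicit false
set_option linter.unusedSectionVars false

open Polynomial

namespace Pool.Agent.Y226

variable {C : Type} [NormedField C] [IsUltrametricDist C]

theorem near_root [IsAlgClosed C] {f : C[X]} (hf : f.Monic) {x : C} (hx : ‖f.eval x‖ < 1) :
    ∃ ζ, f.eval ζ = 0 ∧ ‖x - ζ‖ < 1 := by
  by_contra hcon
  push Not at hcon
  rw [(IsAlgClosed.splits f).eval_eq_prod_roots_of_monic hf] at hx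
  have key : ∀ s : Multiset C, (∀ a ∈ s, 1 ≤ ‖x - a‖) → 1 ≤ ‖(s.map (fun a => x - a)).prod‖ := by
    intro s
    induction s using Multiset.induction_on with
    | empty => intro _; simp
    | cons a s ih =>
      intro h
      rw [Multiset.map_cons, Multiset.prod_cons, norm_mul]
      have h1 := h a (Multiset.mem_cons_self a s)
      have h2 := ih fun b hb => h b (Multiset.mem_cons_of_mem hb)
      nlinarith
  have := key f.roots fun a ha => hcon a ((mem_roots hf.ne_zero).1 ha)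
  exact absurd hx (not_lt.2 this)

variable {p : ℕ} [hpf : Fact p.Prime]

theorem exists_fixed [IsAlgClosed C] {x : C} {f : ℕ} (hf : 0 < f) (hx : ‖x ^ p ^ f - x‖ < 1) :
    ∃ ζ, ζ ^ p ^ f = ζ ∧ ‖x - ζ‖ < 1 := by
  have h1 : 1 < p ^ f := Nat.one_lt_pow hf.ne' hpf.out.one_lt
  have hm : (X ^ p ^ f - X : C[X]).Monic := by
    apply monic_X_pow_sub
    rw [degree_X]
    exact_mod_cast h1
  obtain ⟨ζ, hζ, hlt⟩ := near_root hm (x := x) (by simpa using hx)
  refine ⟨ζ, ?_, hlt⟩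
  simpa [sub_eq_zero] using hζ

theorem exists_teich [IsAlgClosed C] (hp1 : ‖(p : C)‖ < 1) {x : C} (hx : x ∈ Nr C p) :
    ∃ τ f, 0 < f ∧ τ ^ p ^ f = τ ∧ ‖x - τ‖ ≤ ‖(p : C)‖ := by
  obtain ⟨f, hf, h2⟩ := hx.2
  obtain ⟨ζ, hζ, hlt⟩ := exists_fixed hf (h2.trans_lt hp1)
  exact ⟨ζ, f, hf, hζ, Nr_gap (sub_mem hx (Nr_of_fixed hf hζ)) hlt⟩

/-- the residue field -/
theorem exists_residue (hp1 : ‖(p : C)‖ < 1) : ∃ (k : Type) (_ : Field k) (_ : CharP k p)
    (red : OO C →+* k), ∀ x : OO C, red x = 0 ↔ ‖(x : C)‖ < 1 := by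
  let I : Ideal (OO C) :=
    { carrier := {x | ‖(x : C)‖ < 1}
      add_mem' := fun {a b} ha hb => by
        show ‖((a + b : OO C) : C)‖ < 1
        rw [Subring.coe_add]
        exact nadd_lt ha hb
      zero_mem' := by show ‖((0 : OO C) : C)‖ < 1; simp
      smul_mem' := fun c {x} hx => by
        show ‖((c * x : OO C) : C)‖ < 1
        rw [Subring.coe_mul, norm_mul]
        have h1 : ‖(c : C)‖ ≤ 1 := c.2
        have h2 : ‖(x : C)‖ < 1 := hx
        have := norm_nonneg (x : C)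
        nlinarith }
  have hmem : ∀ x : OO C, x ∈ I ↔ ‖(x : C)‖ < 1 := fun x => Iff.rfl
  have hmax : I.IsMaximal := by
    rw [Ideal.isMaximal_iff]
    refine ⟨by rw [hmem]; simp, ?_⟩
    intro J x hIJ hx hxJ
    rw [hmem] at hx
    have hx1 : ‖(x : C)‖ = 1 := le_antisymm x.2 (not_lt.1 hx)
    have hx0 : (x : C) ≠ 0 := norm_pos_iff.1 (by rw [hx1]; exact one_pos)
    have h2 : (⟨(x : C)⁻¹, by rw [mem_OO, norm_inv, hx1, inv_one]⟩ : OO C) * x = 1 :=
      Subtype.ext (inv_mul_cancel₀ hx0)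
    rw [← h2]
    exact J.mul_mem_left _ hxJ
  refine ⟨OO C ⧸ I, Ideal.Quotient.field I, ?_, Ideal.Quotient.mk I, ?_⟩
  · have h0 : ((p : ℕ) : OO C ⧸ I) = 0 := by
      have : ((p : ℕ) : OO C ⧸ I) = Ideal.Quotient.mk I (p : OO C) := by simp
      rw [this, Ideal.Quotient.eq_zero_iff_mem, hmem]
      simpa using hp1
    have hnt : Nontrivial (OO C ⧸ I) := Ideal.Quotient.nontrivial_iff.2 hmax.ne_top
    have : @CharP (OO C ⧸ I) (Ideal.Quotient.commRing I).toAddCommGroupWithOne.toAddMonoidWithOne p := by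
      exact (CharP.charP_iff_prime_eq_zero hpf.out).2 h0
    exact this
  · intro x
    rw [Ideal.Quotient.eq_zero_iff_mem, hmem]

end Pool.Agent.Y226
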