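import Pool.Agent.Y226.ZP.Pair

/-!
# Wild torsion
-/

set_option autoImplicit false
set_option linter.unusedSectionVars false

open Polynomial

namespace Pool.Agent.Y226

variable {C : Type} [NormedField C] [IsUltrametricDist C]
variable {p : ℕ} [hpf : Fact p.Prime]

/-- a `p`-power root of unity in `GG θ` is close to one -/
theorem ppow_GG (hp1 : ‖(p : C)‖ < 1) {ε : Cˣ} {s : ℕ} (hε : (ε : C) ^ p ^ s = 1) {θ : ℝ}
    {h0 : 0 ≤ θ} {h1 : θ < 1} (hθ : ‖(p : C)‖ ≤ θ) (h : ε ∈ GG C p θ h0 h1) :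
    ‖(ε : C) - 1‖ ≤ θ := by
  obtain ⟨w, hw, hw1, hwl⟩ := h
  have h2 : ‖(ε : C) - 1‖ < 1 := ppow_root_lt hp1 hε
  have h3 : ‖w - 1‖ < 1 := by
    have : w - 1 = ((ε : C) - 1) - ((ε : C) - w) := by ring
    rw [this]
    exact nsub_lt h2 (hwl.trans_lt h1)
  have h4 : ‖w - 1‖ ≤ ‖(p : C)‖ := Nr_gap (sub_mem hw (one_mem _)) h3
  have : (ε : C) - 1 = ((ε : C) - w) + (w - 1) := by ring
  rw [this]
  exact nadd_le hwl (h4.trans hθ)

namespace PData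

variable {n d : ℕ} (𝒟 : PData C p n d)

/-- the values at a point near `t₀` -/
theorem val_GG {t t₀ : C} (ht₀ : t₀ ∈ Nr C p) {θ : ℝ} {h0 : 0 ≤ θ} {h1 : θ < 1}
    (h : ‖t - t₀‖ ≤ θ) {Y : Fin n → Cˣ} {i : Fin n} (hY : 𝒟.Val t Y i) :
    Y i ∈ GG C p θ h0 h1 := by
  obtain ⟨⟨hA, hB⟩, hAB⟩ := hY
  have ht : ‖t‖ ≤ 1 := by
    have : t = (t - t₀) + t₀ := by ring
    rw [this]
    exact nadd_le (h.trans h1.le) (Nr_le ht₀)
  have hA' := eval_sub_le (PS_Nr_le (𝒟.hA i)) ht (Nr_le ht₀) h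
  have hB' := eval_sub_le (PS_Nr_le (𝒟.hB i)) ht (Nr_le ht₀) h
  have hA0 : ‖(𝒟.A i).eval t₀‖ = 1 := neq_one (by rw [norm_sub_rev]; exact hA'.trans_lt h1) hA
  have hB0 : ‖(𝒟.B i).eval t₀‖ = 1 := neq_one (by rw [norm_sub_rev]; exact hB'.trans_lt h1) hB
  refine ⟨(𝒟.A i).eval t₀ * ((𝒟.B i).eval t₀)⁻¹, ?_, ?_, ?_⟩
  · exact mul_mem (eval_mem (𝒟.hA i) ht₀) (Nr_inv (eval_mem (𝒟.hB i) ht₀) hB0)
  · rw [norm_mul, norm_inv, hA0, hB0, inv_one, one_mul]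
  · have hBne : (𝒟.B i).eval t ≠ 0 := norm_pos_iff.1 (by rw [hB]; exact one_pos)
    have hB0ne : (𝒟.B i).eval t₀ ≠ 0 := norm_pos_iff.1 (by rw [hB0]; exact one_pos)
    have e : (Y i : C) = (𝒟.A i).eval t * ((𝒟.B i).eval t)⁻¹ := by
      rw [hAB]; field_simp
    have e2 : (Y i : C) - (𝒟.A i).eval t₀ * ((𝒟.B i).eval t₀)⁻¹ =
        (((𝒟.A i).eval t - (𝒟.A i).eval t₀) * (𝒟.B i).eval t₀ -
          (𝒟.A i).eval t₀ * ((𝒟.B i).eval t - (𝒟.B i).eval t₀)) *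
        (((𝒟.B i).eval t)⁻¹ * ((𝒟.B i).eval t₀)⁻¹) := by
      rw [e]; field_simp; ring
    rw [e2]
    refine nmul_le' (nsub_le (nmul_le' hA' hB0.le) (nmul_le hA0.le hB')) ?_
    rw [norm_mul, norm_inv, norm_inv, hB, hB0, inv_one, one_mul]

/-- wild torsion forces a large distance to `Nr` -/
theorem dist_ge (hp2 : p ≠ 2) (hp0 : 0 < ‖(p : C)‖) (hp1 : ‖(p : C)‖ < 1) {t t₀ : C}
    (ht₀ : t₀ ∈ Nr C p) (h : ‖t - t₀‖ < 1) {Y : Fin n → Cˣ} {j k : Fin n}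
    (hj : 𝒟.Val t Y j) (hk : 𝒟.Val t Y k) {ε : Cˣ} {s : ℕ}
    (hε : IsPrimitiveRoot (ε : C) (p ^ (s + 1)))
    (hG : Y k * (Y j)⁻¹ * ε ∈ GG C p ‖(p : C)‖ (norm_nonneg _) hp1) :
    ‖(ε : C) - 1‖ ≤ ‖t - t₀‖ := by
  set θ := max ‖(p : C)‖ ‖t - t₀‖ with hθ
  have hθ1 : θ < 1 := max_lt hp1 h
  have hθ0 : 0 ≤ θ := le_max_of_le_left (norm_nonneg _)
  have h1 := 𝒟.val_GG ht₀ (h0 := hθ0) (h1 := hθ1) (le_max_right _ _) hj
  have h2 := 𝒟.val_GG ht₀ (h0 := hθ0) (h1 := hθ1) (le_max_right _ _) hk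
  have h3 := GG_mono (h0' := hθ0) (h1' := hθ1) (le_max_left _ _) hG
  have h4 : ε ∈ GG C p θ hθ0 hθ1 := by
    have e : ε = (Y k * (Y j)⁻¹ * ε) * ((Y k)⁻¹ * Y j) := by
      have : (Y k * (Y j)⁻¹ * ε) * ((Y k)⁻¹ * Y j) = (Y k * (Y k)⁻¹) * ((Y j)⁻¹ * Y j) * ε := by
        ac_rfl
      rw [this]; simp
    rw [e]
    exact mul_mem h3 (mul_mem (inv_mem h2) h1)
  have h5 := ppow_GG hp1 hε.pow_eq_one (le_max_left _ _) h4
  have h6 : ‖(p : C)‖ < ‖(ε : C) - 1‖ := by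
    have h7 := ppow_root_norm hp2 hp1 hε
    have h8 : ‖(ε : C) - 1‖ < 1 := ppow_root_lt hp1 hε.pow_eq_one
    rw [← h7] at hp0 ⊢
    have h9 : 0 < ‖(ε : C) - 1‖ := by
      by_contra hcon
      have h10 : ‖(ε : C) - 1‖ = 0 := le_antisymm (not_lt.1 hcon) (norm_nonneg _)
      rw [h10, zero_pow] at hp0
      · exact lt_irrefl _ hp0
      · have := hpf.out.two_le
        exact Nat.mul_ne_zero (pow_pos hpf.out.pos s).ne' (by omega)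
    calc ‖(ε : C) - 1‖ ^ (p ^ s * (p - 1)) < ‖(ε : C) - 1‖ ^ 1 := by
          apply pow_lt_pow_right_of_lt_one₀ h9 h8
          have h11 := hpf.out.two_le
          have h12 : 1 ≤ p ^ s := Nat.one_le_pow _ _ hpf.out.pos
          calc 1 < 2 := by norm_num
            _ ≤ p - 1 := by omega
            _ ≤ p ^ s * (p - 1) := Nat.le_mul_of_pos_left _ h12
      _ = ‖(ε : C) - 1‖ := pow_one _
  rcases le_max_iff.1 h5 with h7 | h7
  · exact absurd h7 (not_le.2 h6)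
  · exact h7

theorem root_pos (hp2 : p ≠ 2) (hp1 : ‖(p : C)‖ < 1) (hp0 : 0 < ‖(p : C)‖) {ε : C} {s : ℕ}
    (hε : IsPrimitiveRoot ε (p ^ (s + 1))) : 0 < ‖ε - 1‖ := by
  have h7 := ppow_root_norm hp2 hp1 hε
  by_contra hcon
  have h10 : ‖ε - 1‖ = 0 := le_antisymm (not_lt.1 hcon) (norm_nonneg _)
  rw [← h7, h10, zero_pow] at hp0
  · exact lt_irrefl _ hp0
  · have := hpf.out.two_le
    exact Nat.mul_ne_zero (pow_pos hpf.out.pos s).ne' (by omega)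

/-- comparison of exponents -/
theorem exp_le (hp2 : p ≠ 2) (hp1 : ‖(p : C)‖ < 1) (hp0 : 0 < ‖(p : C)‖) {ε : C} {s : ℕ}
    (hε : IsPrimitiveRoot ε (p ^ (s + 1))) {h : ℝ} (hh : ‖ε - 1‖ ≤ h) {D : ℕ}
    (hD : h ^ D ≤ ‖(p : C)‖) : p ^ s * (p - 1) ≤ D := by
  have h1 : ‖ε - 1‖ ^ D ≤ ‖ε - 1‖ ^ (p ^ s * (p - 1)) := by
    rw [ppow_root_norm hp2 hp1 hε]
    exact (pow_le_pow_left₀ (norm_nonneg _) hh D).trans hD
  by_contra hcon
  push Not at hcon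
  have h2 := pow_lt_pow_right_of_lt_one₀ (root_pos hp2 hp1 hp0 hε)
    (ppow_root_lt hp1 hε.pow_eq_one) hcon
  exact absurd h1 (not_le.2 h2)

/-- the exponent vector of a pair -/
def ee (j k : Fin n) : Fin n → ℤ := fun i => (if i = k then 1 else 0) - (if i = j then 1 else 0)

theorem prod_ee (Y : Fin n → Cˣ) (j k : Fin n) : ∏ i, Y i ^ ee j k i = Y k * (Y j)⁻¹ := by
  simp only [ee, zpow_sub, Finset.prod_mul_distrib, Finset.prod_inv_distrib]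
  congr 1
  · rw [Finset.prod_eq_single k]
    · simp
    · intro b _ hb; simp [hb]
    · intro h; exact absurd (Finset.mem_univ k) h
  · rw [Finset.prod_eq_single j]
    · simp
    · intro b _ hb; simp [hb]
    · intro h; exact absurd (Finset.mem_univ j) h

theorem sum_ee (j k : Fin n) : ∑ i, (ee j k i).natAbs ≤ 2 := by
  have h : ∀ i, (ee j k i).natAbs ≤ (if i = k then 1 else 0) + (if i = j then 1 else 0) := by
    intro i
    unfold ee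
    split_ifs <;> simp
  refine (Finset.sum_le_sum fun i _ => h i).trans ?_
  rw [Finset.sum_add_distrib]
  simp

theorem prod_comb (Y : Fin n → Cˣ) (v w : Fin n → ℤ) (a b : ℤ) :
    ∏ i, Y i ^ (a * v i + b * w i) = (∏ i, Y i ^ v i) ^ a * (∏ i, Y i ^ w i) ^ b := by
  rw [← Finset.prod_zpow, ← Finset.prod_zpow, ← Finset.prod_mul_distrib]
  refine Finset.prod_congr rfl fun i _ => ?_
  rw [zpow_add, ← zpow_mul, ← zpow_mul, mul_comm a, mul_comm b]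

theorem sum_comb (v w : Fin n → ℤ) (a b : ℤ) :
    ∑ i, (a * v i + b * w i).natAbs ≤
      a.natAbs * ∑ i, (v i).natAbs + b.natAbs * ∑ i, (w i).natAbs := by
  rw [Finset.mul_sum, Finset.mul_sum, ← Finset.sum_add_distrib]
  refine Finset.sum_le_sum fun i _ => ?_
  refine (Int.natAbs_add_le _ _).trans ?_
  rw [Int.natAbs_mul, Int.natAbs_mul]

/-- two distinct pairs exclude wild torsion -/
theorem no_wild (hpD : 16 * (d + 1) ^ 4 < p) (hp0 : 0 < ‖(p : C)‖) (hp1 : ‖(p : C)‖ < 1)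
    {t t₀ : C} (ht₀ : t₀ ∈ Nr C p) (h : ‖t - t₀‖ < 1) {Y : Fin n → Cˣ} {j k l m : Fin n}
    (hj : 𝒟.Val t Y j) (hk : 𝒟.Val t Y k) (hl : 𝒟.Val t Y l) (hm : 𝒟.Val t Y m)
    (hjk : j ≠ k) (hlm : l ≠ m) (hne : ¬ ((l = j ∧ m = k) ∨ (l = k ∧ m = j)))
    {ε₁ ε₂ : Cˣ} {s : ℕ}
    (hε₁ : IsPrimitiveRoot (ε₁ : C) (p ^ (s + 1))) (hε₂ : (ε₂ : C) ^ p ^ (s + 1) = 1)
    (hG₁ : Y k * (Y j)⁻¹ * ε₁ ∈ GG C p ‖(p : C)‖ (norm_nonneg _) hp1)
    (hG₂ : Y m * (Y l)⁻¹ * ε₂ ∈ GG C p ‖(p : C)‖ (norm_nonneg _) hp1) : False := by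
  have hp2 : p ≠ 2 := by
    rintro rfl
    have : 1 ≤ (d + 1) ^ 4 := Nat.one_le_pow _ _ (Nat.succ_pos d)
    omega
  have hge := 𝒟.dist_ge hp2 hp0 hp1 ht₀ h hj hk hε₁ hG₁
  obtain ⟨γ, -, hγ⟩ := hε₁.eq_pow_of_pow_eq_one hε₂
  have hγ' : ε₁ ^ γ = ε₂ := Units.ext (by rw [Units.val_pow_eq_pow_val]; exact hγ)
  obtain ⟨n₁, n₂, hnn, hn₁, hn₂, hdvd⟩ := thue (p ^ (s + 1)) (pow_pos hpf.out.pos _) (γ : ℤ)
  set v : Fin n → ℤ := fun i => n₁ * ee j k i + n₂ * ee l m i with hv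
  have hv0 : v ≠ 0 := by
    intro h0
    apply hnn
    have hval : ∀ i, n₁ * ee j k i + n₂ * ee l m i = 0 := fun i => congrFun h0 i
    have hn1 : n₁ = 0 := by
      by_cases h1 : k ≠ l ∧ k ≠ m
      · have := hval k
        simpa [ee, h1.1, h1.2, hjk.symm] using this
      · by_cases h2 : j ≠ l ∧ j ≠ m
        · have := hval j
          simpa [ee, h2.1, h2.2, hjk] using this
        · exfalso
          apply hne
          by_cases h3 : k = l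
          · right
            refine ⟨h3.symm, ?_⟩
            by_contra h4
            exact h2 ⟨fun h5 => hjk (h5.trans h3.symm), fun h5 => h4 h5.symm⟩
          · left
            have h4 : k = m := by
              by_contra h5
              exact h1 ⟨h3, h5⟩
            refine ⟨?_, h4.symm⟩
            by_contra h5
            exact h2 ⟨fun h6 => h5 h6.symm, fun h6 => hjk (h6.trans h4.symm)⟩
    have hn2 : n₂ = 0 := by
      have := hval m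
      simpa [ee, hn1, hlm.symm] using this
    rw [hn1, hn2]
  have hprod : ∏ i, Y i ^ v i = (Y k * (Y j)⁻¹) ^ n₁ * (Y m * (Y l)⁻¹) ^ n₂ := by
    rw [hv, prod_comb, prod_ee, prod_ee]
  have hone : ε₁ ^ n₁ * ε₂ ^ n₂ = 1 := by
    rw [← hγ', ← zpow_natCast, ← zpow_mul, ← zpow_add]
    obtain ⟨c, hc⟩ := hdvd
    rw [hc, zpow_mul, zpow_natCast]
    have : ε₁ ^ p ^ (s + 1) = 1 := Units.ext (by
      rw [Units.val_pow_eq_pow_val]; exact hε₁.pow_eq_one)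
    rw [this, one_zpow]
  have hG : (∏ i, Y i ^ v i) ∈ GG C p ‖(p : C)‖ (norm_nonneg _) hp1 := by
    have e : (∏ i, Y i ^ v i) = (Y k * (Y j)⁻¹ * ε₁) ^ n₁ * (Y m * (Y l)⁻¹ * ε₂) ^ n₂ := by
      rw [mul_zpow _ ε₁, mul_zpow _ ε₂, mul_mul_mul_comm, hone, mul_one, hprod]
    rw [e]
    exact mul_mem (zpow_mem hG₁ _) (zpow_mem hG₂ _)
  have hY : ∀ i, v i ≠ 0 → 𝒟.Val t Y i := by
    intro i hi
    by_cases h1 : i = j
    · rw [h1]; exact hj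
    by_cases h2 : i = k
    · rw [h2]; exact hk
    by_cases h3 : i = l
    · rw [h3]; exact hl
    by_cases h4 : i = m
    · rw [h4]; exact hm
    exact absurd (by simp [hv, ee, h1, h2, h3, h4]) hi
  have hsum : d * ∑ i, (v i).natAbs ≤ d * (2 * n₁.natAbs + 2 * n₂.natAbs) := by
    refine Nat.mul_le_mul_left _ ((sum_comb _ _ _ _).trans ?_)
    have h1 := sum_ee j k
    have h2 := sum_ee l m
    calc _ ≤ n₁.natAbs * 2 + n₂.natAbs * 2 :=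
          Nat.add_le_add (Nat.mul_le_mul_left _ h1) (Nat.mul_le_mul_left _ h2)
      _ = _ := by ring
  have hbd := 𝒟.monomial_bound hp1 hv0 ht₀ h hY le_rfl hp0 hG hsum
  have hle := exp_le hp2 hp1 hp0 hε₁ hge hbd
  -- numerical contradiction
  obtain ⟨q, hq⟩ : ∃ q, p = q + 1 := ⟨p - 1, by have := hpf.out.pos; omega⟩
  have hq' : p - 1 = q := by omega
  rw [hq'] at hle
  have hP : 1 ≤ p ^ s := Nat.one_le_pow _ _ hpf.out.pos
  set P := p ^ s with hPdef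
  have hM : p ^ (s + 1) = P * p := by rw [pow_succ]
  rw [hM] at hn₁ hn₂
  set a := n₁.natAbs
  set b := n₂.natAbs
  have h1 : (P * q) ^ 2 ≤ 16 * d ^ 2 * (P * p) := by
    have h2 : (P * q) ^ 2 ≤ (d * (2 * a + 2 * b)) ^ 2 := Nat.pow_le_pow_left hle 2
    have h3 : (2 * a + 2 * b) ^ 2 ≤ 16 * (P * p) := by nlinarith [sq_nonneg ((a : ℤ) - b), sq_nonneg ((a : ℤ) + b), hn₁, hn₂, two_mul_le_add_sq a b]
    calc (P * q) ^ 2 ≤ (d * (2 * a + 2 * b)) ^ 2 := h2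
      _ = d ^ 2 * (2 * a + 2 * b) ^ 2 := by ring
      _ ≤ d ^ 2 * (16 * (P * p)) := Nat.mul_le_mul_left _ h3
      _ = 16 * d ^ 2 * (P * p) := by ring
  have h2 : P * q ^ 2 ≤ 16 * d ^ 2 * p := by
    have h3 : P * (P * q ^ 2) ≤ P * (16 * d ^ 2 * p) := by nlinarith
    exact Nat.le_of_mul_le_mul_left h3 (by omega)
  have h3 : q ^ 2 ≤ 16 * d ^ 2 * p := le_trans (Nat.le_mul_of_pos_left _ hP) h2
  have hp22 := hpf.out.two_le
  have h4 : p ≤ 2 * q := by omega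
  have h5 : q * q ≤ 32 * d ^ 2 * q := by nlinarith
  have h6 : q ≤ 32 * d ^ 2 := Nat.le_of_mul_le_mul_right h5 (by omega)
  have h7 : 32 * d ^ 2 + 1 ≤ 16 * (d + 1) ^ 4 := by
    nlinarith [Nat.zero_le d, Nat.zero_le (d ^ 2), Nat.zero_le (d ^ 3), Nat.zero_le (d ^ 4)]
  omega

/-- a CM coordinate excludes wild torsion -/
theorem no_wild_cm (hpD : 16 * (d + 1) ^ 4 < p) (hp0 : 0 < ‖(p : C)‖) (hp1 : ‖(p : C)‖ < 1)
    {t t₀ : C} (ht₀ : t₀ ∈ Nr C p) (h : ‖t - t₀‖ < 1) {Y : Fin n → Cˣ} {i j k : Fin n}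
    (hj : 𝒟.Val t Y j) (hk : 𝒟.Val t Y k)
    (hi : ‖(𝒟.A i).eval t‖ ≤ ‖(p : C)‖) (hij : j ≠ i) {ε₁ : Cˣ} {s : ℕ}
    (hε₁ : IsPrimitiveRoot (ε₁ : C) (p ^ (s + 1)))
    (hG₁ : Y k * (Y j)⁻¹ * ε₁ ∈ GG C p ‖(p : C)‖ (norm_nonneg _) hp1) : False := by
  have hp2 : p ≠ 2 := by
    rintro rfl
    have : 1 ≤ (d + 1) ^ 4 := Nat.one_le_pow _ _ (Nat.succ_pos d)
    omega
  have hge := 𝒟.dist_ge hp2 hp0 hp1 ht₀ h hj hk hε₁ hG₁
  obtain ⟨x, hx, hlt⟩ := 𝒟.g3 j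
  have hbad : ¬ 𝒟.Good x j := by
    rw [good_iff 𝒟 hx]; exact hlt.ne
  have hgi := 𝒟.good_of_ne hx hbad hij.symm
  have hbd := contact_le hp1 (𝒟.hA i) (𝒟.dA i) hx hgi.1 ht₀ h le_rfl hp0 hi
  have hle := exp_le hp2 hp1 hp0 hε₁ hge hbd
  have hP : 1 ≤ p ^ s := Nat.one_le_pow _ _ hpf.out.pos
  have h1 : p - 1 ≤ d := (Nat.le_mul_of_pos_left _ hP).trans hle
  have h7 : d + 1 ≤ 16 * (d + 1) ^ 4 := by
    have : 1 ≤ (d + 1) ^ 3 := Nat.one_le_pow _ _ (Nat.succ_pos d)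
    nlinarith
  omega

end PData

end Pool.Agent.Y226
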